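import Pool.Agent.Lib.MP_f80667_ag.Ct.Par

/-! The divisor of the sphere on the curve, as a cycle on every closed subset containing the
curve. -/

open MvPolynomial

namespace Rl

open Ct ZC
open scoped LinearAlgebra.Projectivization

universe u

theorem exists_cyc_g {k E Ω : Type u} [Field k] [CharZero k] [Field E] [Algebra k E] [Field Ω]
    [Algebra k Ω] [IsAlgClosed Ω] {n r : ℕ} {f : Fin r → MvPolynomial (Fin n) k}
    {κ : Type} {G : κ → MvPolynomial (Fin n) k}
    {P Q u : Fin n → k} (H : Pair f P Q u) (hP : P ≠ 0) (hE : IsFunField k E) {τ : E}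
    {β : Fin r → E} (hz : Zer f E (pt f P u 1 τ β)) (hzG : Zer G E (pt f P u 1 τ β))
    (hgen : IntermediateField.adjoin k (insert τ (Set.range β)) = ⊤) (w : Place k E Ω)
    (hτ : τ ∈ w.V.nonunits) (hβ : ∀ i, β i ∈ w.V.nonunits) :
    ∃ z ∈ ratEq Ω G, z (mapPt (algebraMap k Ω) (Projectivization.mk k P hP)) = 1 ∧
      ∀ x : ℙ k (Fin n → k), (∀ c : k, x.rep ≠ c • P) → (∀ c : k, x.rep ≠ c • Q) →
        Even (z (mapPt (algebraMap k Ω) x)) := by
  classical
  have hord := ord_one H hz hgen w hτ hβ
  set p := pt f P u 1 τ β with hp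
  set g := sph P Q 1 p with hg
  have hnu : ¬ (g ∈ w.V ∧ g⁻¹ ∈ w.V) := fun h =>
    absurd (hord.eq_zero h.1 h.2) one_ne_zero
  have hgt : Transcendental k g := by
    intro halg
    exact hnu ⟨par_alg w halg, par_alg w halg.inv⟩
  have hg0 : g ≠ 0 := fun h0 => hgt (by rw [h0]; exact isAlgebraic_zero)
  have hp0 : p ≠ 0 := by
    intro h0
    have h1 := pt_dot (f := f) (P := P) (u := u) (1 : E) τ β P
    have hPu' : ∑ j, u j * P j = 0 := by
      rw [← H.Pu]
      exact Finset.sum_congr rfl fun j _ => mul_comm _ _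
    have hs : ∑ i, β i * algebraMap k E (∑ j, gr f P i j * P j) = 0 :=
      Finset.sum_eq_zero fun i _ => by rw [H.gP i, map_zero, mul_zero]
    have hs' : ∑ j, (0 : Fin n → E) j * algebraMap k E (P j) = 0 :=
      Finset.sum_eq_zero fun j _ => by rw [Pi.zero_apply, zero_mul]
    rw [← hp, h0, hPu', hs, hs', map_zero, mul_zero, add_zero, add_zero, one_mul] at h1
    exact H.PP ((map_eq_zero _).1 h1.symm)
  obtain ⟨S, m, x, h1, h2⟩ := exists_div (Ω := Ω) hE hgt hp0
  refine ⟨∑ v ∈ S, Finsupp.single (x v) (m v), AddSubgroup.subset_closure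
    ⟨E, _, _, hE, g, p, hg0, hp0, hzG, S, m, x, h1, h2, rfl⟩, ?_, ?_⟩
  · -- the multiplicity of `P`
    have hwS : w ∈ S := by
      by_contra hcon
      exact hnu (h1 w hcon)
    have hres : ∀ j, ParR w (1 * p j) (algebraMap k Ω (P j)) := by
      intro j
      refine ((parR_k w (P j)).add (((parR_zero hτ).mul (parR_k w (u j))).add
        (ParR.sum Finset.univ fun i => (parR_zero (hβ i)).mul (parR_k w (gr f P i j))))).congr
        ?_ ?_
      · rw [hp]
        unfold pt
        ring
      · simp
    have hval : w.IsVal p (mapPt (algebraMap k Ω) (Projectivization.mk k P hP)) := by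
      rw [ZCTr.mapPt_mk]
      have h3 : (fun i => w.res ⟨1 * p i, (hres i).1⟩) = fun i => algebraMap k Ω (P i) := by
        funext i
        exact (hres i).2
      refine ⟨1, fun i => (hres i).1, ?_, ?_⟩
      · rw [h3]
        exact comp_ne (algebraMap k Ω) hP
      · congr 1
        exact h3.symm
    have hxw : x w = mapPt (algebraMap k Ω) (Projectivization.mk k P hP) :=
      (h2 w hwS).2.unique hval
    have hmw : m w = 1 := (h2 w hwS).1.unique rfl hord
    rw [Finsupp.finsetSum_apply, Finset.sum_eq_single w]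
    · rw [hxw, Finsupp.single_eq_same, hmw]
    · intro w' hw' hne
      rw [Finsupp.single_apply, if_neg]
      intro hx'
      apply hne
      have h3 := (h2 w' hw').2
      rw [hx', ZCTr.mapPt_mk] at h3
      obtain ⟨c, l, hl, hX⟩ := par_val _ h3
      obtain ⟨s, t, b, hXe, hcr, htr, hbr, hs, ht, hb⟩ := par_data H.toFrame hl hX
      have hs1 : s = 1 := mul_right_cancel₀ H.PP (by rw [hs, one_mul])
      have ht0 : t = 0 := by
        rw [H.Pu] at ht
        exact (mul_eq_zero.1 ht).resolve_right H.uu
      have hb0 : b = 0 := by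
        refine H.gram b fun i' => ?_
        rw [← H.gP i']
        refine Eq.trans ?_ ((hb i').trans (Finset.sum_congr rfl fun j _ => mul_comm _ _))
        refine Finset.sum_congr rfl fun i _ => ?_
        congr 1
        exact Finset.sum_congr rfl fun j _ => mul_comm _ _
      rw [hs1, map_one, mul_one] at hcr
      have hcv := hcr.val hl
      have unit : ∀ a : E, ParR w' (c * a) (l * algebraMap k Ω 0) → a ∈ w'.V.nonunits := by
        intro a ha
        rw [map_zero, mul_zero] at ha
        have h4 := ha.nonunit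
        rw [ValuationSubring.mem_nonunits_iff, map_mul, hcv, one_mul] at h4
        rw [ValuationSubring.mem_nonunits_iff]
        exact h4
      refine place_unique H.toFrame hz hgen w w' hτ hβ (unit τ ?_) fun i => unit (β i) ?_
      · rw [← ht0]
        exact htr
      · have h5 := hbr i
        rw [hb0] at h5
        exact h5
    · intro h
      exact absurd hwS h
  · intro y hyP hyQ
    rw [Finsupp.finsetSum_apply]
    refine Finset.even_sum _ fun w' hw' => ?_
    rw [Finsupp.single_apply]
    split_ifs with hx'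
    swap
    · exact Even.zero
    have h3 := (h2 w' hw').2
    rw [hx'] at h3
    obtain ⟨c, l, hl, hX⟩ := par_val _ h3
    obtain ⟨s, t, b, hXe, hcr, -, -, -, -, -⟩ := par_data H.toFrame hl hX
    have hZ : Zer f k y.rep := by
      have h4 := w'.zer H.hom hz h3
      exact (zer_mapPt_iff H.hom (Algebra.ofId k Ω) y).1 h4
    have hsph : sph P Q s y.rep ≠ 0 := by
      intro h4
      rw [hXe] at h4 hZ
      obtain ⟨a, ha⟩ := H.only s t b hZ h4
      rw [← hXe] at ha
      rcases ha with ha | ha
      · exact hyP a ha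
      · exact hyQ a ha
    have h5 := ParR.sph (P := P) (Q := Q) hcr hX
    exact par_even (h2 w' hw').1 (h5.val (mul_ne_zero (pow_ne_zero 2 hl)
      ((map_ne_zero (algebraMap k Ω)).2 hsph)))

end Rl
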