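import Pool.Agent.Lib.MP_f80667_ag.Rl.Defs
import Pool.Agent.Lib.MP_f80667_ag.Rl.Ult
import Pool.Agent.Lib.MP_f80667_ag.Rl.Cyc

/-! Nearby real points of a closed subset are equivalent near a smooth point. -/

open scoped LinearAlgebra.Projectivization
open MvPolynomial Topology Filter

namespace Rl

open Ct ZC

universe u

section pair

variable {k : Type u} [Field k] (Ω : Type u) [Field Ω] [Algebra k Ω] {n r : ℕ}

theorem rel_pair_g [IsAlgClosure k Ω] (e : k ≃+* ℝ) {f : Fin r → MvPolynomial (Fin n) k}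
    {κ : Type} {G : κ → MvPolynomial (Fin n) k} (hG : ∀ i, ∃ d, (G i).IsHomogeneous d)
    {P Q u : Fin n → k} (hf : ∀ i, ∃ d, (f i).IsHomogeneous d)
    (H : Pair (fR e f) (fun j => e (P j)) (fun j => e (Q j)) (fun j => e (u j)))
    (hP : P ≠ 0) (hQ : Q ≠ 0) (hQG : Zer G k Q)
    (hloc : ∀ᶠ x in 𝓝 (fun j => e (P j)), ∀ y : Fin n → k, (fun j => e (y j)) = x →
      Zer f k y → Zer G k y) : pc Ω P hP - pc Ω Q hQ ∈ ratEq Ω G ⊔ normCyc Ω G := by
  classical
  have hch : CharZero k := charZero_of_injective_ringHom (f := e.symm.toRingHom) e.symm.injective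
  have hac : IsAlgClosed Ω := IsAlgClosure.isAlgClosed k
  have h2 : Module.finrank k Ω = 2 := finrank_two k Ω e
  have H' : Pair f P Q u := pair_of_real e hf H
  obtain ⟨t', b', ht0', ht', hb', hz'⟩ := exists_seq H.toFrame
  -- the points of the sequence near `P` are on `G = 0`
  have hlim : Tendsto (fun j => pt (fR e f) (fun j => e (P j)) (fun j => e (u j)) 1 (t' j) (b' j))
      atTop (𝓝 (fun j => e (P j))) := by
    rw [tendsto_pi_nhds]
    intro a
    have h3 : Tendsto (fun j => (1 : ℝ) * e (P a) + t' j * e (u a) +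
        ∑ i, b' j i * gr (fR e f) (fun j => e (P j)) i a) atTop
        (𝓝 ((1 : ℝ) * e (P a) + 0 * e (u a) +
          ∑ i, 0 * gr (fR e f) (fun j => e (P j)) i a)) := by
      refine (tendsto_const_nhds.add (ht'.mul_const _)).add
        (tendsto_finsetSum _ fun i _ => (hb' i).mul_const _)
    simp only [one_mul, zero_mul, Finset.sum_const_zero, add_zero] at h3
    simpa [pt] using h3
  obtain ⟨J, hJ⟩ := Filter.eventually_atTop.1 (hlim.eventually hloc)
  set t : ℕ → ℝ := fun j => t' (j + J) with htd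
  set b : ℕ → Fin r → ℝ := fun j => b' (j + J) with hbd
  have ht0 : ∀ j, t j ≠ 0 := fun j => ht0' _
  have ht : Tendsto t atTop (𝓝 0) := (tendsto_add_atTop_iff_nat J).2 ht'
  have hb : ∀ i, Tendsto (fun j => b j i) atTop (𝓝 0) := fun i =>
    (tendsto_add_atTop_iff_nat (f := fun j => b' j i) J).2 (hb' i)
  have hz : ∀ j, Zer (fR e f) ℝ (pt (fR e f) (fun j => e (P j)) (fun j => e (u j)) 1 (t j) (b j)) :=
    fun j => hz' _
  have hpt : ∀ j, pt (fR e f) (fun j => e (P j)) (fun j => e (u j)) 1 (t j) (b j) =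
      fun a => e (pt f P u 1 (e.symm (t j)) (fun i => e.symm (b j i)) a) := by
    intro j
    rw [← pt_fR]
    simp
  have hzf : ∀ j, Zer f k (pt f P u 1 (e.symm (t j)) (fun i => e.symm (b j i))) := by
    intro j
    rw [← zer_fR e, ← hpt]
    exact hz j
  have hzG : ∀ j, Zer G k (pt f P u 1 (e.symm (t j)) (fun i => e.symm (b j i))) := fun j =>
    hJ (j + J) (Nat.le_add_left _ _) _ (hpt j).symm (hzf j)
  obtain ⟨E, _, _, τ, β, w, hzall, hgen, hτ0, hτ, hβ⟩ := exists_place_g (P := P) (u := u) Ω e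
    (f := f) (fun j => e.symm (t j))
    (fun j i => e.symm (b j i)) (fun j => (map_ne_zero e.symm).2 (ht0 j)) (by simpa using ht)
    (by simpa using hb)
  have hzE := hzall _ f hzf
  have hzGE := hzall _ G hzG
  have hE : IsFunField k E := isFunField H'.toFrame hzE hgen w hτ0 hτ hβ
  obtain ⟨z, hz1, hz2, hz3⟩ := exists_cyc_g (Ω := Ω) H' hP hE hzE hzGE hgen w hτ hβ
  have hzc := Dz.ratEq_le_cyc0 hG hz1
  obtain ⟨hzc1, hzc2⟩ := AddSubgroup.mem_inf.1 hzc
  rw [AddMonoidHom.mem_ker] at hzc2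
  obtain ⟨S, hS1, hS2, hS3, hS4⟩ := real_part hG h2 hzc1
  rw [hzc2, zero_sub, even_neg] at hS4
  set p : ℙ k (Fin n → k) := Projectivization.mk k P hP with hp
  set q : ℙ k (Fin n → k) := Projectivization.mk k Q hQ with hq
  by_cases hpq : p = q
  · rw [pc, pc, ← hp, ← hq, hpq, sub_self]
    exact zero_mem _
  have hpr : ∀ x : ℙ k (Fin n → k), x ≠ p → ∀ c : k, x.rep ≠ c • P := by
    intro x hx c hc
    apply hx
    have hc0 : c ≠ 0 := by
      rintro rfl
      rw [zero_smul] at hc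
      exact x.rep_nonzero hc
    rw [← x.mk_rep, hp, Projectivization.mk_eq_mk_iff']
    exact ⟨c, hc.symm⟩
  have hqr : ∀ x : ℙ k (Fin n → k), x ≠ q → ∀ c : k, x.rep ≠ c • Q := by
    intro x hx c hc
    apply hx
    rw [← x.mk_rep, hq, Projectivization.mk_eq_mk_iff']
    exact ⟨c, hc.symm⟩
  -- the sum over the real points
  have hcyc : ∀ x ∈ S, x ≠ p → x ≠ q →
      Finsupp.single (mapPt (algebraMap k Ω) x) (z (mapPt (algebraMap k Ω) x)) ∈
        normCyc Ω G := by
    intro x hx hxp hxq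
    obtain ⟨m, hm⟩ := hz3 x (hpr x hxp) (hqr x hxq)
    have h3 := zsmul_mem (two_norm hG h2 x (hS2 x hx)) m
    rw [Finsupp.smul_single] at h3
    rw [hm]
    convert h3 using 2
    rw [smul_eq_mul]
    ring
  have hpS : p ∈ S := (hS1 p).2 (by rw [hz2]; exact one_ne_zero)
  have hPz : Zer G k p.rep := hS2 p hpS
  have hQz : Zer G k q.rep := ZCTr.zer_rep hG hQ hQG
  -- the multiplicity of `Q`
  set P' := mapPt (algebraMap k Ω) p with hP'
  set Q' := mapPt (algebraMap k Ω) q with hQ'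
  have hsum : ∑ x ∈ S.erase p, z (mapPt (algebraMap k Ω) x) + 1 =
      ∑ x ∈ S, z (mapPt (algebraMap k Ω) x) := by
    rw [← hz2]
    exact Finset.sum_erase_add S _ hpS
  have hodd : Odd (z Q') := by
    by_contra hcon
    rw [Int.not_odd_iff_even] at hcon
    have h3 : Even (∑ x ∈ S.erase p, z (mapPt (algebraMap k Ω) x)) := by
      refine Finset.even_sum _ fun x hx => ?_
      by_cases hxq : x = q
      · rw [hxq]
        exact hcon
      · exact hz3 x (hpr x (Finset.ne_of_mem_erase hx)) (hqr x hxq)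
    have h4 : Odd (∑ x ∈ S, z (mapPt (algebraMap k Ω) x)) := by
      rw [← hsum]
      exact h3.add_one
    exact (Int.not_odd_iff_even.2 hS4) h4
  have hqS : q ∈ S := (hS1 q).2 (by
    intro h0
    rw [← hQ'] at h0
    rw [h0] at hodd
    exact absurd hodd (by decide))
  have hqS' : q ∈ S.erase p := Finset.mem_erase.2 ⟨fun h => hpq h.symm, hqS⟩
  obtain ⟨m, hm⟩ := hodd
  -- everything else is a norm
  have h5 : ∑ x ∈ (S.erase p).erase q, Finsupp.single (mapPt (algebraMap k Ω) x)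
      (z (mapPt (algebraMap k Ω) x)) ∈ normCyc Ω G := by
    refine sum_mem fun x hx => ?_
    have hx1 := Finset.mem_of_mem_erase hx
    exact hcyc x (Finset.mem_of_mem_erase hx1) (Finset.ne_of_mem_erase hx1)
      (Finset.ne_of_mem_erase hx)
  have h6 : z - (Finsupp.single P' 1 + Finsupp.single Q' (2 * m + 1)) ∈ normCyc Ω G := by
    have h7 := add_mem hS3 h5
    convert h7 using 1
    rw [← Finset.sum_erase_add S _ hpS, ← Finset.sum_erase_add (S.erase p) _ hqS', ← hP', ← hQ',
      hz2, hm]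
    abel
  have h7 : Finsupp.single Q' (2 * (m + 1)) ∈ normCyc Ω G := by
    have h8 := zsmul_mem (two_norm hG h2 q hQz) (m + 1)
    rw [Finsupp.smul_single, smul_eq_mul, mul_comm] at h8
    exact h8
  have h8 : pc Ω P hP - pc Ω Q hQ = z - (z - (Finsupp.single P' 1 + Finsupp.single Q' (2 * m + 1)))
      - Finsupp.single Q' (2 * (m + 1)) := by
    have h9 : Finsupp.single Q' (2 * (m + 1)) =
        (Finsupp.single Q' (2 * m + 1) + Finsupp.single Q' 1 : ℙ Ω (Fin n → Ω) →₀ ℤ) := by
      rw [← Finsupp.single_add]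
      congr 1
      ring
    rw [h9, pc, pc, ← hp, ← hq, ← hP', ← hQ']
    abel
  rw [h8]
  exact sub_mem (sub_mem (AddSubgroup.mem_sup_left hz1) (AddSubgroup.mem_sup_right h6))
    (AddSubgroup.mem_sup_right h7)

end pair

theorem rel_near {K : Type} [Field K] (Ω : Type) [Field Ω] [Algebra K Ω] [IsAlgClosure K Ω]
    {n : ℕ} {κ : Type} [TopologicalSpace K] (e : K ≃+* ℝ) (he : Continuous e)
    {g : κ → MvPolynomial (Fin n) K} (hg : ∀ i, ∃ d, (g i).IsHomogeneous d)
    {P : Fin n → K} (hP : P ≠ 0) (hz : Zer g K P) (hs : SmAt g P) :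
    ∀ᶠ Q in 𝓝 P, Zer g K Q → ∀ hQ : Q ≠ 0,
      Ct.pc Ω P hP - Ct.pc Ω Q hQ ∈ ratEq Ω g ⊔ normCyc Ω g := by
  obtain ⟨c, f, s, hf, hsP, hJ, hfg⟩ := hs
  have hzf : Zer f K P := (hfg P hsP).2 hz
  have hf' : ∀ i, ∃ d, (fR e f i).IsHomogeneous d := by
    intro i
    obtain ⟨d, hd⟩ := hf i
    exact ⟨d, hd.map _⟩
  have hP' : (fun j => e (P j)) ≠ 0 := by
    obtain ⟨j, hj⟩ := Function.ne_iff.1 hP
    exact Function.ne_iff.2 ⟨j, (map_ne_zero e).2 hj⟩
  have hJ' : ∀ c' : Fin c → ℝ, (∀ j, ∑ i, c' i * gr (fR e f) (fun j => e (P j)) i j = 0) →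
      c' = 0 := by
    intro c' hc
    have h1 := hJ (fun i => e.symm (c' i)) (fun j => by
      apply e.injective
      rw [map_sum, map_zero, ← hc j]
      refine Finset.sum_congr rfl fun i _ => ?_
      rw [map_mul, RingEquiv.apply_symm_apply, gr_fR]
      rfl)
    funext i
    exact (map_eq_zero e.symm).1 (congrFun h1 i)
  have h := exists_pair (fR e f) hf' (fun j => e (P j)) hP' ((zer_fR e f P).2 hzf) hJ'
  have hcont : Continuous (fun (Q : Fin n → K) (j : Fin n) => e (Q j)) :=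
    continuous_pi fun j => he.comp (continuous_apply j)
  -- the polynomial `s`
  have hsne : ∀ᶠ x in 𝓝 (fun j => e (P j)), ∀ y : Fin n → K, (fun j => e (y j)) = x →
      aeval y s ≠ 0 := by
    have h1 : Continuous fun x : Fin n → ℝ => aeval x (s.map (e : K →+* ℝ)) := by
      simp only [aeval_def, Algebra.algebraMap_self]
      exact MvPolynomial.continuous_eval _
    have h2 : aeval (fun j => e (P j)) (s.map (e : K →+* ℝ)) ≠ 0 := by
      rw [aeval_fR]
      exact (map_ne_zero e).2 hsP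
    filter_upwards [h1.continuousAt.eventually_ne h2] with x hx y hy h0
    apply hx
    rw [← hy, aeval_fR, h0, map_zero]
  have hloc : ∀ᶠ x in 𝓝 (fun j => e (P j)), ∀ y : Fin n → K, (fun j => e (y j)) = x →
      Zer f K y → Zer g K y := by
    filter_upwards [hsne] with x hx y hy hfy
    exact (hfg y (hx y hy)).1 hfy
  filter_upwards [(hcont.tendsto P).eventually h, (hcont.tendsto P).eventually hsne] with Q hQ hsQ
    hzgQ hQ0
  have hzQ : Zer f K Q := (hfg Q (hsQ Q rfl)).2 hzgQ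
  rcases hQ ((zer_fR e f Q).2 hzQ) with ⟨c', hc⟩ | ⟨c', hc0, u, H⟩
  · have h1 : Q = e.symm c' • P := by
      funext j
      apply e.injective
      have h2 := congrFun hc j
      simp only [Pi.smul_apply, smul_eq_mul, map_mul, RingEquiv.apply_symm_apply] at h2 ⊢
      exact h2
    subst h1
    rw [pc_smul Ω P hP, sub_self]
    exact zero_mem _
  · have h1 : (c' • fun j => e (Q j)) = fun j => e ((e.symm c' • Q) j) := by
      funext j
      simp only [Pi.smul_apply, smul_eq_mul, map_mul, RingEquiv.apply_symm_apply]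
    have h2 : u = fun j => e (e.symm (u j)) := by
      funext j
      rw [RingEquiv.apply_symm_apply]
    rw [h1, h2] at H
    have hc1 : e.symm c' • Q ≠ 0 := smul_ne_zero ((map_ne_zero e.symm).2 hc0) hQ0
    have h3 := rel_pair_g Ω e (P := P) (Q := e.symm c' • Q) (u := fun j => e.symm (u j)) hg hf H
      hP hc1 (ZCTr.zer_smul hg _ hzgQ) hloc
    rwa [pc_smul Ω Q hQ0] at h3

end Rl
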