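import Mathlib

/-! A real quadric of positive dimension is connected. -/

namespace Rl

open Matrix

section

variable {n : ℕ} (q : Matrix (Fin n) (Fin n) ℝ)

/-- The polar form. -/
def plr (x y : Fin n → ℝ) : ℝ := x ⬝ᵥ q *ᵥ y + y ⬝ᵥ q *ᵥ x

theorem qd_three (x y z : Fin n → ℝ) (a b c : ℝ) :
    (a • x + b • y + c • z) ⬝ᵥ q *ᵥ (a • x + b • y + c • z) =
      a ^ 2 * (x ⬝ᵥ q *ᵥ x) + b ^ 2 * (y ⬝ᵥ q *ᵥ y) + c ^ 2 * (z ⬝ᵥ q *ᵥ z) +
      a * b * plr q x y + a * c * plr q x z + b * c * plr q y z := by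
  simp only [plr, mulVec_add, mulVec_smul, dotProduct_add, add_dotProduct, dotProduct_smul,
    smul_dotProduct, smul_eq_mul]
  ring

theorem plr_self (x : Fin n → ℝ) : plr q x x = 2 * (x ⬝ᵥ q *ᵥ x) := by
  rw [plr]
  ring

theorem plr_comm (x y : Fin n → ℝ) : plr q x y = plr q y x := add_comm _ _

theorem plr_three (x y z w : Fin n → ℝ) (a b c : ℝ) :
    plr q (a • x + b • y + c • z) w = a * plr q x w + b * plr q y w + c * plr q z w := by
  simp only [plr, mulVec_add, mulVec_smul, dotProduct_add, add_dotProduct, dotProduct_smul,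
    smul_dotProduct, smul_eq_mul]
  ring

/-- The set of matrices. -/
def zs : Set (Fin n → Fin n → ℝ) :=
  {y | ∃ x : Fin n → ℝ, x ≠ 0 ∧ x ⬝ᵥ q *ᵥ x = 0 ∧ y = fun i j => x i * x j}

/-- Joined inside the set. -/
def Jn (y y' : Fin n → Fin n → ℝ) : Prop :=
  ∃ t, t ⊆ zs q ∧ y ∈ t ∧ y' ∈ t ∧ IsPreconnected t

variable {q}

theorem Jn.trans {y y' y'' : Fin n → Fin n → ℝ} (h : Jn q y y') (h' : Jn q y' y'') :
    Jn q y y'' := by
  obtain ⟨t, ht, h1, h2, h3⟩ := h
  obtain ⟨t', ht', h1', h2', h3'⟩ := h'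
  exact ⟨t ∪ t', Set.union_subset ht ht', Or.inl h1, Or.inr h2', h3.union y' h2 h1' h3'⟩

theorem Jn.path (γ : ℝ → Fin n → ℝ) (hc : Continuous γ)
    (h : ∀ t ∈ Set.Icc (0 : ℝ) 1, γ t ≠ 0 ∧ γ t ⬝ᵥ q *ᵥ γ t = 0) :
    Jn q (fun i j => γ 0 i * γ 0 j) (fun i j => γ 1 i * γ 1 j) := by
  refine ⟨(fun t i j => γ t i * γ t j) '' Set.Icc 0 1, ?_, ⟨0, by simp, rfl⟩, ⟨1, by simp, rfl⟩,
    isPreconnected_Icc.image _ ?_⟩
  · rintro _ ⟨t, ht, rfl⟩
    exact ⟨γ t, (h t ht).1, (h t ht).2, rfl⟩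
  · apply Continuous.continuousOn
    fun_prop

/-- Orthogonal zeros are joined. -/
theorem Jn.orth {v w : Fin n → ℝ} (hv : v ≠ 0) (hw : w ≠ 0) (qv : v ⬝ᵥ q *ᵥ v = 0)
    (qw : w ⬝ᵥ q *ᵥ w = 0) (h : plr q v w = 0) :
    Jn q (fun i j => v i * v j) (fun i j => w i * w j) := by
  have hz : ∀ a b : ℝ, (a • v + b • w) ⬝ᵥ q *ᵥ (a • v + b • w) = 0 := by
    intro a b
    have h1 := qd_three q v w 0 a b 0
    rw [smul_zero, add_zero] at h1
    rw [h1, qv, qw, h]
    ring
  by_cases h1 : ∀ t ∈ Set.Icc (0 : ℝ) 1, (1 - t) • v + t • w ≠ 0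
  · have h2 := Jn.path (q := q) (fun t => (1 - t) • v + t • w) (by fun_prop)
      (fun t ht => ⟨h1 t ht, hz _ _⟩)
    simpa using h2
  · push Not at h1
    obtain ⟨t, ht, ht0⟩ := h1
    have h2 : ∀ s ∈ Set.Icc (0 : ℝ) 1, (1 - s) • v + (-s) • w ≠ 0 := by
      intro s hs hs0
      have h3 : ((1 - s) * t + (1 - t) * s) • w = 0 := by
        have : ((1 - s) * t + (1 - t) * s) • w = (1 - s) • ((1 - t) • v + t • w) -
            (1 - t) • ((1 - s) • v + (-s) • w) := by module
        rw [this, ht0, hs0, smul_zero, smul_zero, sub_zero]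
      have h4 : (1 - s) * t + (1 - t) * s = 0 := (smul_eq_zero.1 h3).resolve_right hw
      have h5 : 0 ≤ (1 - s) * t := mul_nonneg (sub_nonneg.2 hs.2) ht.1
      have h6 : 0 ≤ (1 - t) * s := mul_nonneg (sub_nonneg.2 ht.2) hs.1
      have h7 : (1 - s) * t = 0 := by linarith
      rcases mul_eq_zero.1 h7 with h8 | h8
      · rw [h8, zero_smul, zero_add] at hs0
        have h9 : s = 1 := by linarith
        rw [h9] at hs0
        have h10 : w = 0 := by simpa using hs0
        exact hw h10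
      · rw [h8] at ht0
        have h10 : v = 0 := by simpa using ht0
        exact hv h10
    have h3 := Jn.path (q := q) (fun t => (1 - t) • v + (-t) • w) (by fun_prop)
      (fun t ht => ⟨h2 t ht, hz _ _⟩)
    simpa using h3

end

theorem conn_quad {n : ℕ} (hn : 3 ≤ n) (q : Matrix (Fin n) (Fin n) ℝ) :
    IsPreconnected {y : Fin n → Fin n → ℝ | ∃ x : Fin n → ℝ, x ≠ 0 ∧ x ⬝ᵥ q *ᵥ x = 0 ∧
      y = fun i j => x i * x j} := by
  refine isPreconnected_of_forall_pair ?_
  rintro _ ⟨v, hv, qv, rfl⟩ _ ⟨w, hw, qw, rfl⟩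
  change Jn q (fun i j => v i * v j) (fun i j => w i * w j)
  by_cases hvw : plr q v w = 0
  · exact Jn.orth hv hw qv qw hvw
  let L : (Fin n → ℝ) →ₗ[ℝ] ℝ × ℝ :=
    { toFun := fun x => (plr q x v, plr q x w)
      map_add' := by
        intro x y
        have h1 : ∀ z, plr q (x + y) z = plr q x z + plr q y z := by
          intro z
          have := plr_three q x y 0 z 1 1 0
          simpa using this
        rw [h1, h1]
        rfl
      map_smul' := by
        intro c x
        have h1 : ∀ z, plr q (c • x) z = c * plr q x z := by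
          intro z
          have := plr_three q x 0 0 z c 0 0
          simpa using this
        rw [h1, h1]
        rfl }
  have hker : LinearMap.ker L ≠ ⊥ := by
    apply LinearMap.ker_ne_bot_of_finrank_lt
    simp
    omega
  obtain ⟨u, hu, hu0⟩ := Submodule.exists_mem_ne_zero_of_ne_bot hker
  rw [LinearMap.mem_ker] at hu
  have huv : plr q u v = 0 := congrArg Prod.fst hu
  have huw : plr q u w = 0 := congrArg Prod.snd hu
  by_cases hc : u ⬝ᵥ q *ᵥ u = 0
  · exact (Jn.orth hv hu0 qv hc (by rw [plr_comm, huv])).trans (Jn.orth hu0 hw hc qw huw)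
  set l : ℝ := -(u ⬝ᵥ q *ᵥ u) / plr q v w with hl
  have hl0 : l ≠ 0 := div_ne_zero (neg_ne_zero.2 hc) hvw
  have hlw : l * plr q v w = -(u ⬝ᵥ q *ᵥ u) := div_mul_cancel₀ _ hvw
  have h1 := Jn.path (q := q)
    (fun t => ((1 - t) ^ 2) • v + (t ^ 2 * l) • w + (t * (1 - t)) • u) (by fun_prop) (by
      intro t ht
      constructor
      · intro h0
        have h2 := plr_three q v w u w ((1 - t) ^ 2) (t ^ 2 * l) (t * (1 - t))
        rw [h0, plr_self, qw, huw] at h2
        have h3 : plr q 0 w = 0 := by simp [plr]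
        rw [h3] at h2
        have h4 : (1 - t) ^ 2 * plr q v w = 0 := by linarith
        have h5 : (1 - t) ^ 2 = 0 := (mul_eq_zero.1 h4).resolve_right hvw
        have h6 : 1 - t = 0 := by
          rcases pow_eq_zero_iff (two_ne_zero) |>.1 h5 with h
          exact h
        rw [h6] at h0
        have h7 : t = 1 := by linarith
        rw [h7] at h0
        have h8 : l • w = 0 := by simpa using h0
        exact hw ((smul_eq_zero.1 h8).resolve_left hl0)
      · rw [qd_three, qv, qw, plr_comm q v u, plr_comm q w u, huv, huw]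
        linear_combination (t ^ 2 * (1 - t) ^ 2) * hlw)
  have h2 : Jn q (fun i j => v i * v j) (fun i j => (l • w) i * (l • w) j) := by
    simpa using h1
  refine h2.trans (Jn.orth (smul_ne_zero hl0 hw) hw ?_ qw ?_)
  · have h3 := qd_three q w 0 0 l 0 0
    simpa [qw] using h3
  · have h3 := plr_three q w 0 0 w l 0 0
    simpa [plr_self, qw] using h3

end Rl
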