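import Pool.Agent.Lib.MP_f80667_ag.Rl.Fix
import Pool.Agent.Lib.MP_f80667_ag.Rl.Fib

/-! The push-forward modulo norms at a real place. -/

open scoped LinearAlgebra.Projectivization
open MvPolynomial

namespace Rl

open ZC

variable {K : Type} [Field K] {N n r : ℕ} {κ : Type} {h : κ → MvPolynomial (Fin N) K}
  {A : Fin r → Matrix (Fin n) (Fin n) (MvPolynomial (Fin N) K)}

/-- The kernel of the push-forward. -/
theorem ker_top (e : K ≃+* ℝ) (hh : ∀ j, ∃ d, (h j).IsHomogeneous d)
    (hA : ∀ i, ∃ e, ∀ a b, (A i a b).IsHomogeneous e)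
    (hsm : ∀ (w : Fin N → K) (x : Fin n → K), w ≠ 0 → x ≠ 0 → Zer2 h A K w x → SmAt2 h A w x)
    (hne : ∀ w : Fin N → K, w ≠ 0 → Zer h K w → ∃ x : Fin n → K, x ≠ 0 ∧ Zer2 h A K w x)
    (hcn : ∀ w : Fin N → K, w ≠ 0 → Zer h K w → ∀ x x' : Fin n → K, x ≠ 0 → x' ≠ 0 →
      Zer2 h A K w x → Zer2 h A K w x' → cl h A w x = cl h A w x')
    {z : Pt2 (AlgebraicClosure K) N n →₀ ℤ} (hz : z ∈ cyc2 (AlgebraicClosure K) h A)
    (hpf : pushW (AlgebraicClosure K) z ∈
      ratEq (AlgebraicClosure K) h ⊔ normCyc (AlgebraicClosure K) h) : z ∈ HH h A := by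
  classical
  have hch : CharZero K := charZero_of_injective_ringHom (f := e.symm.toRingHom) e.symm.injective
  have h2 : Module.finrank K (AlgebraicClosure K) = 2 := finrank_two K (AlgebraicClosure K) e
  obtain ⟨s, hs, hs'⟩ := Ct.exists_conj (k := K) (Ω := AlgebraicClosure K) h2
  have hss : s * s = 1 := by
    rcases hs' (s * s) with h | h
    · exact h
    · exact absurd (mul_eq_left.1 h) hs
  set τ : Pt2 (AlgebraicClosure K) N n → Pt2 (AlgebraicClosure K) N n :=
    mapPt2 (s : AlgebraicClosure K →+* AlgebraicClosure K) with hτ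
  set zr := z.filter (fun y => τ y = y) with hzr
  have h3 : z - zr ∈ nrm2 K h A := by
    refine fix_part τ (conj_conj hss) (nrm2 K h A)
      (fun y => Zer2 h A (AlgebraicClosure K) y.1.rep y.2.rep) ?_ _ z le_rfl hz.1 (hz.2 s)
    intro y hy
    exact AddSubgroup.subset_closure ⟨y, hy, (norm_eq2 h2 hs hs' y).symm⟩
  -- the real points
  have hreal : ∀ y ∈ zr.support, ∃ (w : Fin N → K) (hw : w ≠ 0) (x : Fin n → K) (hx : x ≠ 0),
      y = rp w hw x hx ∧ Zer2 h A K w x := by
    intro y hy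
    rw [hzr, Finsupp.support_filter, Finset.mem_filter] at hy
    obtain ⟨w, hw, x, hx, rfl⟩ := exists_rp h2 hs' y hy.2
    exact ⟨w, hw, x, hx, rfl, (zer_rp hh hA hw hx).1 (hz.1 _ hy.1)⟩
  -- the classes
  have hcls : ∀ c : (Pt2 (AlgebraicClosure K) N n →₀ ℤ) ⧸ HH h A,
      Even (∑ y ∈ zr.support with cp h A y = c, zr y) := by
    intro c
    have hUc := closed_UC e hh hA hsm {c}
    have hUc' := closed_UC e hh hA hsm {c}ᶜ
    have hcov : ∀ x : Fin N → K, x ≠ 0 → Zer h K x →
        nv e x ∈ UC h A e {c} ∪ UC h A e {c}ᶜ := by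
      intro w hw hzw
      obtain ⟨x, hx, hzx⟩ := hne w hw hzw
      by_cases hC : cl h A w x ∈ ({c} : Set ((Pt2 (AlgebraicClosure K) N n →₀ ℤ) ⧸ HH h A))
      · exact Or.inl (mem_UC e hh hA hw hx hzx hC)
      · exact Or.inr (mem_UC e hh hA hw hx hzx hC)
    have hpar : ∀ q ∈ ratEq (AlgebraicClosure K) h ⊔ normCyc (AlgebraicClosure K) h,
        cntU K e (UC h A e {c}) q = 0 := fun q hq =>
      parity e hh hUc hUc' (fun v hv => neg_UC e hh hA hv) (fun v hv => neg_UC e hh hA hv)
        (disj_UC hcn e {c}) hcov hq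
    have h4 : cntU K e (UC h A e {c}) (pushW (AlgebraicClosure K) zr) = 0 := by
      have h5 : pushW (AlgebraicClosure K) zr =
          pushW (AlgebraicClosure K) z - pushW (AlgebraicClosure K) (z - zr) := by
        rw [← map_sub]
        congr 1
        abel
      rw [h5, map_sub, hpar _ hpf, hpar _ (AddSubgroup.mem_sup_right (pushW_norm h3)), sub_zero]
    have h6 : pushW (AlgebraicClosure K) zr =
        ∑ y ∈ zr.support, Finsupp.single y.1 (zr y) := by
      conv_lhs => rw [← Finsupp.sum_single zr]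
      rw [Finsupp.sum, map_sum]
      simp only [pushW_single]
    rw [h6, map_sum] at h4
    have h7 : ∀ y ∈ zr.support, cntU K e (UC h A e {c}) (Finsupp.single y.1 (zr y)) =
        if cp h A y = c then ((zr y : ℤ) : ZMod 2) else 0 := by
      intro y hy
      obtain ⟨w, hw, x, hx, rfl, hzx⟩ := hreal y hy
      rw [cntU_single]
      refine if_congr ?_ rfl rfl
      change InC K e _ (mapPt (algebraMap K _) (Projectivization.mk K w hw)) ↔ _
      rw [inC_iff e (fun v hv => neg_UC e hh hA hv) hw, ← cl_eq hw hx]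
      constructor
      · intro h8
        exact of_mem_UC hcn e hh hA hw hx hzx h8
      · intro h8
        exact mem_UC e hh hA hw hx hzx h8
    rw [Finset.sum_congr rfl h7, ← Finset.sum_filter, ← Int.cast_sum] at h4
    exact (ZMod.intCast_eq_zero_iff_even).1 h4
  -- conclusion
  have h8 : (QuotientAddGroup.mk zr : (Pt2 (AlgebraicClosure K) N n →₀ ℤ) ⧸ HH h A) = 0 := by
    have h9 : (QuotientAddGroup.mk zr : (Pt2 (AlgebraicClosure K) N n →₀ ℤ) ⧸ HH h A) =
        ∑ y ∈ zr.support, zr y • cp h A y := by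
      conv_lhs => rw [← Finsupp.sum_single zr]
      rw [Finsupp.sum]
      change (QuotientAddGroup.mk' (HH h A)) (∑ y ∈ zr.support, Finsupp.single y (zr y)) = _
      rw [map_sum]
      refine Finset.sum_congr rfl fun y _ => ?_
      change _ = zr y • (QuotientAddGroup.mk' (HH h A)) (Finsupp.single y 1)
      rw [← map_zsmul, Finsupp.smul_single, smul_eq_mul, mul_one]
    rw [h9, ← Finset.sum_fiberwise_of_maps_to (s := zr.support) (t := zr.support.image (cp h A))
      (g := cp h A) (fun y hy => Finset.mem_image_of_mem _ hy)]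
    refine Finset.sum_eq_zero fun c hc => ?_
    obtain ⟨y₀, hy₀, rfl⟩ := Finset.mem_image.1 hc
    have h10 : ∑ y ∈ zr.support with cp h A y = cp h A y₀, zr y • cp h A y =
        (∑ y ∈ zr.support with cp h A y = cp h A y₀, zr y) • cp h A y₀ := by
      have h14 := map_sum (zmultiplesHom _ (cp h A y₀)) (fun y => zr y)
        (zr.support.filter fun y => cp h A y = cp h A y₀)
      simp only [zmultiplesHom_apply] at h14
      rw [h14]
      refine Finset.sum_congr rfl fun y hy => ?_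
      rw [(Finset.mem_filter.1 hy).2]
    rw [h10]
    obtain ⟨m, hm⟩ := hcls (cp h A y₀)
    have h11 : (2 : ℤ) • cp h A y₀ = 0 := by
      obtain ⟨w, hw, x, hx, rfl, hzx⟩ := hreal y₀ hy₀
      change (2 : ℤ) • (QuotientAddGroup.mk' (HH h A)) (Finsupp.single (rp w hw x hx) 1) = 0
      rw [← map_zsmul, Finsupp.smul_single, smul_eq_mul, mul_one]
      exact (QuotientAddGroup.eq_zero_iff _).2
        (AddSubgroup.mem_sup_right (two_rp hh hA h2 hw hx hzx))
    rw [hm, ← two_mul, mul_comm, mul_smul, h11, smul_zero]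
  have h12 := (QuotientAddGroup.eq_zero_iff _).1 h8
  have h13 : z = (z - zr) + zr := by abel
  rw [h13]
  exact add_mem (AddSubgroup.mem_sup_right h3) h12

/-- The push-forward is surjective modulo norms. -/
theorem sur_top (e : K ≃+* ℝ) (hh : ∀ j, ∃ d, (h j).IsHomogeneous d)
    (hA : ∀ i, ∃ e, ∀ a b, (A i a b).IsHomogeneous e)
    (hne : ∀ w : Fin N → K, w ≠ 0 → Zer h K w → ∃ x : Fin n → K, x ≠ 0 ∧ Zer2 h A K w x)
    {z : ℙ (AlgebraicClosure K) (Fin N → AlgebraicClosure K) →₀ ℤ} (hz : z ∈ D0 K h) :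
    ∃ y ∈ D02 K h A, pushW (AlgebraicClosure K) y - z ∈ normCyc (AlgebraicClosure K) h := by
  classical
  have hch : CharZero K := charZero_of_injective_ringHom (f := e.symm.toRingHom) e.symm.injective
  have h2 : Module.finrank K (AlgebraicClosure K) = 2 := finrank_two K (AlgebraicClosure K) e
  obtain ⟨hz1, hz2⟩ := AddSubgroup.mem_inf.1 hz
  rw [AddMonoidHom.mem_ker] at hz2
  obtain ⟨S, -, hSz, hSn, hSe⟩ := Ct.real_part hh h2 hz1
  have hlift : ∀ P : ℙ K (Fin N → K), P ∈ S → ∃ y : Pt2 (AlgebraicClosure K) N n,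
      y.1 = mapPt (algebraMap K (AlgebraicClosure K)) P ∧
      (∀ m : ℤ, Finsupp.single y m ∈ cyc2 (AlgebraicClosure K) h A) := by
    intro P hP
    obtain ⟨x, hx, hzx⟩ := hne P.rep P.rep_nonzero (hSz P hP)
    refine ⟨rp P.rep P.rep_nonzero x hx, ?_, fun m => rp_mem hh hA _ hx hzx m⟩
    rw [rp, P.mk_rep]
  choose y hy1 hy2 using hlift
  set a : ℙ K (Fin N → K) → ℤ := fun P => z (mapPt (algebraMap K (AlgebraicClosure K)) P) with ha
  set q : Pt2 (AlgebraicClosure K) N n →₀ ℤ :=
    ∑ P ∈ S.attach, Finsupp.single (y P.1 P.2) (a P.1) with hq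
  have hqc : q ∈ cyc2 (AlgebraicClosure K) h A := sum_mem fun P _ => hy2 P.1 P.2 _
  have hqp : pushW (AlgebraicClosure K) q =
      ∑ P ∈ S, Finsupp.single (mapPt (algebraMap K (AlgebraicClosure K)) P) (a P) := by
    rw [hq, map_sum, ← Finset.sum_attach S]
    refine Finset.sum_congr rfl fun P _ => ?_
    rw [pushW_single, hy1 P.1 P.2]
  have hqd : deg2 (AlgebraicClosure K) q = ∑ P ∈ S, a P := by
    rw [hq, map_sum, ← Finset.sum_attach S]
    refine Finset.sum_congr rfl fun P _ => ?_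
    simp [deg2]
  have hqn : pushW (AlgebraicClosure K) q - z ∈ normCyc (AlgebraicClosure K) h := by
    rw [hqp, ← neg_sub]
    exact neg_mem hSn
  have hev : Even (∑ P ∈ S, a P) := by
    rw [hz2, zero_sub] at hSe
    exact (_root_.even_neg (a := ∑ P ∈ S, a P)).1 hSe
  obtain ⟨m, hm⟩ := hev
  rcases S.eq_empty_or_nonempty with hS | ⟨P, hP⟩
  · refine ⟨q, AddSubgroup.mem_inf.2 ⟨hqc, ?_⟩, hqn⟩
    rw [AddMonoidHom.mem_ker, hqd, hS, Finset.sum_empty]
  · refine ⟨q - Finsupp.single (y P hP) (m + m), AddSubgroup.mem_inf.2 ⟨sub_mem hqc (hy2 P hP _), ?_⟩,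
      ?_⟩
    · rw [AddMonoidHom.mem_ker, map_sub, hqd, hm, deg2, Finsupp.liftAddHom_apply_single,
        AddMonoidHom.id_apply, sub_self]
    · rw [map_sub, pushW_single, hy1 P hP, sub_right_comm]
      refine sub_mem hqn ?_
      have h3 := Ct.two_norm hh h2 P (hSz P hP)
      have h4 : Finsupp.single (mapPt (algebraMap K (AlgebraicClosure K)) P) (m + m) =
          m • Finsupp.single (mapPt (algebraMap K (AlgebraicClosure K)) P) (2 : ℤ) := by
        rw [Finsupp.smul_single, smul_eq_mul, mul_two]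
      rw [h4]
      exact zsmul_mem h3 _

/-- The push-forward is bijective modulo norms over a field isomorphic to `ℝ` if the family is smooth
at its real points and its fibres over real points are connected and not empty. -/
theorem pfBijN (e : K ≃+* ℝ) (hh : ∀ j, ∃ d, (h j).IsHomogeneous d)
    (hA : ∀ i, ∃ e, ∀ a b, (A i a b).IsHomogeneous e)
    (hsm : ∀ (w : Fin N → K) (x : Fin n → K), w ≠ 0 → x ≠ 0 → Zer2 h A K w x → SmAt2 h A w x)
    (hne : ∀ w : Fin N → K, w ≠ 0 → Zer h K w → ∃ x : Fin n → K, x ≠ 0 ∧ Zer2 h A K w x)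
    (hcn : ∀ w : Fin N → K, w ≠ 0 → Zer h K w → IsPreconnected {y : Fin n → Fin n → ℝ |
      ∃ x : Fin n → K, x ≠ 0 ∧ Zer2 h A K w x ∧ y = fun i j => e (x i) * e (x j)}) :
    PfBijN K h A := by
  constructor
  · intro c
    obtain ⟨y, hy, hyn⟩ := sur_top e hh hA hne c.2
    refine ⟨⟨y, hy⟩, ?_⟩
    refine (QuotientAddGroup.eq_iff_sub_mem).2 ?_
    exact AddSubgroup.mem_sup_right hyn
  · intro c hc
    have h1 := (QuotientAddGroup.eq_zero_iff _).1 hc
    refine (QuotientAddGroup.eq_zero_iff _).2 ?_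
    refine ker_top e hh hA hsm hne ?_ (AddSubgroup.mem_inf.1 c.2).1 h1
    intro w hw hzw x x' hx hx' hz hz'
    exact fib_cl e hh hA hw (fun x hx hz => hsm w x hw hx hz) (hcn w hw hzw) hx hx' hz hz'

/-- For one quadratic form in `n ≥ 3` variables the fibres are connected. -/
theorem pfBijN_one (hn : 3 ≤ n) {A : Fin 1 → Matrix (Fin n) (Fin n) (MvPolynomial (Fin N) K)}
    (e : K ≃+* ℝ) (hh : ∀ j, ∃ d, (h j).IsHomogeneous d)
    (hA : ∀ i, ∃ e, ∀ a b, (A i a b).IsHomogeneous e)
    (hsm : ∀ (w : Fin N → K) (x : Fin n → K), w ≠ 0 → x ≠ 0 → Zer2 h A K w x → SmAt2 h A w x)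
    (hne : ∀ w : Fin N → K, w ≠ 0 → Zer h K w → ∃ x : Fin n → K, x ≠ 0 ∧ Zer2 h A K w x) :
    PfBijN K h A := by
  refine pfBijN e hh hA hsm hne fun w hw hzw => ?_
  have h1 := conn_quad hn ((A 0).map fun f => e (aeval w f))
  have h2 : {y : Fin n → Fin n → ℝ | ∃ x : Fin n → K, x ≠ 0 ∧ Zer2 h A K w x ∧
      y = fun i j => e (x i) * e (x j)} = {y : Fin n → Fin n → ℝ | ∃ x : Fin n → ℝ, x ≠ 0 ∧
      dotProduct x (((A 0).map fun f => e (aeval w f)).mulVec x) = 0 ∧
      y = fun i j => x i * x j} := by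
    have key : ∀ x : Fin n → K, Zer2 h A K w x ↔ dotProduct (fun i => e (x i))
        (((A 0).map fun f => e (aeval w f)).mulVec fun i => e (x i)) = 0 := by
      intro x
      have h3 : dotProduct (fun i => e (x i))
          (((A 0).map fun f => e (aeval w f)).mulVec fun i => e (x i)) =
          e (dotProduct x (((A 0).map (aeval w)).mulVec x)) := by
        simp only [dotProduct, Matrix.mulVec, map_sum, map_mul, Matrix.map_apply]
      rw [h3, map_eq_zero_iff e e.injective]
      constructor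
      · intro h4
        exact h4.2 0
      · intro h4
        refine ⟨hzw, fun i => ?_⟩
        rw [Fin.fin_one_eq_zero i]
        exact h4
    ext y
    constructor
    · rintro ⟨x, hx, hz, rfl⟩
      refine ⟨fun i => e (x i), comp_ne (e : K →+* ℝ) hx, (key x).1 hz, rfl⟩
    · rintro ⟨x, hx, hz, rfl⟩
      refine ⟨fun i => e.symm (x i), comp_ne (e.symm : ℝ →+* K) hx, ?_, ?_⟩
      · rw [key]
        simpa using hz
      · funext i j
        simp
  rw [h2]
  exact h1

end Rl
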