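import Pool.Agent.Lib.MP_f80667_ag.Rl.ParA

/-! The degree modulo `2` on a clopen subset of the real points. -/

open scoped LinearAlgebra.Projectivization
open MvPolynomial

namespace Rl

open ZC

/-- A polynomial which is close to `-1` on a compact set and to `1` on a disjoint compact set. -/
theorem exists_pol {σ : Type} [Finite σ] {A A' : Set (σ → ℝ)} (hA : IsCompact A)
    (hA' : IsCompact A') (hd : Disjoint A A') : ∃ F : MvPolynomial σ ℝ,
      (∀ y ∈ A, aeval y F < -(1 / 2) ∧ -2 ≤ aeval y F) ∧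
      (∀ y ∈ A', 1 / 2 < aeval y F ∧ aeval y F ≤ 2) := by
  obtain ⟨f, h0, h1, -⟩ := exists_continuous_zero_one_of_isClosed hA.isClosed hA'.isClosed hd
  let c : σ → C(σ → ℝ, ℝ) := fun i => ⟨fun y => y i, continuous_apply i⟩
  have hev : ∀ (F : MvPolynomial σ ℝ) (y : σ → ℝ), (aeval c F : C(σ → ℝ, ℝ)) y = aeval y F := by
    intro F y
    induction F using MvPolynomial.induction_on with
    | C a => simp
    | add p q hp hq => rw [map_add, ContinuousMap.add_apply, hp, hq, map_add]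
    | mul_X p i hp =>
      rw [map_mul, ContinuousMap.mul_apply, hp, map_mul, aeval_X, aeval_X]
      rfl
  have hsep : (aeval c : MvPolynomial σ ℝ →ₐ[ℝ] C(σ → ℝ, ℝ)).range.SeparatesPoints := by
    intro x y hxy
    obtain ⟨i, hi⟩ := Function.ne_iff.1 hxy
    refine ⟨_, ⟨c i, ⟨X i, aeval_X _ _⟩, rfl⟩, hi⟩
  obtain ⟨g, ⟨F, hF⟩, hg⟩ :=
    ContinuousMap.exists_mem_subalgebra_near_continuous_of_isCompact_of_separatesPoints hsep
      ((2 : ℝ) • f - 1) (hA.union hA') (ε := 1 / 4) (by norm_num)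
  have hgF : ∀ y, g y = aeval y F := by
    intro y
    rw [← hev, ← hF]
    rfl
  refine ⟨F, fun y hy => ?_, fun y hy => ?_⟩
  · have h2 := hg y (Or.inl hy)
    have h3 : f y = 0 := h0 hy
    rw [hgF, ContinuousMap.sub_apply, ContinuousMap.smul_apply, h3, Real.norm_eq_abs,
      abs_lt] at h2
    simp only [smul_zero, ContinuousMap.one_apply] at h2
    constructor <;> linarith [h2.1, h2.2]
  · have h2 := hg y (Or.inr hy)
    have h3 : f y = 1 := h1 hy
    rw [hgF, ContinuousMap.sub_apply, ContinuousMap.smul_apply, h3, Real.norm_eq_abs,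
      abs_lt] at h2
    simp only [smul_eq_mul, ContinuousMap.one_apply] at h2
    constructor <;> linarith [h2.1, h2.2]

/-- The matrix `v v^T` of a vector. -/
def mt {N : ℕ} {R : Type*} [Mul R] (v : Fin N → R) (c : Fin N × Fin N) : R := v c.1 * v c.2

theorem mt_inj {N : ℕ} {v v' : Fin N → ℝ} (hv : ∑ i, v i ^ 2 = 1) (h : mt v = mt v') :
    v' = v ∨ v' = -v := by
  have h0 : ∃ i, v i ≠ 0 := by
    by_contra hcon
    push Not at hcon
    simp [hcon] at hv
  obtain ⟨i, hi⟩ := h0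
  have h1 : ∀ j, v i * v j = v' i * v' j := fun j => congrFun h (i, j)
  have h2 : (v' i - v i) * (v' i + v i) = 0 := by
    have := h1 i
    linear_combination -this
  rcases mul_eq_zero.1 h2 with h3 | h3
  · left
    funext j
    have h4 : v' i = v i := by linarith
    have h5 := h1 j
    rw [h4] at h5
    exact (mul_left_cancel₀ hi h5).symm
  · right
    funext j
    have h4 : v' i = -v i := by linarith
    have h5 := h1 j
    rw [h4] at h5
    have h6 : v i * (v j + v' j) = 0 := by linear_combination h5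
    rcases mul_eq_zero.1 h6 with h7 | h7
    · exact absurd h7 hi
    · rw [Pi.neg_apply]
      linarith

/-- The separating polynomial for two symmetric closed sets. -/
theorem exists_sep {N : ℕ} {U U' : Set (Fin N → ℝ)} (hU : IsClosed U)
    (hU' : IsClosed U') (hs : ∀ v ∈ U, -v ∈ U) (hd : Disjoint U U') :
    ∃ F : MvPolynomial (Fin N × Fin N) ℝ,
      (∀ v ∈ U, ∑ i, v i ^ 2 = 1 → aeval (mt v) F < -(1 / 2) ∧ -2 ≤ aeval (mt v) F) ∧
      (∀ v ∈ U', ∑ i, v i ^ 2 = 1 → 1 / 2 < aeval (mt v) F ∧ aeval (mt v) F ≤ 2) := by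
  have hcm : Continuous (mt : (Fin N → ℝ) → Fin N × Fin N → ℝ) := by
    refine continuous_pi fun c => ?_
    exact (continuous_apply c.1).mul (continuous_apply c.2)
  have hcs : IsClosed {v : Fin N → ℝ | ∑ i, v i ^ 2 = 1} := by
    refine isClosed_eq ?_ continuous_const
    exact continuous_finsetSum _ fun i _ => (continuous_apply i).pow 2
  have hk : ∀ W : Set (Fin N → ℝ), IsClosed W →
      IsCompact (W ∩ {v : Fin N → ℝ | ∑ i, v i ^ 2 = 1}) := by
    intro W hW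
    refine (isCompact_Icc (a := fun _ : Fin N => (-1 : ℝ)) (b := fun _ => 1)).of_isClosed_subset
      (hW.inter hcs) ?_
    rintro v ⟨-, hv⟩
    have hv' : ∑ i, v i ^ 2 = 1 := hv
    have h1 : ∀ i, v i ^ 2 ≤ 1 := fun i => by
      rw [← hv']
      exact Finset.single_le_sum (f := fun i => v i ^ 2) (fun j _ => sq_nonneg _)
        (Finset.mem_univ i)
    exact ⟨fun i => (abs_le.1 ((sq_le_one_iff_abs_le_one _).1 (h1 i))).1,
      fun i => (abs_le.1 ((sq_le_one_iff_abs_le_one _).1 (h1 i))).2⟩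
  obtain ⟨F, h1, h2⟩ := exists_pol ((hk U hU).image hcm) ((hk U' hU').image hcm) (by
    rw [Set.disjoint_left]
    rintro _ ⟨v, ⟨hv, hv1⟩, rfl⟩ ⟨v', ⟨hv', hv1'⟩, hvv⟩
    rcases mt_inj hv1 hvv.symm with h | h
    · rw [h] at hv'
      exact Set.disjoint_left.1 hd hv hv'
    · rw [h] at hv'
      exact Set.disjoint_left.1 hd (hs v hv) hv')
  exact ⟨F, fun v hv hv1 => h1 _ ⟨v, ⟨hv, hv1⟩, rfl⟩, fun v hv hv1 => h2 _ ⟨v, ⟨hv, hv1⟩, rfl⟩⟩

section place

variable {K E Ω : Type} [Field K] [Field E] [Field Ω] [Algebra K E] [Algebra K Ω] {N : ℕ}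

theorem sq_ne (e : K ≃+* ℝ) {x : Fin N → K} (hx : x ≠ 0) : 0 < ∑ i, e (x i) ^ 2 := by
  obtain ⟨i, hi⟩ := Function.ne_iff.1 hx
  refine Finset.sum_pos' (fun j _ => sq_nonneg _) ⟨i, Finset.mem_univ i, ?_⟩
  exact sq_pos_of_ne_zero ((map_ne_zero e).2 hi)

theorem nv_unit (e : K ≃+* ℝ) {x : Fin N → K} (hx : x ≠ 0) : ∑ i, nv e x i ^ 2 = 1 := by
  have h := sq_ne e hx
  simp only [nv, div_pow, Real.sq_sqrt h.le]
  rw [← Finset.sum_div, div_self h.ne']

theorem mt_nv (e : K ≃+* ℝ) (x : Fin N → K) (c : Fin N × Fin N) :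
    mt (nv e x) c = e (x c.1 * x c.2 / ∑ i, x i ^ 2) := by
  have h : 0 ≤ ∑ i, e (x i) ^ 2 := Finset.sum_nonneg fun i _ => sq_nonneg _
  rw [mt, nv, nv, div_mul_div_comm, Real.mul_self_sqrt h, map_div₀, map_mul, map_sum]
  simp only [map_pow]

theorem nv_neg (e : K ≃+* ℝ) {x y : Fin N → K} {c : K} (hx : x ≠ 0) (hy : y = c • x)
    (hy0 : y ≠ 0) : nv e y = nv e x ∨ nv e y = -nv e x := by
  have h1 : mt (nv e x) = mt (nv e y) := by
    have hc : c ≠ 0 := by
      rintro rfl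
      exact hy0 (by rw [hy, zero_smul])
    have h2 : ∑ i, y i ^ 2 = c ^ 2 * ∑ i, x i ^ 2 := by
      rw [hy, Finset.mul_sum]
      exact Finset.sum_congr rfl fun i _ => by rw [Pi.smul_apply, smul_eq_mul, mul_pow]
    funext b
    rw [mt_nv, mt_nv, h2, hy, Pi.smul_apply, Pi.smul_apply, smul_eq_mul, smul_eq_mul,
      show c * x b.1 * (c * x b.2) = c ^ 2 * (x b.1 * x b.2) by ring,
      mul_div_mul_left _ _ (pow_ne_zero 2 hc)]
  exact mt_inj (nv_unit e hx) h1

theorem parR_inv {w : Place K E Ω} {a : E} {ρ : Ω} (h : Ct.ParR w a ρ) (hρ : ρ ≠ 0) :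
    Ct.ParR w a⁻¹ ρ⁻¹ := by
  have h1 : w.V.valuation a = 1 := h.val hρ
  have ha : a ≠ 0 := by
    rintro rfl
    rw [map_zero] at h1
    exact zero_ne_one h1
  have h2 : a⁻¹ ∈ w.V := by
    rw [← w.V.valuation_le_one_iff, map_inv₀, h1, inv_one]
  refine ⟨h2, ?_⟩
  obtain ⟨h3, rfl⟩ := h
  rw [← mul_left_inj' hρ, inv_mul_cancel₀ hρ, ← map_mul, ← map_one w.res]
  congr 1
  exact Subtype.ext (inv_mul_cancel₀ ha)

theorem parR_aeval {w : Place K E Ω} {σ : Type} {Y : σ → E} {y : σ → K}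
    (h : ∀ i, Ct.ParR w (Y i) (algebraMap K Ω (y i))) (G : MvPolynomial σ K) :
    Ct.ParR w (aeval Y G) (algebraMap K Ω (aeval y G)) := by
  induction G using MvPolynomial.induction_on with
  | C a =>
    rw [aeval_C, aeval_C]
    exact Ct.parR_k w a
  | add p q hp hq =>
    rw [map_add, map_add, map_add]
    exact hp.add hq
  | mul_X p i hp =>
    rw [map_mul, map_mul, map_mul, aeval_X, aeval_X]
    exact hp.mul (h i)

theorem e_aeval (e : K ≃+* ℝ) {σ : Type} (y : σ → K) (F : MvPolynomial σ ℝ) :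
    e (aeval y (F.map (e.symm : ℝ →+* K))) = aeval (fun i => e (y i)) F := by
  induction F using MvPolynomial.induction_on with
  | C a => simp
  | add p q hp hq => rw [map_add, map_add, map_add, hp, hq, map_add]
  | mul_X p i hp =>
    rw [map_mul, map_mul, map_mul, hp, map_X, aeval_X, map_mul, aeval_X]

/-- The value of a point at a real place. -/
theorem real_val (e : K ≃+* ℝ) {w : Place K E Ω} (hw : Re w) {p : Fin N → E}
    {y : ℙ Ω (Fin N → Ω)} (hy : w.IsVal p y) : ∃ (a : Fin N → K) (ha : a ≠ 0),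
      y = mapPt (algebraMap K Ω) (Projectivization.mk K a ha) ∧
      ∀ c : Fin N × Fin N, Ct.ParR w (p c.1 * p c.2 / ∑ i, p i ^ 2)
        (algebraMap K Ω (a c.1 * a c.2 / ∑ i, a i ^ 2)) := by
  obtain ⟨c, hc, h0, rfl⟩ := hy
  choose a ha using fun i => hw ⟨c * p i, hc i⟩
  have ha0 : a ≠ 0 := by
    rintro rfl
    apply h0
    funext i
    rw [ha i, Pi.zero_apply, map_zero]
    rfl
  refine ⟨a, ha0, ?_, ?_⟩
  · rw [ZCTr.mapPt_mk]
    simp only [ha]
  · have h1 : ∀ i, Ct.ParR w (c * p i) (algebraMap K Ω (a i)) := fun i => ⟨hc i, ha i⟩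
    have h2 : Ct.ParR w (∑ i, (c * p i) * (c * p i)) (∑ i, algebraMap K Ω (a i) *
        algebraMap K Ω (a i)) := Ct.ParR.sum _ fun i => (h1 i).mul (h1 i)
    have h3 : ∑ i, a i ^ 2 ≠ 0 := by
      intro h
      have h4 := sq_ne e ha0
      have h5 := congrArg e h
      rw [map_sum, map_zero] at h5
      simp only [map_pow] at h5
      exact h4.ne' h5
    have h4 : ∑ i, algebraMap K Ω (a i) * algebraMap K Ω (a i) =
        algebraMap K Ω (∑ i, a i ^ 2) := by
      rw [map_sum]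
      exact Finset.sum_congr rfl fun i _ => by rw [map_pow, sq]
    have hc0 : c ≠ 0 := by
      rintro rfl
      obtain ⟨i, hi⟩ := Function.ne_iff.1 ha0
      apply hi
      have h5 := (h1 i).eq (Ct.parR_k w (0 : K)) (by rw [zero_mul, map_zero])
      rw [map_zero, map_eq_zero] at h5
      exact h5
    intro b
    refine (((h1 b.1).mul (h1 b.2)).mul (parR_inv h2 ?_)).congr ?_ ?_
    · rw [h4]
      exact (map_ne_zero _).2 h3
    · have h6 : ∑ i, (c * p i) * (c * p i) = c ^ 2 * ∑ i, p i ^ 2 := by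
        rw [Finset.mul_sum]
        exact Finset.sum_congr rfl fun i _ => by ring
      rw [h6, ← div_eq_mul_inv, show c * p b.1 * (c * p b.2) = c ^ 2 * (p b.1 * p b.2) by ring,
        mul_div_mul_left _ _ (pow_ne_zero 2 hc0)]
    · rw [h4, map_div₀, map_mul, div_eq_mul_inv]

end place

section conj

variable {K E Ω : Type} [Field K] [Field E] [Field Ω] [Algebra K E] [Algebra K Ω] {N : ℕ}

theorem res_congr {w w' : Place K E Ω} (h : w = w') (x : E) (hx : x ∈ w.V) (hx' : x ∈ w'.V) :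
    w.res ⟨x, hx⟩ = w'.res ⟨x, hx'⟩ := by
  subst h
  rfl

theorem gal_gal {s : Ω ≃ₐ[K] Ω} (hs : s * s = 1) (w : Place K E Ω) : (w.gal s).gal s = w := by
  refine Place.ext' rfl fun x _ _ => ?_
  change (s * s) (w.res _) = _
  rw [hs]
  rfl

theorem re_gal {s : Ω ≃ₐ[K] Ω} {w : Place K E Ω} (h : Re (w.gal s)) : Re w := by
  intro a
  obtain ⟨b, hb⟩ := h a
  refine ⟨b, s.injective ?_⟩
  rw [s.commutes]
  exact hb

theorem re_of_gal [CharZero K] [IsAlgClosure K Ω] (h2 : Module.finrank K Ω = 2)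
    {s : Ω ≃ₐ[K] Ω} (hs' : ∀ t : Ω ≃ₐ[K] Ω, t = 1 ∨ t = s) {w : Place K E Ω}
    (h : w.gal s = w) : Re w := by
  have hfd : FiniteDimensional K Ω := Module.finite_of_finrank_pos (by omega)
  have hgal := Ct.isGalois (k := K) (Ω := Ω) h2
  intro a
  have h4 : w.res a ∈ (⊥ : IntermediateField K Ω) := by
    rw [IsGalois.mem_bot_iff_fixed]
    intro t
    rcases hs' t with h1 | h1
    · rw [h1]
      rfl
    · rw [h1]
      exact res_congr h a.1 a.2 a.2
  obtain ⟨b, hb⟩ := IntermediateField.mem_bot.1 h4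
  exact ⟨b, hb.symm⟩

end conj

section main

variable {K Ω : Type} [Field K] [CharZero K] [Field Ω] [Algebra K Ω] [IsAlgClosure K Ω]
  {N : ℕ}

/-- The real points in `U`. -/
def InC (K : Type) {Ω : Type} [Field K] [Field Ω] [Algebra K Ω] {N : ℕ} (e : K ≃+* ℝ)
    (U : Set (Fin N → ℝ)) (y : ℙ Ω (Fin N → Ω)) : Prop :=
  ∃ (x : Fin N → K) (hx : x ≠ 0), nv e x ∈ U ∧
    y = mapPt (algebraMap K Ω) (Projectivization.mk K x hx)

omit [CharZero K] [IsAlgClosure K Ω] in
open scoped Classical in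
theorem cntU_single (e : K ≃+* ℝ) (U : Set (Fin N → ℝ)) (y : ℙ Ω (Fin N → Ω)) (m : ℤ) :
    cntU K e U (Finsupp.single y m) = if InC K e U y then (m : ZMod 2) else 0 := by
  rw [cntU, Finsupp.liftAddHom_apply_single]
  by_cases h : InC K e U y
  · rw [if_pos h]
    have h' : ∃ (x : Fin N → K) (hx : x ≠ 0), nv e x ∈ U ∧
      y = mapPt (algebraMap K Ω) (Projectivization.mk K x hx) := h
    rw [if_pos h']
    rfl
  · rw [if_neg h]
    have h' : ¬ ∃ (x : Fin N → K) (hx : x ≠ 0), nv e x ∈ U ∧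
      y = mapPt (algebraMap K Ω) (Projectivization.mk K x hx) := h
    rw [if_neg h']
    rfl

omit [CharZero K] [IsAlgClosure K Ω] in
theorem inC_iff (e : K ≃+* ℝ) {U : Set (Fin N → ℝ)} (hs : ∀ v ∈ U, -v ∈ U) {a : Fin N → K}
    (ha : a ≠ 0) : InC K e U (mapPt (algebraMap K Ω) (Projectivization.mk K a ha)) ↔
      nv e a ∈ U := by
  constructor
  · rintro ⟨x, hx, hxU, h⟩
    have h1 := Ct.mapPt_inj _ h
    rw [Projectivization.mk_eq_mk_iff'] at h1
    obtain ⟨c, hc⟩ := h1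
    rcases nv_neg e hx hc.symm ha with h2 | h2
    · rw [h2]
      exact hxU
    · rw [h2]
      exact hs _ hxU
  · intro h
    exact ⟨a, ha, h, rfl⟩

omit [CharZero K] [IsAlgClosure K Ω] in
theorem inC_fix (e : K ≃+* ℝ) {U : Set (Fin N → ℝ)} {y : ℙ Ω (Fin N → Ω)}
    (h : InC K e U y) (s : Ω ≃ₐ[K] Ω) : mapPt (s : Ω →+* Ω) y = y := by
  obtain ⟨x, hx, -, rfl⟩ := h
  exact Ct.mapPt_alg s _

/-- The cycles which are norms. -/
theorem cnt_norm (e : K ≃+* ℝ) {κ : Type} (h : κ → MvPolynomial (Fin N) K)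
    (U : Set (Fin N → ℝ)) : normCyc Ω h ≤ (cntU (Ω := Ω) K e U).ker := by
  classical
  refine (AddSubgroup.closure_le _).2 ?_
  rintro z ⟨y, -, rfl⟩
  have h2 : Module.finrank K Ω = 2 := finrank_two K Ω e
  obtain ⟨s, hs, hs'⟩ := Ct.exists_conj (k := K) (Ω := Ω) h2
  have hss : s * s = 1 := by
    rcases hs' (s * s) with h | h
    · exact h
    · exact absurd (mul_eq_left.1 h) hs
  rw [SetLike.mem_coe, AddMonoidHom.mem_ker, Ct.norm_eq h2 hs hs', map_add, cntU_single,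
    cntU_single]
  have h3 : InC K e U (mapPt (s : Ω →+* Ω) y) ↔ InC K e U y := by
    constructor
    · intro h4
      have h5 := inC_fix e h4 s
      rw [ZCTr.mapPt_comp] at h5
      have h6 : (s : Ω →+* Ω).comp (s : Ω →+* Ω) = RingHom.id Ω := by
        ext a
        exact congrArg (fun t : Ω ≃ₐ[K] Ω => t a) hss
      rw [h6, ZCTr.mapPt_id] at h5
      rw [h5]
      exact h4
    · intro h4
      rw [inC_fix e h4 s]
      exact h4
  rw [if_congr h3 rfl rfl]
  exact CharTwo.add_self_eq_zero _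

/-- The cycles rationally equivalent to `0`. -/
theorem cnt_rat {κ : Type} (e : K ≃+* ℝ) {h : κ → MvPolynomial (Fin N) K}
    (hh : ∀ j, ∃ d, (h j).IsHomogeneous d) {U U' : Set (Fin N → ℝ)} (hU : IsClosed U)
    (hU' : IsClosed U') (hs : ∀ v ∈ U, -v ∈ U) (hd : Disjoint U U')
    (hc : ∀ x : Fin N → K, x ≠ 0 → Zer h K x → nv e x ∈ U ∪ U') :
    ratEq Ω h ≤ (cntU (Ω := Ω) K e U).ker := by
  classical
  refine (AddSubgroup.closure_le _).2 ?_
  rintro z ⟨E, _, _, hE, g, p, hg, hp, hz, S, m, x, h1, h2, rfl⟩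
  rw [SetLike.mem_coe, AddMonoidHom.mem_ker]
  have hr2 : Module.finrank K Ω = 2 := finrank_two K Ω e
  obtain ⟨s, hsne, hs'⟩ := Ct.exists_conj (k := K) (Ω := Ω) hr2
  have hss : s * s = 1 := by
    rcases hs' (s * s) with h | h
    · exact h
    · exact absurd (mul_eq_left.1 h) hsne
  obtain ⟨F, hF1, hF2⟩ := exists_sep hU hU' hs hd
  set ψ : E := aeval (fun c : Fin N × Fin N => p c.1 * p c.2 / ∑ i, p i ^ 2)
    (F.map (e.symm : ℝ →+* K)) with hψd
  -- the value at a real place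
  have hreal : ∀ w : Place K E Ω, Re w → ∀ y, w.IsVal p y → ∃ t : K,
      Ct.ParR w ψ (algebraMap K Ω t) ∧ ((InC K e U y ∧ e t < -(1 / 2) ∧ -2 ≤ e t) ∨
        (¬ InC K e U y ∧ 1 / 2 < e t ∧ e t ≤ 2)) := by
    intro w hw y hy
    obtain ⟨a, ha, hya, hpar⟩ := real_val e hw hy
    refine ⟨_, parR_aeval hpar (F.map (e.symm : ℝ →+* K)), ?_⟩
    rw [e_aeval]
    have h3 : (fun c : Fin N × Fin N => e (a c.1 * a c.2 / ∑ i, a i ^ 2)) = mt (nv e a) := by
      funext c
      rw [mt_nv]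
    have hzer : Zer h K a := by
      have h4 : Zer h Ω y.rep := w.zer hh hz hy
      rw [hya] at h4
      exact (zer_mk_iff hh a ha).1 (Ct.zer_of_mapPt hh _ h4)
    rw [h3, hya, inC_iff e hs ha]
    rcases hc a ha hzer with h5 | h5
    · exact Or.inl ⟨h5, hF1 _ h5 (nv_unit e ha)⟩
    · exact Or.inr ⟨fun h6 => Set.disjoint_left.1 hd h6 h5, hF2 _ h5 (nv_unit e ha)⟩
  have heven := even_neg (ψ := ψ) e hE hg (c := 1 / 2) (C := 2) (by norm_num) (by
    intro w hw
    obtain ⟨y, hy⟩ := w.exists_isVal hp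
    obtain ⟨t, ⟨ht1, ht2⟩, ht⟩ := hreal w hw y hy
    refine ⟨ht1, t, ht2, ?_⟩
    rcases ht with ⟨-, h3, h4⟩ | ⟨-, h3, h4⟩
    · rw [abs_of_neg (by linarith)]
      constructor <;> linarith
    · rw [abs_of_pos (by linarith)]
      constructor <;> linarith) S m h1 (fun w hw => (h2 w hw).1)
  have hng : ∀ w ∈ S, Re w → (InC K e U (x w) ↔ Ng e w ψ) := by
    intro w hwS hw
    obtain ⟨t, ⟨ht1, ht2⟩, ht⟩ := hreal w hw (x w) (h2 w hwS).2
    constructor
    · intro h3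
      rcases ht with ⟨-, h4, -⟩ | ⟨h4, -, -⟩
      · exact ⟨ht1, t, ht2, by linarith⟩
      · exact absurd h3 h4
    · rintro ⟨ht1', t', ht2', h3⟩
      have h4 : t' = t := (algebraMap K Ω).injective (ht2'.symm.trans ht2)
      rw [h4] at h3
      rcases ht with ⟨h5, -, -⟩ | ⟨-, h5, -⟩
      · exact h5
      · linarith
  rw [map_sum]
  simp only [cntU_single]
  have hsplit : ∀ w ∈ S, (if InC K e U (x w) then (m w : ZMod 2) else 0) =
      (if Re w ∧ Ng e w ψ then (m w : ZMod 2) else 0) +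
      (if ¬ Re w ∧ InC K e U (x w) ∧ m w ≠ 0 then (m w : ZMod 2) else 0) := by
    intro w hw
    by_cases hre : Re w
    · rw [if_congr (hng w hw hre) rfl rfl,
        if_neg (c := ¬ Re w ∧ InC K e U (x w) ∧ m w ≠ 0) (fun h3 => h3.1 hre), add_zero]
      exact if_congr ⟨fun h3 => ⟨hre, h3⟩, fun h3 => h3.2⟩ rfl rfl
    · rw [if_neg (c := Re w ∧ Ng e w ψ) (fun h3 => hre h3.1), zero_add]
      by_cases h4 : InC K e U (x w)
      · rw [if_pos h4]
        by_cases h5 : m w = 0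
        · rw [if_neg (c := ¬ Re w ∧ InC K e U (x w) ∧ m w ≠ 0) (fun h6 => h6.2.2 h5), h5,
            Int.cast_zero]
        · rw [if_pos ⟨hre, h4, h5⟩]
      · rw [if_neg h4,
          if_neg (c := ¬ Re w ∧ InC K e U (x w) ∧ m w ≠ 0) (fun h6 => h4 h6.2.1)]
  rw [Finset.sum_congr rfl hsplit, Finset.sum_add_distrib, ← Finset.sum_filter,
    ← Finset.sum_filter]
  have hfirst : ∑ w ∈ S.filter (fun w => Re w ∧ Ng e w ψ), (m w : ZMod 2) = 0 := by
    obtain ⟨b, hb⟩ := heven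
    have h3 := congrArg (Int.cast : ℤ → ZMod 2) hb
    rw [Int.cast_add, CharTwo.add_self_eq_zero, Int.cast_sum] at h3
    rw [← h3]
  rw [hfirst, zero_add]
  have hval : ∀ w ∈ S.filter (fun w => ¬ Re w ∧ InC K e U (x w) ∧ m w ≠ 0),
      w.gal s ∈ S ∧ m (w.gal s) = m w ∧ x (w.gal s) = x w := by
    intro w hw
    rw [Finset.mem_filter] at hw
    have h3 : w.gal s ∈ S := by
      by_contra hcon
      obtain ⟨hg1, hg2⟩ := h1 _ hcon
      exact hw.2.2.2 ((h2 w hw.1).1.eq_zero hg1 hg2)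
    refine ⟨h3, (h2 _ h3).1.unique (w.gal_V s) (h2 w hw.1).1, ?_⟩
    rw [(h2 _ h3).2.unique ((h2 w hw.1).2.gal s)]
    exact inC_fix e hw.2.2.1 s
  refine Finset.sum_involution (fun w _ => w.gal s) ?_ ?_ ?_ ?_
  · intro w hw
    rw [(hval w hw).2.1]
    exact CharTwo.add_self_eq_zero _
  · intro w hw _ h3
    rw [Finset.mem_filter] at hw
    exact hw.2.1 (re_of_gal hr2 hs' h3)
  · intro w hw
    obtain ⟨h3, h4, h5⟩ := hval w hw
    rw [Finset.mem_filter] at hw ⊢
    refine ⟨h3, fun h6 => hw.2.1 (re_gal h6), ?_, ?_⟩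
    · rw [h5]
      exact hw.2.2.1
    · rw [h4]
      exact hw.2.2.2
  · intro w _
    exact gal_gal hss w

end main

/-- A cycle which is rationally equivalent to a norm has even degree on every clopen set of real
points. -/
theorem parity {K Ω : Type} [Field K] [CharZero K] [Field Ω] [Algebra K Ω] [IsAlgClosure K Ω]
    {N : ℕ} {κ : Type} (e : K ≃+* ℝ) {h : κ → MvPolynomial (Fin N) K}
    (hh : ∀ j, ∃ d, (h j).IsHomogeneous d) {U U' : Set (Fin N → ℝ)} (hU : IsClosed U)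
    (hU' : IsClosed U') (hs : ∀ v ∈ U, -v ∈ U) (hs' : ∀ v ∈ U', -v ∈ U') (hd : Disjoint U U')
    (hc : ∀ x : Fin N → K, x ≠ 0 → Zer h K x → nv e x ∈ U ∪ U')
    {z : ℙ Ω (Fin N → Ω) →₀ ℤ} (hz : z ∈ ratEq Ω h ⊔ normCyc Ω h) : cntU K e U z = 0 := by
  have _ := hs'
  exact AddMonoidHom.mem_ker.1
    (sup_le (cnt_rat e hh hU hU' hs hd hc) (cnt_norm e h U) hz)

end Rl
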