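import Pool.Agent.Lib.MP_f80667_ag.Rl.SmSegA

/-! Smooth points of the family are smooth points of the Segre image. -/

open MvPolynomial

namespace Rl

open ZC

section aux

variable {K : Type} [Field K] {N n : ℕ}

/-- The coordinates in the column `a0` and the row `i0`. -/
def rh (i0 : Fin N) (a0 : Fin n) : Fin N ⊕ Fin n → Fin (N * n) :=
  Sum.elim (fun i => finProdFinEquiv (i, a0)) (fun a => finProdFinEquiv (i0, a))

/-- The minors with the pivot `(i0, a0)`. -/
noncomputable def mn (K : Type) [Field K] (i0 : Fin N) (a0 : Fin n) (p : Fin N × Fin n) :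
    MvPolynomial (Fin (N * n)) K :=
  X (finProdFinEquiv (p.1, p.2)) * X (finProdFinEquiv (i0, a0)) -
    X (finProdFinEquiv (p.1, a0)) * X (finProdFinEquiv (i0, p.2))

theorem snd_mn (i0 : Fin N) (a0 : Fin n) (p : Fin N × Fin n) (P v : Fin (N * n) → K) :
    (aeval (dpt P v) (mn K i0 a0 p)).snd =
      P (finProdFinEquiv (p.1, p.2)) * v (finProdFinEquiv (i0, a0)) +
      P (finProdFinEquiv (i0, a0)) * v (finProdFinEquiv (p.1, p.2)) -
      (P (finProdFinEquiv (p.1, a0)) * v (finProdFinEquiv (i0, p.2)) +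
      P (finProdFinEquiv (i0, p.2)) * v (finProdFinEquiv (p.1, a0))) := by
  simp only [mn, map_sub, map_mul, aeval_X, TrivSqZeroExt.snd_sub, TrivSqZeroExt.snd_mul, dpt_fst,
    dpt_snd, smul_eq_mul, MulOpposite.smul_eq_mul_unop, MulOpposite.unop_op]
  ring

theorem dpt_elim (W u : Fin N → K) (Y y : Fin n → K) :
    dpt (Sum.elim W Y) (Sum.elim u y) = Sum.elim (dpt W u) (dpt Y y) := by
  funext j
  rcases j with j | j <;> rfl

theorem fst_pow_one (t : K) (a : ℕ) :
    ((1 + TrivSqZeroExt.inr t : TrivSqZeroExt K K) ^ a).fst = 1 := by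
  rw [TrivSqZeroExt.fst_pow]
  simp

/-- A change of the direction by a multiple of the first vector. -/
theorem snd_euler {f : MvPolynomial (Fin N ⊕ Fin n) K} {a b : ℕ}
    (hf : ∀ m ∈ f.support, ∑ j, m (Sum.inl j) = a ∧ ∑ j, m (Sum.inr j) = b) (W u : Fin N → K)
    (Y y : Fin n → K) (t : K) (h0 : aeval (Sum.elim W Y) f = 0) :
    (aeval (dpt (Sum.elim W Y) (Sum.elim (u + t • W) y)) f).snd =
      (aeval (dpt (Sum.elim W Y) (Sum.elim u y)) f).snd := by
  have e1 : dpt (Sum.elim W Y) (Sum.elim (u + t • W) y) =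
      Sum.elim ((1 + TrivSqZeroExt.inr t : TrivSqZeroExt K K) • dpt W u)
        ((1 : TrivSqZeroExt K K) • dpt Y y) := by
    rw [dpt_elim, one_smul]
    congr 1
    funext j
    rw [Pi.smul_apply, smul_eq_mul]
    refine TrivSqZeroExt.ext ?_ ?_
    · rw [dpt_fst, TrivSqZeroExt.fst_mul, dpt_fst]
      simp
    · rw [dpt_snd, TrivSqZeroExt.snd_mul, dpt_fst, dpt_snd]
      simp
  rw [e1, bihom_smul hf, one_pow, mul_one, ← dpt_elim, TrivSqZeroExt.snd_mul, fst_pow_one,
    fst_aeval, h0]
  simp

/-- Scaling of the point and of the direction. -/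
theorem snd_scale {f : MvPolynomial (Fin N ⊕ Fin n) K} {a b : ℕ}
    (hf : ∀ m ∈ f.support, ∑ j, m (Sum.inl j) = a ∧ ∑ j, m (Sum.inr j) = b) (w u : Fin N → K)
    (x y : Fin n → K) (s t : K) :
    (aeval (dpt (Sum.elim (s • w) (t • x)) (Sum.elim (s • u) (t • y))) f).snd =
      s ^ a * t ^ b * (aeval (dpt (Sum.elim w x) (Sum.elim u y)) f).snd := by
  have e1 : dpt (Sum.elim (s • w) (t • x)) (Sum.elim (s • u) (t • y)) =
      Sum.elim ((TrivSqZeroExt.inl s : TrivSqZeroExt K K) • dpt w u)
        ((TrivSqZeroExt.inl t : TrivSqZeroExt K K) • dpt x y) := by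
    rw [dpt_elim]
    congr 1
    · funext j
      rw [Pi.smul_apply, smul_eq_mul]
      refine TrivSqZeroExt.ext ?_ ?_
      · rw [dpt_fst, TrivSqZeroExt.fst_mul, dpt_fst]
        simp
      · rw [dpt_snd, TrivSqZeroExt.snd_mul, dpt_fst, dpt_snd]
        simp
    · funext j
      rw [Pi.smul_apply, smul_eq_mul]
      refine TrivSqZeroExt.ext ?_ ?_
      · rw [dpt_fst, TrivSqZeroExt.fst_mul, dpt_fst]
        simp
      · rw [dpt_snd, TrivSqZeroExt.snd_mul, dpt_fst, dpt_snd]
        simp
  rw [e1, bihom_smul hf, ← dpt_elim, TrivSqZeroExt.inl_pow, TrivSqZeroExt.inl_pow,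
    ← TrivSqZeroExt.inl_mul, TrivSqZeroExt.snd_mul]
  simp

/-- The polynomial `s` at the scaled column and row. -/
theorem aeval_s (i0 : Fin N) (a0 : Fin n) (α β : K) (s : MvPolynomial (Fin N ⊕ Fin n) K)
    (z : Fin (N * n) → K) :
    aeval z (X (finProdFinEquiv (i0, a0)) *
      aeval (Sum.elim (fun i => C α * X (finProdFinEquiv (i, a0)))
        (fun a => C β * X (finProdFinEquiv (i0, a)))) s : MvPolynomial (Fin (N * n)) K) =
    z (finProdFinEquiv (i0, a0)) * aeval (Sum.elim (α • fun i => z (finProdFinEquiv (i, a0)))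
      (β • fun a => z (finProdFinEquiv (i0, a)))) s := by
  rw [map_mul, aeval_X, comp_aeval_apply]
  congr 3
  funext j
  rcases j with j | j
  · simp
  · simp

end aux

/-- Forms: the minors `z_ia z_(i0,a0) - z_(i,a0) z_(i0,a)` with `i ≠ i0`, `a ≠ a0` and the `f l` at
`w = (z_(i,a0))`, `x = (z_(i0,a))`; `s` is replaced by `z_(i0,a0) s`. -/
theorem smAt_sg {K : Type} [Field K] [CharZero K] {N n r : ℕ} {κ : Type}
    {h : κ → MvPolynomial (Fin N) K} {A : Fin r → Matrix (Fin n) (Fin n) (MvPolynomial (Fin N) K)}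
    (hh : ∀ j, ∃ d, (h j).IsHomogeneous d) (hA : ∀ i, ∃ e, ∀ a b, (A i a b).IsHomogeneous e)
    {w : Fin N → K} {x : Fin n → K} (hw : w ≠ 0) (hx : x ≠ 0) (hz : Zer2 h A K w x)
    (hs : SmAt2 h A w x) : SmAt (sgE h A) (sg w x) := by
  classical
  obtain ⟨c, f, s, hf, hs0, hgr, hloc⟩ := hs
  obtain ⟨i0, hi0⟩ : ∃ i, w i ≠ 0 := Function.ne_iff.1 hw
  obtain ⟨a0, ha0⟩ : ∃ a, x a ≠ 0 := Function.ne_iff.1 hx
  choose da db hd using hf
  -- the zeros of the forms in terms of the family
  have hfam : ∀ z : Fin (N * n) → K, aeval (Sum.elim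
      ((x a0)⁻¹ • fun i => z (finProdFinEquiv (i, a0)))
      ((w i0)⁻¹ • fun a => z (finProdFinEquiv (i0, a)))) s ≠ 0 →
      ((∀ l, aeval (Sum.elim (fun i => z (finProdFinEquiv (i, a0)))
        (fun a => z (finProdFinEquiv (i0, a)))) (f l) = 0) ↔
      Zer2 h A K (fun i => z (finProdFinEquiv (i, a0)))
        (fun a => z (finProdFinEquiv (i0, a)))) := by
    intro z hsz
    obtain ⟨W, hW⟩ : ∃ W : Fin N → K, W = fun i => z (finProdFinEquiv (i, a0)) := ⟨_, rfl⟩
    obtain ⟨Y, hY⟩ : ∃ Y : Fin n → K, Y = fun a => z (finProdFinEquiv (i0, a)) := ⟨_, rfl⟩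
    rw [← hW, ← hY] at hsz ⊢
    have e1 : (∀ l, aeval (Sum.elim ((x a0)⁻¹ • W) ((w i0)⁻¹ • Y)) (f l) = 0) ↔
        ∀ l, aeval (Sum.elim W Y) (f l) = 0 := by
      refine forall_congr' fun l => ?_
      rw [bihom_smul (hd l), mul_eq_zero_iff_left]
      exact mul_ne_zero (pow_ne_zero _ (inv_ne_zero ha0)) (pow_ne_zero _ (inv_ne_zero hi0))
    rw [← e1, hloc _ _ hsz]
    constructor
    · intro h1
      have h2 := h1.smul hh hA (x a0) (w i0)
      rwa [smul_smul, smul_smul, mul_inv_cancel₀ ha0, mul_inv_cancel₀ hi0, one_smul,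
        one_smul] at h2
    · intro h1
      exact h1.smul hh hA _ _
  refine smAt_of (ι := ({i : Fin N // i ≠ i0} × {a : Fin n // a ≠ a0}) ⊕ Fin c)
    (Sum.elim (fun p => mn K i0 a0 (p.1.1, p.2.1)) (fun l => rename (rh i0 a0) (f l)))
    (X (finProdFinEquiv (i0, a0)) *
      aeval (Sum.elim (fun i => C (x a0)⁻¹ * X (finProdFinEquiv (i, a0)))
        (fun a => C (w i0)⁻¹ * X (finProdFinEquiv (i0, a)))) s) ?_ ?_ ?_ ?_
  · rintro (p | l)
    · exact ⟨1 + 1, ((isHomogeneous_X K _).mul (isHomogeneous_X K _)).sub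
        ((isHomogeneous_X K _).mul (isHomogeneous_X K _))⟩
    · exact ⟨_, (bihom_hom (hd l)).rename_isHomogeneous⟩
  · rw [aeval_s]
    have e1 : ((x a0)⁻¹ • fun i => sg w x (finProdFinEquiv (i, a0))) = w := by
      funext i
      rw [Pi.smul_apply, sg_apply, smul_eq_mul]
      field_simp
    have e2 : ((w i0)⁻¹ • fun a => sg w x (finProdFinEquiv (i0, a))) = x := by
      funext a
      rw [Pi.smul_apply, sg_apply, smul_eq_mul]
      field_simp
    rw [e1, e2, sg_apply]
    exact mul_ne_zero (mul_ne_zero hi0 ha0) hs0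
  · intro b hb
    simp only [Fintype.sum_sum_type, Sum.elim_inl, Sum.elim_inr] at hb
    have hren : ∀ (v : Fin (N * n) → K) (l : Fin c),
        aeval (dpt (sg w x) v) (rename (rh i0 a0) (f l)) =
          aeval (dpt (Sum.elim (x a0 • w) (w i0 • x)) (v ∘ rh i0 a0)) (f l) := by
      intro v l
      rw [aeval_rename]
      congr 1
      congr 1
      funext j
      change dpt _ _ _ = _
      rcases j with j | j
      · simp only [dpt, rh, Sum.elim_inl, sg_apply, Function.comp_apply, Pi.smul_apply,
          smul_eq_mul, mul_comm (x a0)]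
      · simp only [dpt, rh, Sum.elim_inr, sg_apply, Function.comp_apply, Pi.smul_apply,
          smul_eq_mul]
    -- the minors
    have hb1 : ∀ p, b (Sum.inl p) = 0 := by
      intro p
      have h1 := hb (Pi.single (finProdFinEquiv (p.1.1, p.2.1)) 1)
      have hv0 : ∀ j : Fin N ⊕ Fin n, (Pi.single (finProdFinEquiv (p.1.1, p.2.1)) (1 : K) :
          Fin (N * n) → K) (rh i0 a0 j) = 0 := by
        intro j
        rw [Pi.single_apply, if_neg]
        intro h2
        rcases j with j | j
        · have := finProdFinEquiv.injective h2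
          exact p.2.2 (congrArg Prod.snd this).symm
        · have := finProdFinEquiv.injective h2
          exact p.1.2 (congrArg Prod.fst this).symm
      have h2 : ∀ l, (aeval (dpt (sg w x) (Pi.single (finProdFinEquiv (p.1.1, p.2.1)) 1))
          (rename (rh i0 a0) (f l))).snd = 0 := by
        intro l
        rw [hren, snd_aeval]
        refine Finset.sum_eq_zero fun j _ => ?_
        rw [Function.comp_apply, hv0, zero_mul]
      have h3 : ∀ q : {i : Fin N // i ≠ i0} × {a : Fin n // a ≠ a0},
          (aeval (dpt (sg w x) (Pi.single (finProdFinEquiv (p.1.1, p.2.1)) 1))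
            (mn K i0 a0 (q.1.1, q.2.1))).snd = if q = p then w i0 * x a0 else 0 := by
        intro q
        have k1 := hv0 (Sum.inl i0)
        have k2 := hv0 (Sum.inl q.1.1)
        have k3 := hv0 (Sum.inr q.2.1)
        simp only [rh, Sum.elim_inl, Sum.elim_inr] at k1 k2 k3
        rw [snd_mn]
        dsimp only
        rw [k1, k2, k3]
        simp only [sg_apply]
        by_cases hq : q = p
        · subst hq
          rw [Pi.single_eq_same, if_pos rfl]
          ring
        · rw [if_neg hq, Pi.single_apply, if_neg]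
          · ring
          · intro h4
            have h5 := finProdFinEquiv.injective h4
            exact hq (Prod.ext (Subtype.ext (congrArg Prod.fst h5))
              (Subtype.ext (congrArg Prod.snd h5)))
      simp only [h2, h3, mul_zero, Finset.sum_const_zero, add_zero, mul_ite] at h1
      rw [Finset.sum_ite_eq' Finset.univ p, if_pos (Finset.mem_univ p)] at h1
      exact (mul_eq_zero.1 h1).resolve_right (mul_ne_zero hi0 ha0)
    simp only [hb1, zero_mul, Finset.sum_const_zero, zero_add, hren] at hb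
    have hW0 : ∀ l, aeval (Sum.elim (x a0 • w) (w i0 • x)) (f l) = 0 := by
      intro l
      rw [bihom_smul (hd l), (hloc w x hs0).2 hz l, mul_zero]
    -- all directions
    have hb2 : ∀ (u : Fin N → K) (y : Fin n → K), ∑ l, b (Sum.inr l) *
        (aeval (dpt (Sum.elim (x a0 • w) (w i0 • x)) (Sum.elim u y)) (f l)).snd = 0 := by
      intro u y
      obtain ⟨t, ht⟩ : ∃ t : K, u i0 + t * (x a0 * w i0) = y a0 :=
        ⟨(y a0 - u i0) / (x a0 * w i0), by
          have := mul_ne_zero ha0 hi0
          field_simp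
          ring⟩
      have h1 := hb fun q => if (finProdFinEquiv.symm q).1 = i0 then y (finProdFinEquiv.symm q).2
        else (u + t • (x a0 • w)) (finProdFinEquiv.symm q).1
      have h2 : ((fun q => if (finProdFinEquiv.symm q).1 = i0 then y (finProdFinEquiv.symm q).2
          else (u + t • (x a0 • w)) (finProdFinEquiv.symm q).1) ∘ rh i0 a0 :
          Fin N ⊕ Fin n → K) = Sum.elim (u + t • (x a0 • w)) y := by
        funext j
        rcases j with j | j
        · simp only [Function.comp_apply, rh, Sum.elim_inl, Equiv.symm_apply_apply]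
          by_cases hj : j = i0
          · rw [if_pos hj, hj, ← ht]
            simp only [Pi.add_apply, Pi.smul_apply, smul_eq_mul]
          · rw [if_neg hj]
        · simp only [Function.comp_apply, rh, Sum.elim_inr, Equiv.symm_apply_apply, if_true]
      rw [h2] at h1
      rw [← h1]
      refine Finset.sum_congr rfl fun l _ => ?_
      rw [snd_euler (hd l) _ _ _ _ _ (hW0 l)]
    -- the original point
    have hb3 : (fun l => b (Sum.inr l) * (x a0 ^ da l * w i0 ^ db l)) = 0 := by
      refine hgr _ ?_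
      rw [grad_iff]
      intro v
      have e : v = Sum.elim (v ∘ Sum.inl) (v ∘ Sum.inr) := (Sum.elim_comp_inl_inr v).symm
      rw [← hb2 (x a0 • (v ∘ Sum.inl)) (w i0 • (v ∘ Sum.inr))]
      refine Finset.sum_congr rfl fun l _ => ?_
      rw [snd_scale (hd l), ← e]
      ring
    funext q
    rcases q with p | l
    · exact hb1 p
    · have h1 := congrFun hb3 l
      exact (mul_eq_zero.1 h1).resolve_right
        (mul_ne_zero (pow_ne_zero _ ha0) (pow_ne_zero _ hi0))
  · intro z hsz
    rw [aeval_s] at hsz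
    have hp0 : z (finProdFinEquiv (i0, a0)) ≠ 0 := left_ne_zero_of_mul hsz
    have hs1 := right_ne_zero_of_mul hsz
    have hcol : (fun i => z (finProdFinEquiv (i, a0))) ≠ 0 := fun h0 => hp0 (congrFun h0 i0)
    have hrow : (fun a => z (finProdFinEquiv (i0, a))) ≠ 0 := fun h0 => hp0 (congrFun h0 a0)
    have hren : ∀ l, aeval z (rename (rh i0 a0) (f l)) =
        aeval (Sum.elim (fun i => z (finProdFinEquiv (i, a0)))
          (fun a => z (finProdFinEquiv (i0, a)))) (f l) := by
      intro l
      rw [aeval_rename]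
      congr 1
      congr 1
      funext j
      rcases j with j | j <;> rfl
    have hmn : ∀ p : Fin N × Fin n, aeval z (mn K i0 a0 p) =
        z (finProdFinEquiv (p.1, p.2)) * z (finProdFinEquiv (i0, a0)) -
          z (finProdFinEquiv (p.1, a0)) * z (finProdFinEquiv (i0, p.2)) := by
      intro p
      simp only [mn, map_sub, map_mul, aeval_X]
    constructor
    · intro h1
      have h2 : ∀ (i : Fin N) (a : Fin n), z (finProdFinEquiv (i, a)) *
          z (finProdFinEquiv (i0, a0)) =
            z (finProdFinEquiv (i, a0)) * z (finProdFinEquiv (i0, a)) := by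
        intro i a
        by_cases hi : i = i0
        · rw [hi]
          ring
        · by_cases ha : a = a0
          · rw [ha]
          · have h3 := h1 (Sum.inl (⟨i, hi⟩, ⟨a, ha⟩))
            rw [Sum.elim_inl, hmn] at h3
            exact sub_eq_zero.1 h3
      have h3 : z = (z (finProdFinEquiv (i0, a0)))⁻¹ • sg
          (fun j => z (finProdFinEquiv (j, a0))) (fun b => z (finProdFinEquiv (i0, b))) := by
        funext q
        obtain ⟨⟨j, b⟩, rfl⟩ := finProdFinEquiv.surjective q
        rw [Pi.smul_apply, smul_eq_mul, sg_apply, ← h2]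
        field_simp
      have h4 := (hfam z hs1).1 fun l => by
        have := h1 (Sum.inr l)
        rwa [Sum.elim_inr, hren] at this
      rw [← zer_sg hh hA hcol hrow] at h4
      rw [h3]
      exact h4.smul (sgE_hom hh hA) _
    · intro h1
      have h3 := exists_sg h1 (i := i0) (a := a0) hp0
      have h4 : Zer (sgE h A) K (sg (fun j => z (finProdFinEquiv (j, a0)))
          (fun b => z (finProdFinEquiv (i0, b)))) := by
        have h5 : sg (fun j => z (finProdFinEquiv (j, a0))) (fun b => z (finProdFinEquiv (i0, b))) =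
            z (finProdFinEquiv (i0, a0)) • z := by
          conv_rhs => rw [h3]
          rw [smul_smul, ← h3, mul_inv_cancel₀ hp0, one_smul]
        rw [h5]
        exact h1.smul (sgE_hom hh hA) _
      rw [zer_sg hh hA hcol hrow] at h4
      rintro (p | l)
      · rw [Sum.elim_inl, hmn]
        have h5 := h1 (Sum.inl ((p.1.1, p.2.1), (i0, a0)))
        rw [aeval_mn] at h5
        exact h5
      · rw [Sum.elim_inr, hren]
        exact (hfam z hs1).2 h4 l

end Rl
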