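import Pool.Agent.Lib.MP_f80667_ag.Rl.Near
import Pool.Agent.Lib.MP_f80667_ag.Rl.SmSeg
import Pool.Agent.Lib.MP_f80667_ag.Rl.Par

/-! The classes of the real points of the family. -/

open scoped LinearAlgebra.Projectivization
open MvPolynomial Topology Filter

namespace Rl

open ZC

section cls

variable {K : Type} [Field K] {N n r : ℕ} {κ : Type} (h : κ → MvPolynomial (Fin N) K)
  (A : Fin r → Matrix (Fin n) (Fin n) (MvPolynomial (Fin N) K))

/-- The cycles rationally equivalent to norms. -/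
noncomputable def HH : AddSubgroup (Pt2 (AlgebraicClosure K) N n →₀ ℤ) :=
  ratEq2 (AlgebraicClosure K) h A ⊔ nrm2 K h A

variable {h A} in
/-- The point of the family over the algebraic closure given by a point over `K`. -/
noncomputable def rp (w : Fin N → K) (hw : w ≠ 0) (x : Fin n → K) (hx : x ≠ 0) :
    Pt2 (AlgebraicClosure K) N n :=
  (mapPt (algebraMap K _) (Projectivization.mk K w hw),
    mapPt (algebraMap K _) (Projectivization.mk K x hx))

/-- The class of a point. -/
noncomputable def cp (y : Pt2 (AlgebraicClosure K) N n) :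
    (Pt2 (AlgebraicClosure K) N n →₀ ℤ) ⧸ HH h A :=
  QuotientAddGroup.mk (Finsupp.single y 1)

open scoped Classical in
/-- The class of the point with coordinates `w` and `x`. -/
noncomputable def cl (w : Fin N → K) (x : Fin n → K) :
    (Pt2 (AlgebraicClosure K) N n →₀ ℤ) ⧸ HH h A :=
  if H : w ≠ 0 ∧ x ≠ 0 then cp h A (rp w H.1 x H.2) else 0

variable {h A}

theorem cl_eq {w : Fin N → K} (hw : w ≠ 0) {x : Fin n → K} (hx : x ≠ 0) :
    cl h A w x = cp h A (rp w hw x hx) := dif_pos ⟨hw, hx⟩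

theorem rp_congr {w w' : Fin N → K} {hw : w ≠ 0} {hw' : w' ≠ 0} {x x' : Fin n → K} {hx : x ≠ 0}
    {hx' : x' ≠ 0} {c d : K} (h1 : w' = c • w) (h2 : x' = d • x) :
    rp w' hw' x' hx' = rp w hw x hx := by
  have e1 : Projectivization.mk K w' hw' = Projectivization.mk K w hw := by
    rw [Projectivization.mk_eq_mk_iff']
    exact ⟨c, h1.symm⟩
  have e2 : Projectivization.mk K x' hx' = Projectivization.mk K x hx := by
    rw [Projectivization.mk_eq_mk_iff']
    exact ⟨d, h2.symm⟩
  rw [rp, rp, e1, e2]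

theorem cl_smul {c d : K} (hc : c ≠ 0) (hd : d ≠ 0) (w : Fin N → K) (x : Fin n → K) :
    cl h A (c • w) (d • x) = cl h A w x := by
  by_cases hw : w = 0
  · rw [hw, smul_zero, cl, cl, dif_neg, dif_neg] <;> simp
  by_cases hx : x = 0
  · rw [hx, smul_zero, cl, cl, dif_neg, dif_neg] <;> simp
  rw [cl_eq hw hx, cl_eq (smul_ne_zero hc hw) (smul_ne_zero hd hx), rp_congr rfl rfl]

/-- The classes of nearby points are equal. -/
theorem near_cl [TopologicalSpace K] (e : K ≃+* ℝ) (he : Continuous e)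
    (hh : ∀ j, ∃ d, (h j).IsHomogeneous d) (hA : ∀ i, ∃ e, ∀ a b, (A i a b).IsHomogeneous e)
    {w : Fin N → K} {x : Fin n → K} (hw : w ≠ 0) (hx : x ≠ 0) (hz : Zer2 h A K w x)
    (hs : SmAt2 h A w x) :
    ∀ᶠ Q in 𝓝 (sg w x), ∀ (w' : Fin N → K) (x' : Fin n → K), w' ≠ 0 → x' ≠ 0 →
      Zer2 h A K w' x' → Q = sg w' x' → cl h A w x = cl h A w' x' := by
  have hch : CharZero K := charZero_of_injective_ringHom (f := e.symm.toRingHom) e.symm.injective
  obtain ⟨Φ, h1, h2, h3⟩ := exists_Phi (h := h) (A := A) hh hA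
  have hpc : ∀ (w : Fin N → K) (hw : w ≠ 0) (x : Fin n → K) (hx : x ≠ 0),
      Φ (Ct.pc (AlgebraicClosure K) (sg w x) (sg_ne hw hx)) = Finsupp.single (rp w hw x hx) 1 := by
    intro w hw x hx
    have hw' := comp_ne (algebraMap K (AlgebraicClosure K)) hw
    have hx' := comp_ne (algebraMap K (AlgebraicClosure K)) hx
    have e1 : Ct.pc (AlgebraicClosure K) (sg w x) (sg_ne hw hx) =
        Finsupp.single (Projectivization.mk _ _ (sg_ne hw' hx')) 1 := by
      rw [Ct.pc, mapPt_mk]
      congr 2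
      funext p
      rw [sg, sg, map_mul]
    rw [e1, h1, rp, mapPt_mk, mapPt_mk]
  have hnear := rel_near (AlgebraicClosure K) e he (sgE_hom hh hA) (sg_ne hw hx)
    ((zer_sg hh hA hw hx).2 hz) (smAt_sg hh hA hw hx hz hs)
  filter_upwards [hnear] with Q hQ w' x' hw' hx' hz' hQe
  subst hQe
  have h4 := hQ ((zer_sg hh hA hw' hx').2 hz') (sg_ne hw' hx')
  rw [cl_eq hw hx, cl_eq hw' hx', cp, cp, QuotientAddGroup.eq_iff_sub_mem, ← hpc, ← hpc,
    ← map_sub]
  obtain ⟨a, ha, b, hb, hab⟩ := AddSubgroup.mem_sup.1 h4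
  rw [← hab, map_add]
  exact AddSubgroup.mem_sup.2 ⟨_, h2 a ha, _, h3 b hb, rfl⟩

/-- The topology of the real numbers. -/
theorem cont_symm {K : Type} [Field K] (e : K ≃+* ℝ) :
    @Continuous ℝ K _ (TopologicalSpace.induced e inferInstance) e.symm := by
  rw [continuous_induced_rng]
  have : (e : K → ℝ) ∘ (e.symm : ℝ → K) = id := by
    funext x
    simp
  rw [this]
  exact continuous_id

/-- The class is constant on connected fibres. -/
theorem fib_cl (e : K ≃+* ℝ) (hh : ∀ j, ∃ d, (h j).IsHomogeneous d)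
    (hA : ∀ i, ∃ e, ∀ a b, (A i a b).IsHomogeneous e) {w : Fin N → K} (hw : w ≠ 0)
    (hsm : ∀ x : Fin n → K, x ≠ 0 → Zer2 h A K w x → SmAt2 h A w x)
    (hcn : IsPreconnected {y : Fin n → Fin n → ℝ |
      ∃ x : Fin n → K, x ≠ 0 ∧ Zer2 h A K w x ∧ y = fun i j => e (x i) * e (x j)})
    {x x' : Fin n → K} (hx : x ≠ 0) (hx' : x' ≠ 0) (hz : Zer2 h A K w x)
    (hz' : Zer2 h A K w x') : cl h A w x = cl h A w x' := by
  let _ : TopologicalSpace K := TopologicalSpace.induced e inferInstance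
  have he : Continuous e := continuous_induced_dom
  have hes : Continuous e.symm := cont_symm e
  have loc : ∀ x₀ : Fin n → K, x₀ ≠ 0 → Zer2 h A K w x₀ →
      ∀ᶠ y in 𝓝 (fun i j => e (x₀ i) * e (x₀ j) : Fin n → Fin n → ℝ), ∀ x : Fin n → K, x ≠ 0 →
        Zer2 h A K w x → (y = fun i j => e (x i) * e (x j)) → cl h A w x₀ = cl h A w x := by
    intro x₀ hx₀ hz₀
    obtain ⟨j, hj⟩ := Function.ne_iff.1 hx₀
    have hj' : x₀ j ≠ 0 := hj
    have hz1 : Zer2 h A K w (x₀ j • x₀) := by
      have := hz₀.smul hh hA 1 (x₀ j)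
      rwa [one_smul] at this
    have hx1 : x₀ j • x₀ ≠ 0 := smul_ne_zero hj' hx₀
    have hn1 := near_cl e he hh hA hw hx1 hz1 (hsm _ hx1 hz1)
    have hGc : Continuous fun y : Fin n → Fin n → ℝ => sg w (fun b => e.symm (y j b)) := by
      refine continuous_pi fun c => ?_
      have : (fun y : Fin n → Fin n → ℝ => sg w (fun b => e.symm (y j b)) c) = fun y =>
          e.symm (e (w (finProdFinEquiv.symm c).1) * y j (finProdFinEquiv.symm c).2) := by
        funext y
        rw [sg, map_mul, e.symm_apply_apply]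
      rw [this]
      exact hes.comp (continuous_const.mul ((continuous_apply _).comp (continuous_apply j)))
    have hG : ∀ x : Fin n → K, sg w (fun b => e.symm (e (x j) * e (x b))) = sg w (x j • x) := by
      intro x
      congr 1
      funext b
      rw [← map_mul, e.symm_apply_apply]
      rfl
    have h0 := hGc.tendsto (fun i j => e (x₀ i) * e (x₀ j))
    rw [hG x₀] at h0
    have h1 := h0.eventually hn1
    have h2 : ∀ᶠ y in 𝓝 (fun i j => e (x₀ i) * e (x₀ j) : Fin n → Fin n → ℝ), y j j ≠ 0 := by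
      have hc : Continuous fun y : Fin n → Fin n → ℝ => y j j :=
        (continuous_apply j).comp (continuous_apply j)
      refine hc.continuousAt.eventually_ne ?_
      exact mul_ne_zero ((map_ne_zero e).2 hj') ((map_ne_zero e).2 hj')
    filter_upwards [h1, h2] with y hy hyj x hx hz hyx
    have hxj : x j ≠ 0 := by
      intro h3
      apply hyj
      rw [hyx]
      simp [h3]
    have hz2 : Zer2 h A K w (x j • x) := by
      have := hz.smul hh hA 1 (x j)
      rwa [one_smul] at this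
    have h4 := hy w (x j • x) hw (smul_ne_zero hxj hx) hz2 (by rw [hyx]; exact hG x)
    have h5 := cl_smul (h := h) (A := A) one_ne_zero hj' w x₀
    have h6 := cl_smul (h := h) (A := A) one_ne_zero hxj w x
    rw [one_smul] at h5 h6
    rw [← h5, h4, h6]
  have key := hcn.induction₂ (fun y y' => ∀ x x' : Fin n → K, x ≠ 0 → x' ≠ 0 → Zer2 h A K w x →
    Zer2 h A K w x' → (y = fun i j => e (x i) * e (x j)) → (y' = fun i j => e (x' i) * e (x' j)) →
    cl h A w x = cl h A w x') ?_ ?_ ?_ (x := fun i j => e (x i) * e (x j))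
    (y := fun i j => e (x' i) * e (x' j)) ⟨x, hx, hz, rfl⟩ ⟨x', hx', hz', rfl⟩
  · exact key x x' hx hx' hz hz' rfl rfl
  · rintro y ⟨x₀, hx₀, hz₀, rfl⟩
    refine (eventually_nhdsWithin_of_eventually_nhds (loc x₀ hx₀ hz₀)).mono ?_
    intro y hy x x' hx hx' hz hz' h1 h2
    rw [← (loc x₀ hx₀ hz₀).self_of_nhds x hx hz h1]
    exact hy x' hx' hz' h2
  · rintro a b c - ⟨y, hy, hyz, hby⟩ - h1 h2 x x' hx hx' hz hz' hax hcx
    exact (h1 x y hx hy hz hyz hax hby).trans (h2 y x' hy hx' hyz hz' hby hcx)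
  · intro a b _ _ h1 x x' hx hx' hz hz' hax hbx
    exact (h1 x' x hx' hx hz' hz hbx hax).symm

end cls

end Rl
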