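import Pool.Agent.Lib.MP_f80667_ag.Fa.Dfs
import Pool.Agent.Lib.MP_f80667_ag.Ct.Main

/-!
Real places of families of intersections of quadrics: definitions.

* `SmAt g P`: near `P` (outside of a hypersurface `s = 0`) the `K`-points of the closed subset `g = 0`
  are cut out by forms with linearly independent gradients at `P`.
* `BiHom f`: `f` is homogeneous in both sets of variables.
* `SmAt2 h A w x`: the same as `SmAt` for the family `X ⊆ W × P^(n-1)` at the point `(w, x)`.
* `sg w x`: the Segre map; `sgE h A`: the equations of the image of `X` under the Segre map.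
* `Re w`: the place `w` is real (its residues are in `K`).
* `Ng e w ψ`: the residue of `ψ` at `w` is in `K` and negative.
* `InU e U x`: the normalized vector of the point `x` over `K ≃ ℝ` is in `U`.
* `cntU e U z`: the degree modulo `2` of the part of `z` at the points of `U`.
-/

open scoped LinearAlgebra.Projectivization
open MvPolynomial

namespace Rl

open ZC

section smooth

variable {K : Type} [Field K] {N n r : ℕ} {κ : Type}

/-- Near `P` the `K`-points of `g = 0` are cut out by forms with independent gradients. -/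
def SmAt (g : κ → MvPolynomial (Fin n) K) (P : Fin n → K) : Prop :=
  ∃ (c : ℕ) (f : Fin c → MvPolynomial (Fin n) K) (s : MvPolynomial (Fin n) K),
    (∀ i, ∃ d, (f i).IsHomogeneous d) ∧ aeval P s ≠ 0 ∧
    (∀ b : Fin c → K, (∀ j, ∑ i, b i * aeval P (pderiv j (f i)) = 0) → b = 0) ∧
    ∀ x : Fin n → K, aeval x s ≠ 0 → (Zer f K x ↔ Zer g K x)

/-- Homogeneous in both sets of variables. -/
def BiHom (f : MvPolynomial (Fin N ⊕ Fin n) K) : Prop :=
  ∃ a b : ℕ, ∀ m ∈ f.support, ∑ j, m (Sum.inl j) = a ∧ ∑ j, m (Sum.inr j) = b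

/-- Near `(w, x)` the `K`-points of the family are cut out by bihomogeneous polynomials with
independent gradients. -/
def SmAt2 (h : κ → MvPolynomial (Fin N) K)
    (A : Fin r → Matrix (Fin n) (Fin n) (MvPolynomial (Fin N) K)) (w : Fin N → K)
    (x : Fin n → K) : Prop :=
  ∃ (c : ℕ) (f : Fin c → MvPolynomial (Fin N ⊕ Fin n) K) (s : MvPolynomial (Fin N ⊕ Fin n) K),
    (∀ i, BiHom (f i)) ∧ aeval (Sum.elim w x) s ≠ 0 ∧
    (∀ b : Fin c → K, (∀ j, ∑ i, b i * aeval (Sum.elim w x) (pderiv j (f i)) = 0) → b = 0) ∧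
    ∀ (w' : Fin N → K) (x' : Fin n → K), aeval (Sum.elim w' x') s ≠ 0 →
      ((∀ i, aeval (Sum.elim w' x') (f i) = 0) ↔ Zer2 h A K w' x')

end smooth

section segre

variable {K : Type} [Field K] {N n r : ℕ} {κ : Type}

/-- The Segre map. -/
def sg {R : Type*} [Mul R] (w : Fin N → R) (x : Fin n → R) : Fin (N * n) → R :=
  fun c => w (finProdFinEquiv.symm c).1 * x (finProdFinEquiv.symm c).2

/-- The equations of the image of the family under the Segre map. -/
noncomputable def sgE (h : κ → MvPolynomial (Fin N) K)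
    (A : Fin r → Matrix (Fin n) (Fin n) (MvPolynomial (Fin N) K)) :
    (((Fin N × Fin n) × (Fin N × Fin n)) ⊕ ((κ × Fin n) ⊕ (Fin r × (Fin N × Fin n)))) →
      MvPolynomial (Fin (N * n)) K :=
  Sum.elim
    (fun p => X (finProdFinEquiv (p.1.1, p.1.2)) * X (finProdFinEquiv (p.2.1, p.2.2)) -
      X (finProdFinEquiv (p.1.1, p.2.2)) * X (finProdFinEquiv (p.2.1, p.1.2)))
    (Sum.elim (fun p => rename (fun i => finProdFinEquiv (i, p.2)) (h p.1))
      (fun p => ∑ a, ∑ b, rename (fun i => finProdFinEquiv (i, p.2.2)) (A p.1 a b) *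
        X (finProdFinEquiv (p.2.1, a)) * X (finProdFinEquiv (p.2.1, b))))

end segre

section real

variable {K E Ω : Type} [Field K] [Field E] [Field Ω] [Algebra K E] [Algebra K Ω]

/-- The place is real: all residues are in `K`. -/
def Re (w : Place K E Ω) : Prop := ∀ a : w.V, ∃ b : K, w.res a = algebraMap K Ω b

/-- The residue of `ψ` is in `K` and negative. -/
def Ng (e : K ≃+* ℝ) (w : Place K E Ω) (ψ : E) : Prop :=
  ∃ (hψ : ψ ∈ w.V) (a : K), w.res ⟨ψ, hψ⟩ = algebraMap K Ω a ∧ e a < 0

variable {N : ℕ}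

/-- The normalized real vector of a point. -/
noncomputable def nv (e : K ≃+* ℝ) (x : Fin N → K) : Fin N → ℝ :=
  fun j => e (x j) / Real.sqrt (∑ i, e (x i) ^ 2)

variable (K) in
open scoped Classical in
/-- The degree modulo `2` of the part of `z` at the real points in `U`. -/
noncomputable def cntU (e : K ≃+* ℝ) (U : Set (Fin N → ℝ)) :
    (ℙ Ω (Fin N → Ω) →₀ ℤ) →+ ZMod 2 :=
  Finsupp.liftAddHom fun y =>
    if ∃ (x : Fin N → K) (hx : x ≠ 0), nv e x ∈ U ∧
      y = mapPt (algebraMap K Ω) (Projectivization.mk K x hx)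
    then (Int.castAddHom (ZMod 2)) else 0

end real

end Rl
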