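import Pool.Agent.Lib.MP_f80667_ag.Rl.Sph

/-! Zero-cycles of the family modulo norms. -/

open scoped LinearAlgebra.Projectivization
open MvPolynomial

namespace Rl

open ZC

/-- A function invariant under an involution is equal to its restriction to the fixed points modulo
the sums of pairs of conjugate points. -/
theorem fix_part {Y : Type*} (τ : Y → Y) (hτ : ∀ y, τ (τ y) = y) (H : AddSubgroup (Y →₀ ℤ))
    (P : Y → Prop) (hH : ∀ y, P y → Finsupp.single y 1 + Finsupp.single (τ y) 1 ∈ H)
    [DecidablePred fun y => τ y = y] (m : ℕ) (z : Y →₀ ℤ) (hm : z.support.card ≤ m)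
    (hP : ∀ y ∈ z.support, P y) (hz : ∀ y, z (τ y) = z y) :
    z - z.filter (fun y => τ y = y) ∈ H := by
  classical
  induction m generalizing z with
  | zero =>
    have h1 : z = 0 := by
      rw [← Finsupp.support_eq_empty, ← Finset.card_eq_zero]
      omega
    rw [h1, Finsupp.filter_zero, sub_zero]
    exact zero_mem _
  | succ m ih =>
    by_cases hex : ∃ y ∈ z.support, τ y ≠ y
    · obtain ⟨y, hy, hne⟩ := hex
      have hyz : z y ≠ 0 := Finsupp.mem_support_iff.1 hy
      set g : Y →₀ ℤ := Finsupp.single y 1 + Finsupp.single (τ y) 1 with hg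
      have hgy : g y = 1 := by
        rw [hg, Finsupp.add_apply, Finsupp.single_eq_same, Finsupp.single_apply, if_neg hne]
        norm_num
      have hg0 : ∀ x, z x = 0 → g x = 0 := by
        intro x hx
        rw [hg, Finsupp.add_apply, Finsupp.single_apply, Finsupp.single_apply, if_neg, if_neg]
        · norm_num
        · intro h
          rw [← h, hz] at hx
          exact hyz hx
        · intro h
          rw [← h] at hx
          exact hyz hx
      have hginv : ∀ x, g (τ x) = g x := by
        intro x
        have h5 : (y = τ x) ↔ (τ y = x) :=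
          ⟨fun h => by rw [h, hτ], fun h => by rw [← h, hτ]⟩
        have h6 : (τ y = τ x) ↔ (y = x) :=
          ⟨fun h => by rw [← hτ y, h, hτ], fun h => by rw [h]⟩
        rw [hg, Finsupp.add_apply, Finsupp.add_apply, Finsupp.single_apply, Finsupp.single_apply,
          Finsupp.single_apply, Finsupp.single_apply, if_congr h5 rfl rfl, if_congr h6 rfl rfl,
          add_comm]
      have hgf : g.filter (fun y => τ y = y) = 0 := by
        ext x
        rw [Finsupp.filter_apply, Finsupp.zero_apply]
        split_ifs with hx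
        · rw [hg, Finsupp.add_apply, Finsupp.single_apply, Finsupp.single_apply, if_neg, if_neg]
          · norm_num
          · intro h
            apply hne
            have h7 := hx
            rw [← h, hτ] at h7
            exact h7.symm
          · intro h
            apply hne
            rw [h]
            exact hx
        · rfl
      have h7 := ih (z - z y • g) ?_ ?_ ?_
      · have h8 : z - z.filter (fun y => τ y = y) =
            (z - z y • g - (z - z y • g).filter (fun y => τ y = y)) + z y • g := by
          rw [Finsupp.filter_sub, Finsupp.filter_smul, hgf, smul_zero, sub_zero]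
          abel
        rw [h8]
        exact add_mem h7 (zsmul_mem (hH y (hP y hy)) _)
      · have h9 : (z - z y • g).support ⊆ z.support.erase y := by
          intro x hx
          rw [Finsupp.mem_support_iff] at hx
          rw [Finset.mem_erase, Finsupp.mem_support_iff]
          constructor
          · rintro rfl
            apply hx
            rw [Finsupp.sub_apply, Finsupp.smul_apply, hgy]
            simp
          · intro h
            apply hx
            rw [Finsupp.sub_apply, Finsupp.smul_apply, hg0 x h, h]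
            simp
        have h10 := Finset.card_le_card h9
        rw [Finset.card_erase_of_mem hy] at h10
        omega
      · intro x hx
        refine hP x ?_
        rw [Finsupp.mem_support_iff] at hx ⊢
        intro h
        apply hx
        rw [Finsupp.sub_apply, Finsupp.smul_apply, hg0 x h, h]
        simp
      · intro x
        rw [Finsupp.sub_apply, Finsupp.smul_apply, Finsupp.sub_apply, Finsupp.smul_apply, hginv,
          hz]
    · push Not at hex
      have h1 : z.filter (fun y => τ y = y) = z := by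
        rw [Finsupp.filter_eq_self_iff]
        intro y hy
        exact hex y (Finsupp.mem_support_iff.2 hy)
      rw [h1, sub_self]
      exact zero_mem _

section

variable {K : Type} [Field K] {N n r : ℕ} {κ : Type} {h : κ → MvPolynomial (Fin N) K}
  {A : Fin r → Matrix (Fin n) (Fin n) (MvPolynomial (Fin N) K)}

theorem mapPt2_one (y : Pt2 (AlgebraicClosure K) N n) :
    mapPt2 ((1 : AlgebraicClosure K ≃ₐ[K] AlgebraicClosure K) :
      AlgebraicClosure K →+* AlgebraicClosure K) y = y := by
  have h3 : ((1 : AlgebraicClosure K ≃ₐ[K] AlgebraicClosure K) :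
      AlgebraicClosure K →+* AlgebraicClosure K) = RingHom.id (AlgebraicClosure K) := rfl
  rw [mapPt2, h3, mapPt_id, mapPt_id]

theorem norm_eq2 (h2 : Module.finrank K (AlgebraicClosure K) = 2)
    {s : AlgebraicClosure K ≃ₐ[K] AlgebraicClosure K} (hs : s ≠ 1)
    (hs' : ∀ t : AlgebraicClosure K ≃ₐ[K] AlgebraicClosure K, t = 1 ∨ t = s)
    (y : Pt2 (AlgebraicClosure K) N n) :
    ∑ᶠ σ : AlgebraicClosure K ≃ₐ[K] AlgebraicClosure K, Finsupp.single
      (mapPt2 (σ : AlgebraicClosure K →+* AlgebraicClosure K) y) (1 : ℤ) =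
      Finsupp.single y 1 +
        Finsupp.single (mapPt2 (s : AlgebraicClosure K →+* AlgebraicClosure K) y) 1 := by
  classical
  have hfd : FiniteDimensional K (AlgebraicClosure K) := Module.finite_of_finrank_pos (by omega)
  rw [finsum_eq_sum_of_fintype]
  have h1 : (Finset.univ : Finset (AlgebraicClosure K ≃ₐ[K] AlgebraicClosure K)) = {1, s} := by
    ext t
    simpa using hs' t
  rw [h1, Finset.sum_insert (by simpa using hs.symm), Finset.sum_singleton, mapPt2_one]

theorem conj_conj {s : AlgebraicClosure K ≃ₐ[K] AlgebraicClosure K} (hss : s * s = 1)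
    (y : Pt2 (AlgebraicClosure K) N n) :
    mapPt2 (s : AlgebraicClosure K →+* AlgebraicClosure K)
      (mapPt2 (s : AlgebraicClosure K →+* AlgebraicClosure K) y) = y := by
  have h4 : (s : AlgebraicClosure K →+* AlgebraicClosure K).comp
      (s : AlgebraicClosure K →+* AlgebraicClosure K) = RingHom.id _ := by
    ext a
    exact congrArg (fun t : AlgebraicClosure K ≃ₐ[K] AlgebraicClosure K => t a) hss
  rw [mapPt2, mapPt2]
  dsimp only
  rw [mapPt_comp, mapPt_comp, h4, mapPt_id, mapPt_id]

theorem mapPt2_rp (t : AlgebraicClosure K ≃ₐ[K] AlgebraicClosure K) {w : Fin N → K} (hw : w ≠ 0)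
    {x : Fin n → K} (hx : x ≠ 0) :
    mapPt2 (t : AlgebraicClosure K →+* AlgebraicClosure K) (rp w hw x hx) = rp w hw x hx := by
  rw [rp, mapPt2]
  dsimp only
  rw [Ct.mapPt_alg, Ct.mapPt_alg]

theorem exists_rp [CharZero K] (h2 : Module.finrank K (AlgebraicClosure K) = 2)
    {s : AlgebraicClosure K ≃ₐ[K] AlgebraicClosure K}
    (hs' : ∀ t : AlgebraicClosure K ≃ₐ[K] AlgebraicClosure K, t = 1 ∨ t = s)
    (y : Pt2 (AlgebraicClosure K) N n)
    (hy : mapPt2 (s : AlgebraicClosure K →+* AlgebraicClosure K) y = y) :
    ∃ (w : Fin N → K) (hw : w ≠ 0) (x : Fin n → K) (hx : x ≠ 0), y = rp w hw x hx := by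
  obtain ⟨P, hP⟩ := Ct.fix_real h2 hs' y.1 (congrArg Prod.fst hy)
  obtain ⟨Q, hQ⟩ := Ct.fix_real h2 hs' y.2 (congrArg Prod.snd hy)
  refine ⟨P.rep, P.rep_nonzero, Q.rep, Q.rep_nonzero, ?_⟩
  rw [rp, P.mk_rep, Q.mk_rep, hP, hQ]

theorem zer_rp (hh : ∀ j, ∃ d, (h j).IsHomogeneous d)
    (hA : ∀ i, ∃ e, ∀ a b, (A i a b).IsHomogeneous e) {w : Fin N → K} (hw : w ≠ 0)
    {x : Fin n → K} (hx : x ≠ 0) :
    Zer2 h A (AlgebraicClosure K) (rp w hw x hx).1.rep (rp w hw x hx).2.rep ↔ Zer2 h A K w x := by
  rw [← zer2_mk_iff hh hA w hw x hx]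
  exact zer2_mapPt_iff hh hA (Algebra.ofId K (AlgebraicClosure K))
    (Projectivization.mk K w hw, Projectivization.mk K x hx)

/-- A real point is the cycle of the family. -/
theorem rp_mem (hh : ∀ j, ∃ d, (h j).IsHomogeneous d)
    (hA : ∀ i, ∃ e, ∀ a b, (A i a b).IsHomogeneous e) {w : Fin N → K} (hw : w ≠ 0)
    {x : Fin n → K} (hx : x ≠ 0) (hz : Zer2 h A K w x) (m : ℤ) :
    Finsupp.single (rp w hw x hx) m ∈ cyc2 (AlgebraicClosure K) h A := by
  classical
  refine ⟨fun y hy => ?_, fun σ y => ?_⟩
  · have h1 : y = rp w hw x hx := by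
      have := Finsupp.support_single_subset hy
      simpa using this
    rw [h1]
    exact (zer_rp hh hA hw hx).2 hz
  · rw [Finsupp.single_apply, Finsupp.single_apply]
    refine if_congr ?_ rfl rfl
    constructor
    · intro h1
      have h2 := congrArg (mapPt2 (σ.symm : AlgebraicClosure K →+* AlgebraicClosure K)) h1
      rw [mapPt2_rp] at h2
      rw [h2]
      exact (perm2 σ).left_inv y
    · rintro rfl
      rw [mapPt2_rp]

/-- Twice a real point is a norm. -/
theorem two_rp [CharZero K] (hh : ∀ j, ∃ d, (h j).IsHomogeneous d)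
    (hA : ∀ i, ∃ e, ∀ a b, (A i a b).IsHomogeneous e)
    (h2 : Module.finrank K (AlgebraicClosure K) = 2) {w : Fin N → K} (hw : w ≠ 0)
    {x : Fin n → K} (hx : x ≠ 0) (hz : Zer2 h A K w x) :
    Finsupp.single (rp w hw x hx) 2 ∈ nrm2 K h A := by
  obtain ⟨s, hs, hs'⟩ := Ct.exists_conj (k := K) (Ω := AlgebraicClosure K) h2
  refine AddSubgroup.subset_closure ⟨rp w hw x hx, (zer_rp hh hA hw hx).2 hz, ?_⟩
  rw [norm_eq2 h2 hs hs', mapPt2_rp, ← Finsupp.single_add]
  norm_num

end

end Rl
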