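import Pool.Agent.Lib.MP_f80667_ag.Rl.ParA0

/-! The norm of an element of a finite extension `B` of `K[X]` and the rational points of `B` over
the negative half line. -/

open Polynomial UniqueFactorizationMonoid

namespace Rl

variable {K : Type} [Field K] (e : K ≃+* ℝ) {R B : Type} [CommRing R] [CommRing B] [Algebra K R]
  [Algebra K B] [Algebra R B] [IsScalarTower K R B] (ε : K[X] ≃ₐ[K] R)

/-- The kernel of a rational point over the negative half line. -/
def paRN (P : Ideal B) : Prop :=
  ∃ χ : B →ₐ[K] K, RingHom.ker χ = P ∧ e (χ (algebraMap R B (ε X))) < 0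

/-- The restriction of a point to the line. -/
theorem pa_pt_eval (χ : B →ₐ[K] K) (f : K[X]) :
    χ (algebraMap R B (ε f)) = f.eval (χ (algebraMap R B (ε X))) := by
  let ψ : K[X] →ₐ[K] K := (χ.comp (IsScalarTower.toAlgHom K R B)).comp (ε : K[X] →ₐ[K] R)
  have h1 : ∀ f, ψ f = χ (algebraMap R B (ε f)) := fun f => rfl
  have h2 : ψ = aeval (ψ X) := Polynomial.algHom_ext (by rw [aeval_X])
  rw [← h1, ← h1, h2, aeval_X, coe_aeval_eq_eval]

/-- The prime factors of the norm of a prime. -/
theorem pa_prime_case [Module.Finite R B] {P : Ideal B} (hP : P.IsMaximal) {π : K[X]}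
    (hπ : P.under R = Ideal.span {ε π}) (hp0 : P.under R ≠ ⊥) (hp : (P.under R).IsMaximal) :
    (paRN e ε P → P.inertiaDeg R = 1 ∧ pa_nr e π = 1) ∧
      (¬ paRN e ε P → pa_nr e π = 0 ∨ P.inertiaDeg R = 2) := by
  have hπ0 : π ≠ 0 := by
    rintro rfl
    apply hp0
    rw [hπ, map_zero]
    exact Ideal.span_singleton_eq_bot.2 rfl
  let F1 : Field (R ⧸ P.under R) := Ideal.Quotient.field _
  let F2 : Field (B ⧸ P) := Ideal.Quotient.field _
  have hR : Algebra.FiniteType K R := Algebra.FiniteType.of_surjective (ε : K[X] →ₐ[K] R) ε.surjective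
  have hB : Algebra.FiniteType K B := Algebra.FiniteType.trans hR inferInstance
  have hRP : Algebra.FiniteType K (R ⧸ P.under R) :=
    Algebra.FiniteType.of_surjective (Ideal.Quotient.mkₐ K (P.under R))
      (Ideal.Quotient.mkₐ_surjective K _)
  have hBP : Algebra.FiniteType K (B ⧸ P) :=
    Algebra.FiniteType.of_surjective (Ideal.Quotient.mkₐ K P) (Ideal.Quotient.mkₐ_surjective K _)
  have f1 : Module.Finite K (R ⧸ P.under R) := finite_of_finite_type_of_isJacobsonRing K _
  have f2 : Module.Finite K (B ⧸ P) := finite_of_finite_type_of_isJacobsonRing K _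
  have hs1 : IsScalarTower K (R ⧸ P.under R) (B ⧸ P) := IsScalarTower.of_algebraMap_eq fun a => by
    change Ideal.Quotient.mk P (algebraMap K B a) =
      Ideal.Quotient.mk P (algebraMap R B (algebraMap K R a))
    rw [← IsScalarTower.algebraMap_apply K R B]
  have hf : Module.finrank K (R ⧸ P.under R) * P.inertiaDeg R = Module.finrank K (B ⧸ P) := by
    rw [Ideal.inertiaDeg_eq_of_isMaximal (P.under R) P]
    exact Module.finrank_mul_finrank K (R ⧸ P.under R) (B ⧸ P)
  have hmem : ∀ f : K[X], algebraMap R B (ε f) ∈ P ↔ π ∣ f := by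
    intro f
    have h1 : algebraMap R B (ε f) ∈ P ↔ ε f ∈ P.under R := Iff.rfl
    rw [h1, hπ, Ideal.mem_span_singleton]
    exact map_dvd_iff ε
  constructor
  · rintro ⟨χ, hχ, hneg⟩
    set r := χ (algebraMap R B (ε X)) with hr
    have h1 : Module.finrank K (B ⧸ P) = 1 := by
      rw [← Module.nonempty_algEquiv_iff_finrank_eq_one]
      have hsurj : Function.Surjective χ := fun a => ⟨algebraMap K B a, χ.commutes a⟩
      exact ⟨((Ideal.quotientEquivAlgOfEq K hχ.symm).trans
        (Ideal.quotientKerAlgEquivOfSurjective hsurj)).symm⟩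
    rw [h1] at hf
    refine ⟨Nat.eq_one_of_mul_eq_one_left hf, ?_⟩
    have h2 : π ∣ X - C r := by
      rw [← hmem, ← hχ, RingHom.mem_ker, pa_pt_eval, ← hr]
      simp
    have h3 : X - C r ∣ π := by
      rw [dvd_iff_isRoot, IsRoot, hr, ← pa_pt_eval]
      have h4 := (hmem π).2 dvd_rfl
      rw [← hχ, RingHom.mem_ker] at h4
      exact h4
    rw [pa_nr_assoc e (associated_of_dvd_dvd h2 h3)]
    exact pa_nr_X_sub e hneg
  · intro hRN
    by_cases h0 : pa_nr e π = 0
    · exact Or.inl h0
    right
    have h1 : ∃ r, π.eval r = 0 ∧ e r < 0 := by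
      by_contra hcon
      push Not at hcon
      exact h0 (pa_nr_eq_zero e hcon hπ0)
    obtain ⟨r, hr0, hr⟩ := h1
    -- the prime below is the kernel of the evaluation at `r`
    have h2 : π ∣ X - C r := by
      obtain ⟨q, hq⟩ := dvd_iff_isRoot.2 hr0
      have h3 : (X - C r) * q = π := hq.symm
      have hprime : (P.under R).IsPrime := hp.isPrime
      have h4 : ε ((X - C r) * q) ∈ P.under R := by
        rw [h3, hπ]
        exact Ideal.mem_span_singleton_self _
      rw [map_mul] at h4
      rcases hprime.mem_or_mem h4 with h5 | h5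
      · exact (hmem _).1 h5
      · exfalso
        have h6 : π ∣ q := (hmem _).1 h5
        obtain ⟨q', hq'⟩ := h6
        have h7 : π * ((X - C r) * q') = π * 1 := by
          rw [mul_one]
          conv_rhs => rw [← h3, hq']
          ring
        have h8 := mul_left_cancel₀ hπ0 h7
        have h9 : IsUnit (X - C r) := IsUnit.of_mul_eq_one _ h8
        exact not_isUnit_X_sub_C r h9
    have hbr : ∀ χ : B →ₐ[K] K, RingHom.ker χ = P → χ (algebraMap R B (ε X)) = r := by
      intro χ hχ
      have h3 := (hmem (X - C r)).2 h2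
      rw [← hχ, RingHom.mem_ker, pa_pt_eval, eval_sub, eval_X, eval_C, sub_eq_zero] at h3
      exact h3
    have hno : ∀ χ : B →ₐ[K] K, RingHom.ker χ ≠ P := by
      intro χ hχ
      exact hRN ⟨χ, hχ, by rw [hbr χ hχ]; exact hr⟩
    have h3 : Module.finrank K (B ⧸ P) ≠ 1 := by
      rw [Ne, ← Module.nonempty_algEquiv_iff_finrank_eq_one]
      rintro ⟨φ⟩
      apply hno ((φ.symm : (B ⧸ P) →ₐ[K] K).comp (Ideal.Quotient.mkₐ K P))
      ext b
      rw [RingHom.mem_ker, ← Ideal.Quotient.eq_zero_iff_mem]
      exact map_eq_zero_iff φ.symm φ.symm.injective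
    have h4 : Module.finrank K (R ⧸ P.under R) = 1 := by
      rw [← Module.nonempty_algEquiv_iff_finrank_eq_one]
      let ev : R →ₐ[K] K := (aeval r).comp (ε.symm : R →ₐ[K] K[X])
      have hev : ∀ f, ev (ε f) = f.eval r := fun f => by
        change aeval r (ε.symm (ε f)) = _
        rw [AlgEquiv.symm_apply_apply, coe_aeval_eq_eval]
      have hsurj : Function.Surjective ev := fun a => ⟨algebraMap K R a, ev.commutes a⟩
      have hker : P.under R = RingHom.ker ev := by
        ext x
        obtain ⟨f, rfl⟩ := ε.surjective x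
        have h5 : ε f ∈ P.under R ↔ algebraMap R B (ε f) ∈ P := Iff.rfl
        rw [h5, hmem, RingHom.mem_ker, hev]
        constructor
        · rintro ⟨q, rfl⟩
          rw [eval_mul, hr0, zero_mul]
        · intro h6
          exact h2.trans (dvd_iff_isRoot.2 h6)
      exact ⟨((Ideal.quotientEquivAlgOfEq K hker).trans
        (Ideal.quotientKerAlgEquivOfSurjective hsurj)).symm⟩
    rw [h4, one_mul] at hf
    rcases pa_finrank_field e (F := B ⧸ P) with h5 | h5
    · exact absurd h5 h3
    · rw [hf, h5]

/-! ### The sign of the norm -/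

/-- The norm is not negative at a point of the line over which there is no rational point. -/
theorem pa_norm_eval_nonneg [Module.Free R B] [Module.Finite R B] (b : B) {r : K}
    (hr : ∀ χ : B →ₐ[K] K, χ (algebraMap R B (ε X)) ≠ r) :
    0 ≤ e ((ε.symm (Algebra.norm R b)).eval r) := by
  let ev : R →ₐ[K] K := (aeval r).comp (ε.symm : R →ₐ[K] K[X])
  have hev : ∀ x, ev x = (ε.symm x).eval r := fun x => by
    change aeval r (ε.symm x) = _
    rw [coe_aeval_eq_eval]
  let _ : Algebra R K := (ev : R →+* K).toAlgebra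
  have hal : ∀ x, algebraMap R K x = ev x := fun x => rfl
  have h1 : Algebra.norm K ((1 : K) ⊗ₜ[R] b) = ev (Algebra.norm R b) := by
    rw [Algebra.norm_apply, Algebra.norm_apply, ← hal, ← LinearMap.det_baseChange]
    congr 1
    ext x
    simp [Algebra.TensorProduct.tmul_mul_tmul]
  rw [← hev, ← h1]
  refine pa_norm_nonneg e ⟨fun φ => ?_⟩ _
  -- a rational point of the fibre
  let χ : B →ₐ[K] K :=
    { toFun := fun b => φ ((1 : K) ⊗ₜ[R] b)
      map_one' := by
        rw [← Algebra.TensorProduct.one_def, map_one]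
      map_mul' := fun x y => by
        rw [← map_mul, Algebra.TensorProduct.tmul_mul_tmul, one_mul]
      map_zero' := by
        rw [TensorProduct.tmul_zero, map_zero]
      map_add' := fun x y => by
        rw [TensorProduct.tmul_add, map_add]
      commutes' := fun a => by
        have h2 : (1 : K) ⊗ₜ[R] (algebraMap K B a) = algebraMap K (TensorProduct R K B) a := by
          rw [IsScalarTower.algebraMap_apply K R B, Algebra.algebraMap_eq_smul_one,
            ← TensorProduct.smul_tmul, Algebra.smul_def, hal, AlgHom.commutes, mul_one]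
          rfl
        rw [h2, φ.commutes] }
  apply hr χ
  change φ ((1 : K) ⊗ₜ[R] (algebraMap R B (ε X))) = r
  have h2 : (1 : K) ⊗ₜ[R] (algebraMap R B (ε X)) = algebraMap K (TensorProduct R K B) r := by
    rw [Algebra.algebraMap_eq_smul_one, ← TensorProduct.smul_tmul, Algebra.smul_def, hal, hev,
      AlgEquiv.symm_apply_apply, eval_X, mul_one]
    rfl
  rw [h2, φ.commutes]
  rfl

/-! ### The parity -/

section ded

variable [IsDedekindDomain B]

open scoped Classical in
/-- The number of the prime factors which are kernels of points over the negative half line. -/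
noncomputable def paFF (I : Ideal B) : ℕ := Multiset.countP (paRN e ε) (normalizedFactors I)

variable [IsDedekindDomain R] [IsPrincipalIdealRing R] [Module.Finite R B]
  [Module.IsTorsionFree R B]

open scoped Classical in
/-- The parity of `paFF` is the parity of the number of negative roots of the norm. -/
theorem pa_FF_relNorm [PerfectField (FractionRing R)] (I : Ideal B) :
    I ≠ 0 → ∀ f : K[X], Ideal.relNorm R I = Ideal.span {ε f} →
      ((paFF e ε I : ℕ) : ZMod 2) = ((pa_nr e f : ℕ) : ZMod 2) := by
  have hgen : ∀ J : Ideal R, ∃ f : K[X], J = Ideal.span {ε f} := by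
    intro J
    obtain ⟨x, hx⟩ := (IsPrincipalIdealRing.principal J).principal
    refine ⟨ε.symm x, ?_⟩
    rw [AlgEquiv.apply_symm_apply]
    exact hx
  have hassoc : ∀ f g : K[X], Ideal.span {ε f} = Ideal.span {ε g} → Associated f g := by
    intro f g h
    rw [Ideal.span_singleton_eq_span_singleton] at h
    have h1 := h.map ε.symm
    rwa [AlgEquiv.symm_apply_apply, AlgEquiv.symm_apply_apply] at h1
  induction I using induction_on_prime with
  | h₁ => exact fun h => absurd rfl h
  | h₂ I hI =>
    intro _ f hf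
    rw [Ideal.isUnit_iff, ← Ideal.one_eq_top] at hI
    subst hI
    rw [map_one, Ideal.one_eq_top, ← Ideal.span_singleton_one, ← map_one ε] at hf
    rw [paFF, normalizedFactors_one, Multiset.countP_zero, ← pa_nr_assoc e (hassoc _ _ hf), pa_nr_one]
  | h₃ I P hI0 hP ih =>
    intro _ f hf
    have hP0 : P ≠ ⊥ := hP.ne_zero
    have hPp : P.IsPrime := Ideal.isPrime_of_prime hP
    have hPm : P.IsMaximal := hPp.isMaximal hP0
    have hpm : (P.under R).IsMaximal := inferInstance
    have hp0 : P.under R ≠ ⊥ := Ideal.IsIntegral.comap_ne_bot R hP0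
    obtain ⟨π, hπ⟩ := hgen (P.under R)
    obtain ⟨g, hg⟩ := hgen (Ideal.relNorm R I)
    have h1 := ih hI0 g hg
    have h2 : Ideal.relNorm R P = P.under R ^ P.inertiaDeg R :=
      Ideal.relNorm_eq_pow_of_isMaximal P (P.under R)
    rw [map_mul, h2, hπ, hg, Ideal.span_singleton_pow, Ideal.span_singleton_mul_span_singleton,
      ← map_pow, ← map_mul] at hf
    have hπ0 : π ≠ 0 := by
      rintro rfl
      apply hp0
      rw [hπ, map_zero]
      exact Ideal.span_singleton_eq_bot.2 rfl
    have hg0 : g ≠ 0 := by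
      rintro rfl
      rw [map_zero, Ideal.span_singleton_eq_bot.2 rfl, Ideal.relNorm_eq_bot_iff] at hg
      exact hI0 hg
    rw [← pa_nr_assoc e (hassoc _ _ hf), pa_nr_mul e (mul_ne_zero (pow_ne_zero _ hπ0) hg0), pa_nr_pow,
      paFF, normalizedFactors_mul hP.ne_zero hI0, Multiset.countP_add,
      normalizedFactors_irreducible hP.irreducible, normalize_eq]
    have h3 : Multiset.countP (paRN e ε) (normalizedFactors I) = paFF e ε I := rfl
    rw [h3, Nat.cast_add, Nat.cast_add, h1]
    congr 1
    obtain ⟨h4, h5⟩ := pa_prime_case e ε hPm hπ hp0 hpm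
    by_cases h6 : paRN e ε P
    · obtain ⟨h7, h8⟩ := h4 h6
      rw [h7, h8, Multiset.countP_eq_card_filter, Multiset.filter_singleton, if_pos h6,
        Multiset.card_singleton]
    · rw [Multiset.countP_eq_card_filter, Multiset.filter_singleton, if_neg h6]
      rcases h5 h6 with h7 | h7
      · rw [h7, mul_zero]
        simp
      · rw [h7]
        push_cast
        have h8 : (2 : ZMod 2) = 0 := rfl
        rw [h8, zero_mul]
        simp

/-- `paFF` is even for principal ideals if there are no points over `(-c, 0)` and `(-∞, -C)`. -/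
theorem pa_even_FF [PerfectField (FractionRing R)] {b : B} (hb : b ≠ 0) {c C : ℝ} (hc : 0 < c)
    (h : ∀ χ : B →ₐ[K] K, c ≤ |e (χ (algebraMap R B (ε X)))| ∧
      |e (χ (algebraMap R B (ε X)))| ≤ C) : Even (paFF e ε (Ideal.span {b})) := by
  have hfree : Module.Free R B := Module.free_of_finite_type_torsion_free'
  have h1 : Ideal.relNorm R (Ideal.span {b}) = Ideal.span {ε (ε.symm (Algebra.norm R b))} := by
    rw [Ideal.relNorm_singleton, Algebra.intNorm_eq_norm, AlgEquiv.apply_symm_apply]
  have hs0 : Ideal.span {b} ≠ 0 := by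
    rw [Ne, Ideal.zero_eq_bot, Ideal.span_singleton_eq_bot]
    exact hb
  have hf0 : ε.symm (Algebra.norm R b) ≠ 0 := by
    intro h2
    rw [h2, map_zero, Ideal.span_singleton_eq_bot.2 rfl, Ideal.relNorm_eq_bot_iff] at h1
    exact hs0 h1
  have h2 := pa_FF_relNorm e ε _ hs0 _ h1
  have h3 : Even (pa_nr e (ε.symm (Algebra.norm R b))) := by
    refine pa_even_nr e hf0 hc (C := C) (fun r h4 h5 => ?_) fun r h4 => ?_
    · refine pa_norm_eval_nonneg e ε b fun χ hχ => ?_
      have h6 := (h χ).1
      rw [hχ, abs_of_neg h5] at h6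
      linarith
    · refine pa_norm_eval_nonneg e ε b fun χ hχ => ?_
      have h6 := (h χ).2
      rw [hχ] at h6
      have h7 := neg_abs_le (e r)
      linarith
  rw [← ZMod.natCast_eq_zero_iff_even] at h3 ⊢
  rw [h2, h3]

end ded

end Rl
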