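import Pool.Agent.Lib.MP_f80667_ag.Rl.ParA1
import Pool.Agent.Lib.MP_f80667_ag.Rl.ParA2

/-! The number of the real zeros and poles of a function in a clopen subset of a real curve is
even: the transcendental case. -/

open Polynomial UniqueFactorizationMonoid

open scoped IntermediateField.algebraAdjoinAdjoin

namespace Rl

open ZC Dz

section sum

variable {K E Ω : Type} [Field K] [Field E] [Field Ω] [Algebra K E] [Algebra K Ω] (e : K ≃+* ℝ)
  {R B : Type} [CommRing R] [CommRing B] [Algebra K R] [Algebra K B] [Algebra R B]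
  [IsScalarTower K R B] (ε : K[X] ≃ₐ[K] R) [IsDedekindDomain B] [Algebra B E]
  [IsScalarTower K B E] [IsFractionRing B E]

omit [IsScalarTower K R B] in
open scoped Classical in
/-- The sum of the orders as a difference of numbers of prime factors. -/
theorem pa_sum_eq {ψ : E} (hψ : algebraMap B E (algebraMap R B (ε X)) = ψ)
    (hmem : ∀ w : Place K E Ω, ψ ∈ w.V → ∀ b : B, algebraMap B E b ∈ w.V)
    (hker : ∀ χ : B →ₐ[K] K, RingHom.ker χ ≠ ⊥) {a b : B} (ha : a ≠ 0) (hb : b ≠ 0)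
    (S : Finset (Place K E Ω)) (m : Place K E Ω → ℤ)
    (h1 : ∀ w ∉ S, algebraMap B E b / algebraMap B E a ∈ w.V ∧
      (algebraMap B E b / algebraMap B E a)⁻¹ ∈ w.V)
    (h2 : ∀ w ∈ S, w.IsOrd (algebraMap B E b / algebraMap B E a) (m w)) :
    ∑ w ∈ S.filter (fun w => Re w ∧ Ng e w ψ), m w =
      (paFF e ε (Ideal.span {b}) : ℤ) - (paFF e ε (Ideal.span {a}) : ℤ) := by
  set nb := normalizedFactors (Ideal.span {b}) with hnb
  set na := normalizedFactors (Ideal.span {a}) with hna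
  have hsb : Ideal.span {b} ≠ 0 := by
    rw [Ne, Ideal.zero_eq_bot, Ideal.span_singleton_eq_bot]
    exact hb
  have hsa : Ideal.span {a} ≠ 0 := by
    rw [Ne, Ideal.zero_eq_bot, Ideal.span_singleton_eq_bot]
    exact ha
  -- the orders
  have hord : ∀ (w : Place K E Ω) (χ : B →ₐ[K] K) (hB : ∀ b : B, algebraMap B E b ∈ w.V),
      (∀ b, w.res ⟨algebraMap B E b, hB b⟩ = algebraMap K Ω (χ b)) →
      w.IsOrd (algebraMap B E b / algebraMap B E a)
        ((nb.count (RingHom.ker χ) : ℤ) - (na.count (RingHom.ker χ) : ℤ)) := by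
    intro w χ hB hχ
    have hp : Irreducible (RingHom.ker χ) :=
      (Ideal.prime_of_isPrime (hker χ) (RingHom.ker_isPrime χ)).irreducible
    have e1 := pa_ord_hom (E := E) hχ hb
    have e2 := pa_ord_hom (E := E) hχ ha
    rw [multiplicity_eq_count_normalizedFactors hp hsb, normalize_eq] at e1
    rw [multiplicity_eq_count_normalizedFactors hp hsa, normalize_eq] at e2
    exact pa_ord_dv e1 e2
  have hord0 : ∀ (w : Place K E Ω) (χ : B →ₐ[K] K) (hB : ∀ b : B, algebraMap B E b ∈ w.V),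
      (∀ b, w.res ⟨algebraMap B E b, hB b⟩ = algebraMap K Ω (χ b)) → w ∉ S →
      (nb.count (RingHom.ker χ) : ℤ) - (na.count (RingHom.ker χ) : ℤ) = 0 := by
    intro w χ hB hχ hw
    exact (hord w χ hB hχ).eq_zero (h1 w hw).1 (h1 w hw).2
  have hordm : ∀ (w : Place K E Ω) (χ : B →ₐ[K] K) (hB : ∀ b : B, algebraMap B E b ∈ w.V),
      (∀ b, w.res ⟨algebraMap B E b, hB b⟩ = algebraMap K Ω (χ b)) → w ∈ S →
      m w = (nb.count (RingHom.ker χ) : ℤ) - (na.count (RingHom.ker χ) : ℤ) := by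
    intro w χ hB hχ hw
    exact (h2 w hw).unique rfl (hord w χ hB hχ)
  -- the places of the points
  have hpl : ∀ P : Ideal B, paRN e ε P → ∃ w : Place K E Ω, Re w ∧ Ng e w ψ ∧
      ∃ (χ : B →ₐ[K] K) (hB : ∀ b, algebraMap B E b ∈ w.V), RingHom.ker χ = P ∧
        ∀ b, w.res ⟨algebraMap B E b, hB b⟩ = algebraMap K Ω (χ b) := by
    rintro P ⟨χ, hχP, hneg⟩
    obtain ⟨w, hw, hB, hχ⟩ := pa_place_of_hom (E := E) (Ω := Ω) χ (hker χ)
    refine ⟨w, hw, ?_, χ, hB, hχP, hχ⟩
    refine ⟨hψ ▸ hB _, χ (algebraMap R B (ε X)), ?_, hneg⟩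
    rw [← hχ]
    congr 1
    ext
    exact hψ.symm
  choose W hW1 hW2 hW3 using hpl
  -- both numbers as sums over one set of ideals
  set U : Finset (Ideal B) := (nb.toFinset ∪ na.toFinset).filter (paRN e ε) with hU
  have hFF : ∀ n : Multiset (Ideal B), n.toFinset ⊆ nb.toFinset ∪ na.toFinset →
      (Multiset.countP (paRN e ε) n : ℤ) = ∑ P ∈ U, (n.count P : ℤ) := by
    intro n hn
    rw [Multiset.countP_eq_card_filter, ← Multiset.toFinset_sum_count_eq, Nat.cast_sum]
    have h3 : (n.filter (paRN e ε)).toFinset ⊆ U := by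
      intro P hP
      rw [Multiset.mem_toFinset, Multiset.mem_filter] at hP
      rw [hU, Finset.mem_filter]
      exact ⟨hn (Multiset.mem_toFinset.2 hP.1), hP.2⟩
    rw [Finset.sum_subset h3 (fun P _ hP => by
      rw [Multiset.mem_toFinset] at hP
      rw [Multiset.count_eq_zero.2 hP, Nat.cast_zero])]
    refine Finset.sum_congr rfl fun P hP => ?_
    rw [Multiset.count_filter, if_pos (Finset.mem_filter.1 hP).2]
  have e1 : (paFF e ε (Ideal.span {b}) : ℤ) = ∑ P ∈ U, (nb.count P : ℤ) :=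
    hFF nb Finset.subset_union_left
  have e2 : (paFF e ε (Ideal.span {a}) : ℤ) = ∑ P ∈ U, (na.count P : ℤ) :=
    hFF na Finset.subset_union_right
  rw [e1, e2, ← Finset.sum_sub_distrib]
  symm
  refine Finset.sum_bij_ne_zero (fun P hP _ => W P (Finset.mem_filter.1 hP).2) ?_ ?_ ?_ ?_
  · intro P hP hne
    have hRN : paRN e ε P := (Finset.mem_filter.1 hP).2
    rw [Finset.mem_filter]
    refine ⟨?_, hW1 P hRN, hW2 P hRN⟩
    obtain ⟨χ, hB, hχP, hχ⟩ := hW3 P hRN
    by_contra hS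
    apply hne
    have h3 := hord0 (W P hRN) χ hB hχ hS
    rwa [hχP] at h3
  · intro P hP hne P' hP' hne' hWW
    have hRN : paRN e ε P := (Finset.mem_filter.1 hP).2
    have hRN' : paRN e ε P' := (Finset.mem_filter.1 hP').2
    obtain ⟨χ, hB, hχP, hχ⟩ := hW3 P hRN
    obtain ⟨χ', hB', hχP', hχ'⟩ := hW3 P' hRN'
    ext x
    rw [← hχP, ← hχP', ← pa_mem_ker_iff hχ, ← pa_mem_ker_iff hχ']
    have h3 : W P hRN = W P' hRN' := hWW
    rw [h3]
  · intro w hw hne
    rw [Finset.mem_filter] at hw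
    obtain ⟨hwS, hwR, hwN⟩ := hw
    obtain ⟨hψV, r, hr, hneg⟩ := hwN
    have hB : ∀ b : B, algebraMap B E b ∈ w.V := hmem w hψV
    obtain ⟨χ, hχ⟩ := pa_hom_of_re hwR hB
    have hm := hordm w χ hB hχ hwS
    have hrχ : χ (algebraMap R B (ε X)) = r := by
      apply (algebraMap K Ω).injective
      rw [← hr, ← hχ]
      congr 1
      ext
      exact hψ
    have hRN : paRN e ε (RingHom.ker χ) := ⟨χ, rfl, by rw [hrχ]; exact hneg⟩
    have hPU : RingHom.ker χ ∈ U := by
      rw [hU, Finset.mem_filter]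
      refine ⟨?_, hRN⟩
      rw [Finset.mem_union, Multiset.mem_toFinset, Multiset.mem_toFinset]
      by_contra hcon
      push Not at hcon
      rw [Multiset.count_eq_zero.2 hcon.1, Multiset.count_eq_zero.2 hcon.2] at hm
      apply hne
      rw [hm]
      simp
    refine ⟨RingHom.ker χ, hPU, ?_, ?_⟩
    · rw [← hm]
      exact hne
    · obtain ⟨χ', hB', hχP', hχ'⟩ := hW3 _ hRN
      have h3 : χ' = χ := pa_hom_ext hχP'.le
      subst h3
      exact pa_place_unique hχ' hχ
  · intro P hP hne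
    have hRN : paRN e ε P := (Finset.mem_filter.1 hP).2
    obtain ⟨χ, hB, hχP, hχ⟩ := hW3 P hRN
    have hS : W P hRN ∈ S := by
      by_contra hS
      apply hne
      have h3 := hord0 (W P hRN) χ hB hχ hS
      rwa [hχP] at h3
    rw [hordm (W P hRN) χ hB hχ hS, hχP]

end sum

end Rl
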