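import Pool.Agent.Lib.MP_f80667_ag.Rl.Defs
import Pool.Agent.Lib.MP_f80667_ag.Rl.ParA3

/-! The number of the real zeros and poles of a function in a clopen subset of a real curve is
even. -/

open scoped IntermediateField.algebraAdjoinAdjoin

namespace Rl

open ZC

open scoped Classical in
/-- The transcendental case. -/
theorem pa_even_neg_tr {K E Ω : Type} [Field K] [CharZero K] [Field E] [Field Ω] [Algebra K E]
    [Algebra K Ω] (e : K ≃+* ℝ) (hE : IsFunField K E) {g ψ : E} (hg : g ≠ 0)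
    (ht : Transcendental K ψ) {c C : ℝ} (hc : 0 < c)
    (hψ : ∀ w : Place K E Ω, Re w → ∃ (h : ψ ∈ w.V) (a : K),
      w.res ⟨ψ, h⟩ = algebraMap K Ω a ∧ c ≤ |e a| ∧ |e a| ≤ C)
    (S : Finset (Place K E Ω)) (m : Place K E Ω → ℤ) (h1 : ∀ w ∉ S, g ∈ w.V ∧ g⁻¹ ∈ w.V)
    (h2 : ∀ w ∈ S, w.IsOrd g (m w)) :
    Even (∑ w ∈ S.filter (fun w => Re w ∧ Ng e w ψ), m w) := by
  let R := Algebra.adjoin K {ψ}
  let K' := IntermediateField.adjoin K {ψ}
  let B := integralClosure R E
  have hfin : FiniteDimensional K' E := Dz.finite_adjoin hE ht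
  have hpid : IsPrincipalIdealRing R := Dz.dedekind_adjoin ht
  have hded : IsDedekindDomain R := inferInstance
  have hchar : CharZero K' := charZero_of_injective_algebraMap (algebraMap K K').injective
  have hsep : Algebra.IsSeparable K' E := inferInstance
  have hB : IsDedekindDomain B := integralClosure.isDedekindDomain R K' E
  have hBfin : Module.Finite R B := IsIntegralClosure.finite R K' E B
  have hfr : IsFractionRing B E := IsIntegralClosure.isFractionRing_of_finite_extension R K' E B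
  have hs1 : IsScalarTower K R B := inferInstance
  have hs2 : IsScalarTower K B E := inferInstance
  have htf : Module.IsTorsionFree R B := inferInstance
  have hcR : CharZero R := charZero_of_injective_algebraMap (algebraMap K R).injective
  have hcF : CharZero (FractionRing R) :=
    charZero_of_injective_algebraMap (IsFractionRing.injective R (FractionRing R))
  have hperf : PerfectField (FractionRing R) := inferInstance
  let ε := Polynomial.algEquivOfTranscendental K ψ ht
  have hεX : algebraMap B E (algebraMap R B (ε Polynomial.X)) = ψ := by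
    have h3 : ((ε Polynomial.X : R) : E) = ψ := by simp [ε]
    exact h3
  have hmem : ∀ w : Place K E Ω, ψ ∈ w.V → ∀ b : B, algebraMap B E b ∈ w.V :=
    fun w hw b => Dz.mem_of_integral w hw b
  have hker : ∀ χ : B →ₐ[K] K, RingHom.ker χ ≠ ⊥ := by
    intro χ h
    have h3 : algebraMap R B (ε Polynomial.X) - algebraMap K B
        (χ (algebraMap R B (ε Polynomial.X))) ∈ RingHom.ker χ := by
      rw [RingHom.mem_ker, map_sub, χ.commutes]
      simp
    rw [h, Ideal.mem_bot, sub_eq_zero] at h3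
    have h4 := congrArg (algebraMap B E) h3
    rw [hεX, ← IsScalarTower.algebraMap_apply K B E] at h4
    apply ht
    rw [h4]
    exact isAlgebraic_algebraMap _
  have hpt : ∀ χ : B →ₐ[K] K, c ≤ |e (χ (algebraMap R B (ε Polynomial.X)))| ∧
      |e (χ (algebraMap R B (ε Polynomial.X)))| ≤ C := by
    intro χ
    obtain ⟨w, hw, hBw, hχ⟩ := pa_place_of_hom (E := E) (Ω := Ω) χ (hker χ)
    obtain ⟨hψV, a, ha, hca, haC⟩ := hψ w hw
    have h3 : χ (algebraMap R B (ε Polynomial.X)) = a := by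
      apply (algebraMap K Ω).injective
      rw [← ha, ← hχ]
      congr 1
      ext
      exact hεX
    rw [h3]
    exact ⟨hca, haC⟩
  obtain ⟨b, a, ha, hba⟩ := IsFractionRing.div_surjective (A := B) g
  have ha0 : a ≠ 0 := nonZeroDivisors.ne_zero ha
  have hb0 : b ≠ 0 := by
    rintro rfl
    apply hg
    rw [← hba, map_zero, zero_div]
  subst hba
  rw [pa_sum_eq e ε hεX hmem hker ha0 hb0 S m h1 h2]
  have e1 := pa_even_FF e ε hb0 hc hpt
  have e2 := pa_even_FF e ε ha0 hc hpt
  exact ((Int.even_coe_nat _).2 e1).sub ((Int.even_coe_nat _).2 e2)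

/-- Algebraic elements are in all valuation rings. -/
theorem pa_alg_mem {K E Ω : Type} [Field K] [Field E] [Field Ω] [Algebra K E] [Algebra K Ω]
    (w : Place K E Ω) {y : E} (hy : IsAlgebraic K y) : y ∈ w.V := by
  obtain ⟨p, hp, hpy⟩ := hy.isIntegral
  have h3 : IsIntegral w.V.valuation.integer y := by
    let φ : K →+* w.V.valuation.integer :=
      { toFun := fun c => ⟨algebraMap K E c, (w.V.valuation_le_one_iff _).2 (w.mem c)⟩
        map_one' := by ext; simp
        map_zero' := by ext; simp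
        map_mul' := by intro x y; ext; simp
        map_add' := by intro x y; ext; simp }
    refine ⟨p.map φ, hp.map φ, ?_⟩
    rw [Polynomial.eval₂_map]
    exact hpy
  have h4 := (Valuation.Integers.mem_of_integral
    (Valuation.integer.integers w.V.valuation) h3)
  exact (w.V.valuation_le_one_iff _).1 h4

/-- At a real place `1 + t ^ 2` is a unit if `t` is integral. -/
theorem pa_real_one_add {K E Ω : Type} [Field K] [Field E] [Field Ω] [Algebra K E] [Algebra K Ω]
    (e : K ≃+* ℝ) {w : Place K E Ω} (hw : Re w) {t : E} (ht : t ∈ w.V) :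
    ∃ (a : K) (h : 1 + t ^ 2 ∈ w.V), w.res ⟨1 + t ^ 2, h⟩ = algebraMap K Ω (1 + a ^ 2) ∧
      1 + t ^ 2 ≠ 0 ∧ (1 + t ^ 2)⁻¹ ∈ w.V ∧ 1 + a ^ 2 ≠ 0 := by
  obtain ⟨a, ha⟩ := hw ⟨t, ht⟩
  have h : 1 + t ^ 2 ∈ w.V := w.V.add_mem _ _ w.V.one_mem (w.V.toSubring.pow_mem ht 2)
  have hr : w.res ⟨1 + t ^ 2, h⟩ = algebraMap K Ω (1 + a ^ 2) := by
    have h3 : (⟨1 + t ^ 2, h⟩ : w.V) = 1 + ⟨t, ht⟩ ^ 2 := rfl
    rw [h3, map_add, map_one, map_pow, ha, map_add, map_one, map_pow]
  have ha0 : 1 + a ^ 2 ≠ 0 := by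
    intro h0
    have h3 := congrArg e h0
    rw [map_add, map_one, map_pow, map_zero] at h3
    nlinarith [sq_nonneg (e a)]
  have hnu : 1 + t ^ 2 ∉ w.V.nonunits := by
    intro h3
    have h4 := (Fa.res_eq_zero_iff w ⟨1 + t ^ 2, h⟩).2 h3
    rw [hr] at h4
    exact ha0 ((_root_.map_eq_zero (algebraMap K Ω)).1 h4)
  refine ⟨a, h, hr, ?_, ?_, ha0⟩
  · intro h0
    exact hnu ((ValuationSubring.mem_nonunits_iff_or _).2 (Or.inl h0))
  · by_contra h3
    exact hnu ((ValuationSubring.mem_nonunits_iff_or _).2 (Or.inr h3))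

/-- The residue of `1 / (1 + t ^ 2)` at a real place is in `[0, 1]`. -/
theorem pa_real_inv {K E Ω : Type} [Field K] [Field E] [Field Ω] [Algebra K E] [Algebra K Ω]
    (e : K ≃+* ℝ) {w : Place K E Ω} (hw : Re w) (t : E) :
    ∃ (h : (1 + t ^ 2)⁻¹ ∈ w.V) (a : K), w.res ⟨(1 + t ^ 2)⁻¹, h⟩ = algebraMap K Ω a ∧
      0 ≤ e a ∧ e a ≤ 1 := by
  by_cases ht : t ∈ w.V
  · obtain ⟨a, h, hr, h0, hinv, ha0⟩ := pa_real_one_add e hw ht
    refine ⟨hinv, (1 + a ^ 2)⁻¹, ?_, ?_, ?_⟩
    · have h3 : w.res ⟨(1 + t ^ 2)⁻¹, hinv⟩ * w.res ⟨1 + t ^ 2, h⟩ = 1 := by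
        rw [← map_mul, ← map_one w.res]
        congr 1
        ext
        exact inv_mul_cancel₀ h0
      rw [hr] at h3
      rw [map_inv₀]
      exact eq_inv_of_mul_eq_one_left h3
    · rw [map_inv₀, map_add, map_one, map_pow]
      positivity
    · rw [map_inv₀, map_add, map_one, map_pow]
      exact inv_le_one_of_one_le₀ (by nlinarith [sq_nonneg (e a)])
  · have ht0 : t ≠ 0 := by
      rintro rfl
      exact ht w.V.zero_mem
    have hti : t⁻¹ ∈ w.V := (w.V.mem_or_inv_mem t).resolve_left ht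
    have hnu : t⁻¹ ∈ w.V.nonunits := by
      rw [ValuationSubring.mem_nonunits_iff_or, inv_inv]
      exact Or.inr ht
    have hr0 : w.res ⟨t⁻¹, hti⟩ = 0 := (Fa.res_eq_zero_iff w ⟨t⁻¹, hti⟩).2 hnu
    obtain ⟨a, h, hr, h0, hinv, ha0⟩ := pa_real_one_add e hw hti
    have h3 : (1 + t ^ 2)⁻¹ = (t⁻¹) ^ 2 * (1 + (t⁻¹) ^ 2)⁻¹ := by
      have h4 : 1 + t ^ 2 = t ^ 2 * (1 + (t⁻¹) ^ 2) := by
        field_simp
        ring
      rw [h4, mul_inv, inv_pow]
    have hm : (1 + t ^ 2)⁻¹ ∈ w.V := by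
      rw [h3]
      exact w.V.mul_mem _ _ (w.V.toSubring.pow_mem hti 2) hinv
    refine ⟨hm, 0, ?_, by rw [map_zero], by rw [map_zero]; exact zero_le_one⟩
    have h4 : (⟨(1 + t ^ 2)⁻¹, hm⟩ : w.V) = ⟨t⁻¹, hti⟩ ^ 2 * ⟨(1 + (t⁻¹) ^ 2)⁻¹, hinv⟩ := by
      ext
      exact h3
    rw [h4, map_mul, map_pow, hr0, map_zero]
    simp

open scoped Classical in
/-- If `ψ` has no zeros and poles and is bounded at the real places, the sum of the orders of `g` at
the real places where `ψ` is negative is even. -/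
theorem even_neg {K E Ω : Type} [Field K] [CharZero K] [Field E] [Field Ω] [Algebra K E]
    [Algebra K Ω] [IsAlgClosure K Ω] (e : K ≃+* ℝ) (hE : IsFunField K E) {g ψ : E} (hg : g ≠ 0)
    {c C : ℝ} (hc : 0 < c)
    (hψ : ∀ w : Place K E Ω, Re w → ∃ (h : ψ ∈ w.V) (a : K),
      w.res ⟨ψ, h⟩ = algebraMap K Ω a ∧ c ≤ |e a| ∧ |e a| ≤ C)
    (S : Finset (Place K E Ω)) (m : Place K E Ω → ℤ) (h1 : ∀ w ∉ S, g ∈ w.V ∧ g⁻¹ ∈ w.V)
    (h2 : ∀ w ∈ S, w.IsOrd g (m w)) :
    Even (∑ w ∈ S.filter (fun w => Re w ∧ Ng e w ψ), m w) := by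
  by_cases ht : Transcendental K ψ
  · exact pa_even_neg_tr e hE hg ht hc hψ S m h1 h2
  rw [Transcendental, not_not] at ht
  by_cases hne : ∃ w0 : Place K E Ω, Re w0 ∧ Ng e w0 ψ
  · obtain ⟨w0, hw0, hψ0, a, ha, hneg⟩ := hne
    -- `ψ` is the constant `a`
    have hconst : ψ = algebraMap K E a := by
      by_contra hcon
      have h3 : ψ - algebraMap K E a ≠ 0 := sub_ne_zero.2 hcon
      have halg : IsAlgebraic K (ψ - algebraMap K E a) := ht.sub (isAlgebraic_algebraMap _)
      have h4 := pa_alg_mem w0 halg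
      have h5 := pa_alg_mem w0 halg.inv
      have h6 : w0.res ⟨ψ - algebraMap K E a, h4⟩ = 0 := by
        have h7 : (⟨ψ - algebraMap K E a, h4⟩ : w0.V) = ⟨ψ, hψ0⟩ - ⟨algebraMap K E a, w0.mem a⟩ :=
          rfl
        rw [h7, map_sub, ha, w0.res_k, sub_self]
      rw [Fa.res_eq_zero_iff, ValuationSubring.mem_nonunits_iff_or] at h6
      rcases h6 with h6 | h6
      · exact h3 h6
      · exact h6 h5
    obtain ⟨t, htr, -⟩ := id hE
    -- a transcendental function which is negative at all real places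
    set θ : E := -1 - (1 + t ^ 2)⁻¹ with hθ
    have hθt : Transcendental K θ := by
      intro h
      apply htr
      have h3 : IsAlgebraic K (1 + t ^ 2)⁻¹ := by
        have h4 : (1 + t ^ 2)⁻¹ = -1 - θ := by
          rw [hθ]
          ring
        rw [h4]
        exact (isAlgebraic_one.neg).sub h
      have h4 : IsAlgebraic K (1 + t ^ 2) := by simpa using h3.inv
      have h5 : IsAlgebraic K (t ^ 2) := by
        have h6 : t ^ 2 = (1 + t ^ 2) - 1 := by ring
        rw [h6]
        exact h4.sub isAlgebraic_one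
      exact h5.of_pow two_pos
    have hθw : ∀ w : Place K E Ω, Re w → ∃ (h : θ ∈ w.V) (b : K),
        w.res ⟨θ, h⟩ = algebraMap K Ω b ∧ e b ≤ -1 ∧ -2 ≤ e b := by
      intro w hw
      obtain ⟨h3, b, hb, hb0, hb1⟩ := pa_real_inv e hw t
      have hn1 : (-1 : E) ∈ w.V := w.V.neg_mem _ w.V.one_mem
      have hm : θ ∈ w.V := w.V.sub_mem hn1 h3
      refine ⟨hm, -1 - b, ?_, ?_, ?_⟩
      · have h4 : (⟨θ, hm⟩ : w.V) = -1 - ⟨(1 + t ^ 2)⁻¹, h3⟩ := rfl
        rw [h4, map_sub, hb, map_neg, map_one, map_sub, map_neg, map_one]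
      · rw [map_sub, map_neg, map_one]
        linarith
      · rw [map_sub, map_neg, map_one]
        linarith
    have key := pa_even_neg_tr e hE hg hθt (c := 1) (C := 2) one_pos (fun w hw => by
      obtain ⟨h3, b, hb, hb0, hb1⟩ := hθw w hw
      refine ⟨h3, b, hb, ?_, ?_⟩
      · rw [abs_of_neg (by linarith)]
        linarith
      · rw [abs_of_neg (by linarith)]
        linarith) S m h1 h2
    have h3 : S.filter (fun w => Re w ∧ Ng e w ψ) = S.filter (fun w => Re w ∧ Ng e w θ) := by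
      refine Finset.filter_congr fun w _ => and_congr_right fun hw => ?_
      constructor
      · intro _
        obtain ⟨h3, b, hb, hb0, hb1⟩ := hθw w hw
        exact ⟨h3, b, hb, by linarith⟩
      · intro _
        refine ⟨?_, a, ?_, hneg⟩
        · rw [hconst]
          exact w.mem a
        · rw [← w.res_k a]
          congr 1
          ext
          exact hconst
    rw [h3]
    exact key
  · have h3 : S.filter (fun w => Re w ∧ Ng e w ψ) = ∅ := by
      refine Finset.filter_eq_empty_iff.2 fun w _ h => ?_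
      exact hne ⟨w, h⟩
    rw [h3, Finset.sum_empty]
    exact Even.zero

end Rl
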