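import Pool.Agent.Lib.MP_f80667_ag.Rl.Defs

/-! Finite algebras over a field isomorphic to the field of real numbers: norms are nonnegative if
there are no rational points; residue fields; parity of the number of negative roots. -/

open Polynomial

namespace Rl

section alg

variable {K : Type} [Field K] (e : K ≃+* ℝ)

/-- The complex numbers over `K`. -/
noncomputable abbrev pa_algC : Algebra K ℂ := ((algebraMap ℝ ℂ).comp (e : K →+* ℝ)).toAlgebra

include e in
/-- A finite extension of `K` is `K` or contains a square root of `-1`. -/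
theorem pa_field_pt_or {F : Type} [Field F] [Algebra K F] [Algebra.IsAlgebraic K F] :
    Nonempty (F →ₐ[K] K) ∨ ∃ j : F, j * j = -1 := by
  let : Algebra K ℂ := pa_algC e
  have hC : ∀ a : K, algebraMap K ℂ a = ((e a : ℝ) : ℂ) := fun a => rfl
  let φ : F →ₐ[K] ℂ := IsAlgClosed.lift
  by_cases h : ∀ x : F, (φ x).im = 0
  · left
    have h1 : ∀ x : F, φ x = (((φ x).re : ℝ) : ℂ) := fun x => by
      apply Complex.ext
      · simp
      · simp [h x]
    have key : ∀ (x : F) (r : ℝ), φ x = (r : ℂ) → (φ x).re = r := fun x r hr => by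
      rw [hr, Complex.ofReal_re]
    exact ⟨{
      toFun := fun x => e.symm (φ x).re
      map_one' := by rw [map_one, Complex.one_re, map_one]
      map_mul' := fun x y => by
        rw [← map_mul e.symm]
        congr 1
        apply key
        rw [map_mul, h1 x, h1 y]
        push_cast
        simp
      map_zero' := by rw [map_zero, Complex.zero_re, map_zero]
      map_add' := fun x y => by
        rw [← map_add e.symm]
        congr 1
        rw [map_add, Complex.add_re]
      commutes' := fun a => by
        rw [φ.commutes, hC, Complex.ofReal_re]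
        exact e.symm_apply_apply a }⟩
  · right
    push Not at h
    obtain ⟨x, hx⟩ := h
    set a := (φ x).re with ha
    set b := (φ x).im with hb
    refine ⟨(x - algebraMap K F (e.symm a)) / algebraMap K F (e.symm b), ?_⟩
    refine (φ : F →+* ℂ).injective ?_
    have h1 : φ ((x - algebraMap K F (e.symm a)) / algebraMap K F (e.symm b)) = Complex.I := by
      rw [map_div₀, map_sub, φ.commutes, φ.commutes, hC, hC, e.apply_symm_apply,
        e.apply_symm_apply]
      have hb' : ((b : ℝ) : ℂ) ≠ 0 := by exact_mod_cast hx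
      rw [div_eq_iff hb']
      apply Complex.ext
      · simp [ha]
      · simp [hb]
    change φ (_ * _) = φ (-1)
    rw [map_mul, h1, Complex.I_mul_I, map_neg, map_one]

include e in
/-- The degree of a finite extension of `K`. -/
theorem pa_finrank_field {F : Type} [Field F] [Algebra K F] [FiniteDimensional K F] :
    Module.finrank K F = 1 ∨ Module.finrank K F = 2 := by
  let : Algebra K ℂ := pa_algC e
  let φ : F →ₐ[K] ℂ := IsAlgClosed.lift
  have hfin : Module.Finite K ℂ := by
    refine Module.Finite.of_equiv_equiv (A₁ := ℝ) (B₁ := ℂ) e.symm (RingEquiv.refl ℂ) ?_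
    ext x
    change ((e (e.symm x) : ℝ) : ℂ) = (x : ℂ)
    rw [e.apply_symm_apply]
  have h2 : Module.finrank K ℂ = 2 := by
    have h3 : Module.finrank ℝ ℂ = Module.finrank K ℂ := by
      refine Algebra.finrank_eq_of_equiv_equiv e.symm (RingEquiv.refl ℂ) ?_
      ext x
      change ((e (e.symm x) : ℝ) : ℂ) = (x : ℂ)
      rw [e.apply_symm_apply]
    rw [← h3, Complex.finrank_real_complex]
  have h3 : Module.finrank K F ≤ 2 := by
    rw [← h2]
    exact LinearMap.finrank_le_finrank_of_injective (f := φ.toLinearMap) φ.injective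
  have h4 : 0 < Module.finrank K F := Module.finrank_pos
  omega

include e in
/-- A finite algebra without a rational point contains a square root of `-1`. -/
theorem pa_exists_I {L : Type} [CommRing L] [Algebra K L] [Module.Finite K L]
    (h : IsEmpty (L →ₐ[K] K)) : ∃ j : L, j * j = -1 := by
  have : IsArtinianRing L := IsArtinianRing.of_finite K L
  have hK : CharZero K := charZero_of_injective_ringHom (f := (e.symm : ℝ →+* K)) e.symm.injective
  -- modulo the maximal ideals
  have h1 : ∀ I : MaximalSpectrum L, ∃ j : L ⧸ I.asIdeal, j * j = -1 := by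
    intro I
    let : Field (L ⧸ I.asIdeal) := Ideal.Quotient.field I.asIdeal
    rcases pa_field_pt_or e (F := L ⧸ I.asIdeal) with h2 | h2
    · obtain ⟨φ⟩ := h2
      exact (h.false (φ.comp (Ideal.Quotient.mkₐ K I.asIdeal))).elim
    · exact h2
  choose j hj using h1
  obtain ⟨x, hx⟩ := Ideal.Quotient.mk_surjective
    ((IsArtinianRing.quotNilradicalEquivPi L).symm fun I => j I)
  have h2 : Ideal.Quotient.mk (nilradical L) (x * x + 1) = 0 := by
    apply (IsArtinianRing.quotNilradicalEquivPi L).injective
    rw [map_add, map_mul, map_one, map_add, map_mul, hx, AlgEquiv.apply_symm_apply, map_one,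
      map_zero]
    funext I
    rw [Pi.add_apply, Pi.mul_apply, hj I]
    simp
  rw [Ideal.Quotient.eq_zero_iff_mem, mem_nilradical] at h2
  have hev : aeval x (X ^ 2 + 1 : K[X]) = x * x + 1 := by simp [sq]
  have hder : aeval x (derivative (X ^ 2 + 1 : K[X])) = 2 * x := by
    simp
    ring
  have h3 : IsUnit (x * x) := by
    have h4 : x * x = -1 + (x * x + 1) := by ring
    rw [h4]
    exact h2.isUnit_add_left_of_commute isUnit_one.neg (Commute.all _ _)
  have h5 : IsUnit (2 * x) := by
    refine IsUnit.mul ?_ (isUnit_of_mul_isUnit_left h3)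
    have h6 : (2 : L) = algebraMap K L 2 := by rw [map_ofNat]
    rw [h6]
    exact (isUnit_iff_ne_zero.2 two_ne_zero).map _
  obtain ⟨r, ⟨-, hr⟩, -⟩ := existsUnique_nilpotent_sub_and_aeval_eq_zero
    (P := (X ^ 2 + 1 : K[X])) (x := x) (by rwa [hev]) (by rwa [hder])
  refine ⟨r, ?_⟩
  have h6 : r * r + 1 = 0 := by
    rw [← hr]
    simp [sq]
  linear_combination h6

/-- The norm from a finite algebra without a rational point is not negative. -/
theorem pa_norm_nonneg {L : Type} [CommRing L] [Algebra K L] [Module.Finite K L]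
    (h : IsEmpty (L →ₐ[K] K)) (b : L) : 0 ≤ e (Algebra.norm K b) := by
  obtain ⟨j, hj⟩ := pa_exists_I e h
  let : Algebra K ℂ := pa_algC e
  let : Algebra ℝ L := ((algebraMap K L).comp (e.symm : ℝ →+* K)).toAlgebra
  let φ : ℂ →ₐ[ℝ] L := Complex.liftAux j hj
  let : Algebra ℂ L := (φ : ℂ →+* L).toAlgebra
  have : IsScalarTower K ℂ L := IsScalarTower.of_algebraMap_eq fun a => by
    change algebraMap K L a = φ ((e a : ℝ) : ℂ)
    have h1 : φ ((e a : ℝ) : ℂ) = algebraMap ℝ L (e a) := φ.commutes (e a)
    rw [h1]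
    change _ = algebraMap K L (e.symm (e a))
    rw [e.symm_apply_apply]
  have h1 : Algebra.norm K (Algebra.norm ℂ b) = Algebra.norm K b := Algebra.norm_norm
  obtain ⟨y, hy⟩ := IsAlgClosed.exists_pow_nat_eq (Algebra.norm ℂ b) (n := 2) two_pos
  rw [← h1, ← hy, map_pow, map_pow]
  positivity

end alg

/-! ### Negative roots -/

section roots

theorem pa_prod_eval_pos {x : ℝ} (s : Multiset ℝ) (h : ∀ t ∈ s, t < x) :
    0 < (s.map fun a => X - C a).prod.eval x := by
  induction s using Multiset.induction_on with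
  | empty => simp
  | cons a s ih =>
    rw [Multiset.map_cons, Multiset.prod_cons, eval_mul]
    refine mul_pos ?_ (ih fun t ht => h t (Multiset.mem_cons_of_mem ht))
    simp only [eval_sub, eval_X, eval_C]
    linarith [h a (Multiset.mem_cons_self a s)]

theorem pa_prod_eval_neg {x : ℝ} (s : Multiset ℝ) (h : ∀ t ∈ s, x < t) :
    0 < (-1) ^ s.card * (s.map fun a => X - C a).prod.eval x := by
  induction s using Multiset.induction_on with
  | empty => simp
  | cons a s ih =>
    rw [Multiset.map_cons, Multiset.prod_cons, eval_mul, Multiset.card_cons, pow_succ]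
    have h1 := ih fun t ht => h t (Multiset.mem_cons_of_mem ht)
    have h2 : 0 < -(X - C a : ℝ[X]).eval x := by
      simp only [eval_sub, eval_X, eval_C]
      linarith [h a (Multiset.mem_cons_self a s)]
    have h3 := mul_pos h1 h2
    linarith

/-- A real polynomial which is not negative near `0` (on the left) and near `-∞` has an even number
of negative roots. -/
theorem pa_even_roots {g : ℝ[X]} (hg : g ≠ 0) {c C : ℝ} (hc : 0 < c)
    (h1 : ∀ x, -c < x → x < 0 → 0 ≤ g.eval x) (h2 : ∀ x, x < -C → 0 ≤ g.eval x) :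
    Even ((g.roots.filter fun r => r < 0).card) := by
  set s := g.roots.filter fun r => r < 0 with hs
  obtain ⟨M, hM⟩ := (Multiset.prod_X_sub_C_dvd_iff_le_roots hg s).2 (Multiset.filter_le _ _)
  have hneg : ∀ t ∈ s, t < 0 := fun t ht => (Multiset.mem_filter.1 ht).2
  have hM0 : ∀ x < 0, M.eval x ≠ 0 := by
    intro x hx hx0
    have h3 : g.roots = s + M.roots := by
      rw [hM, roots_mul (by rw [← hM]; exact hg), roots_multiset_prod_X_sub_C]
    have h4 : s = s + M.roots.filter fun r => r < 0 := by
      conv_lhs => rw [hs, h3, Multiset.filter_add]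
      congr 1
      exact Multiset.filter_eq_self.2 hneg
    have h5 : (M.roots.filter fun r => r < 0) = 0 := by
      have h6 : s + 0 = s + M.roots.filter fun r => r < 0 := by rw [add_zero]; exact h4
      exact (add_left_cancel h6).symm
    have h6 : x ∈ M.roots.filter fun r => r < 0 := by
      rw [Multiset.mem_filter]
      refine ⟨?_, hx⟩
      rw [mem_roots (by
        rintro rfl
        exact hg (by rw [hM, mul_zero]))]
      exact hx0
    rw [h5] at h6
    exact Multiset.notMem_zero x h6
  obtain ⟨x1, ⟨h3, h4⟩, h5⟩ : ∃ x1 : ℝ, ((∀ t ∈ s.toFinset, x1 < t) ∧ x1 < -C) ∧ x1 < 0 := by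
    refine (((Filter.eventually_all_finset (l := Filter.atBot) s.toFinset).2 fun t _ =>
      Filter.eventually_lt_atBot t).and (Filter.eventually_lt_atBot (-C))).and
        (Filter.eventually_lt_atBot 0) |>.exists
  obtain ⟨x2, ⟨h6, h7⟩, h8⟩ : ∃ x2 : ℝ, ((∀ t ∈ s.toFinset, t < x2) ∧ -c < x2) ∧ x2 < 0 := by
    have h9 : ∀ t : ℝ, t < 0 → ∀ᶠ x in nhdsWithin (0 : ℝ) (Set.Iio 0), t < x := fun t ht =>
      Filter.mem_of_superset (Ioo_mem_nhdsLT ht) fun x hx => hx.1
    refine (((Filter.eventually_all_finset s.toFinset).2 fun t ht =>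
      h9 t (hneg t (Multiset.mem_toFinset.1 ht))).and (h9 _ (by linarith))).and
        (self_mem_nhdsWithin : Set.Iio (0 : ℝ) ∈ nhdsWithin (0 : ℝ) (Set.Iio 0)) |>.exists
  have h3' : ∀ t ∈ s, x1 < t := fun t ht => h3 t (Multiset.mem_toFinset.2 ht)
  have h6' : ∀ t ∈ s, t < x2 := fun t ht => h6 t (Multiset.mem_toFinset.2 ht)
  have p1 := pa_prod_eval_neg s h3'
  have p2 := pa_prod_eval_pos s h6'
  have g1 := h2 x1 h4
  have g2 := h1 x2 h7 h8
  rw [hM, eval_mul] at g1 g2
  have m2 : 0 < M.eval x2 := by
    rcases lt_or_gt_of_ne (hM0 x2 h8) with h9 | h9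
    · nlinarith
    · exact h9
  have m1 : 0 < M.eval x1 := by
    rcases lt_or_gt_of_ne (hM0 x1 h5) with h9 | h9
    · exfalso
      rcases le_total x1 x2 with h10 | h10
      · obtain ⟨y, hy, hy0⟩ := intermediate_value_Icc h10 M.continuous.continuousOn
          (show (0 : ℝ) ∈ Set.Icc (M.eval x1) (M.eval x2) from ⟨h9.le, m2.le⟩)
        exact hM0 y (lt_of_le_of_lt hy.2 h8) hy0
      · obtain ⟨y, hy, hy0⟩ := intermediate_value_Icc' h10 M.continuous.continuousOn
          (show (0 : ℝ) ∈ Set.Icc (M.eval x1) (M.eval x2) from ⟨h9.le, m2.le⟩)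
        exact hM0 y (lt_of_le_of_lt hy.2 h5) hy0
    · exact h9
  by_contra hodd
  rw [Nat.not_even_iff_odd] at hodd
  rw [hodd.neg_one_pow] at p1
  nlinarith

variable {K : Type} [Field K] (e : K ≃+* ℝ)

open scoped Classical in
/-- The number of the negative roots. -/
noncomputable def pa_nr (f : K[X]) : ℕ := Multiset.countP (fun r => e r < 0) f.roots

theorem pa_nr_mul {f g : K[X]} (h : f * g ≠ 0) : pa_nr e (f * g) = pa_nr e f + pa_nr e g := by
  rw [pa_nr, roots_mul h, Multiset.countP_add]
  rfl

theorem pa_nr_pow (f : K[X]) (s : ℕ) : pa_nr e (f ^ s) = s * pa_nr e f := by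
  rw [pa_nr, roots_pow, Multiset.countP_nsmul]
  rfl

theorem pa_nr_assoc {f g : K[X]} (h : Associated f g) : pa_nr e f = pa_nr e g := by
  rw [pa_nr, h.roots_eq]
  rfl

theorem pa_nr_one : pa_nr e 1 = 0 := by
  rw [pa_nr, roots_one]
  exact Multiset.countP_zero _

theorem pa_nr_X_sub {r : K} (h : e r < 0) : pa_nr e (X - C r) = 1 := by
  rw [pa_nr, roots_X_sub_C, Multiset.countP_eq_card_filter, Multiset.filter_singleton, if_pos h,
    Multiset.card_singleton]

theorem pa_nr_eq_zero {f : K[X]} (h : ∀ r, f.eval r = 0 → 0 ≤ e r) (hf : f ≠ 0) : pa_nr e f = 0 := by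
  rw [pa_nr, Multiset.countP_eq_zero]
  intro r hr
  rw [mem_roots hf] at hr
  exact (h r hr).not_gt

/-- The number of the negative roots of a polynomial over `K` with nonnegative values near `0` (on
the left) and near `-∞` is even. -/
theorem pa_even_nr {f : K[X]} (hf : f ≠ 0) {c C : ℝ} (hc : 0 < c)
    (h1 : ∀ r : K, -c < e r → e r < 0 → 0 ≤ e (f.eval r))
    (h2 : ∀ r : K, e r < -C → 0 ≤ e (f.eval r)) : Even (pa_nr e f) := by
  classical
  have hev : ∀ x : ℝ, (f.map (e : K →+* ℝ)).eval x = e (f.eval (e.symm x)) := by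
    intro x
    have h3 : x = (e : K →+* ℝ) (e.symm x) := (e.apply_symm_apply x).symm
    conv_lhs => rw [h3]
    rw [eval_map, eval₂_at_apply]
    rfl
  have hr : f.roots.map e = (f.map (e : K →+* ℝ)).roots := by
    ext x
    obtain ⟨y, rfl⟩ := e.surjective x
    rw [Multiset.count_map_eq_count' _ _ e.injective, count_roots, count_roots]
    exact eq_rootMultiplicity_map (f := (e : K →+* ℝ)) e.injective y
  have h3 := pa_even_roots (g := f.map (e : K →+* ℝ))
    ((Polynomial.map_ne_zero_iff (f := (e : K →+* ℝ)) e.injective).2 hf) hc (C := C)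
    (fun x hx hx0 => by
      rw [hev]
      exact h1 _ (by rwa [e.apply_symm_apply]) (by rwa [e.apply_symm_apply]))
    fun x hx => by
      rw [hev]
      exact h2 _ (by rwa [e.apply_symm_apply])
  rw [← hr, ← Multiset.countP_eq_card_filter, Multiset.countP_map,
    ← Multiset.countP_eq_card_filter] at h3
  unfold pa_nr
  convert h3

end roots

end Rl
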