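import Pool.Agent.Lib.MP_f80667_ag.Rl.ParA0
import Pool.Agent.Lib.MP_f80667_ag.Dz.Main

/-! Real places of a function field and homomorphisms of an affine ring of the curve to the base
field. -/

open Polynomial IsDedekindDomain

namespace Rl

open ZC Dz

section ord

variable {k E Ω : Type} [Field k] [Field E] [Field Ω] [Algebra k E] [Algebra k Ω]

/-- The order of a quotient. -/
theorem pa_ord_dv {w : Place k E Ω} {a b : E} {m n : ℤ} (ha : w.IsOrd a m) (hb : w.IsOrd b n) :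
    w.IsOrd (a / b) (m - n) := by
  have hb2 := ord_inv hb
  obtain ⟨π, u, h0, h1, hu, hu', hu0, rfl⟩ := ha
  obtain ⟨ρ, v, h0', h1', hv, hv', hv0, hbe⟩ := hb2
  have hπρ : π / ρ ∈ w.V := by
    rw [← h1', h1, div_self h0]
    exact w.V.one_mem
  have hρπ : ρ / π ∈ w.V := by
    rw [← h1, h1', div_self h0']
    exact w.V.one_mem
  have key : ∀ n : ℤ, (ρ / π) ^ n ∈ w.V := by
    intro n
    rcases n with n | n
    · rw [Int.ofNat_eq_natCast, zpow_natCast]
      exact w.V.toSubring.pow_mem hρπ n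
    · rw [zpow_negSucc, ← inv_pow, inv_div]
      exact w.V.toSubring.pow_mem hπρ _
  refine ⟨π, u * v * (ρ / π) ^ (-n), h0, h1, w.V.mul_mem _ _ (w.V.mul_mem _ _ hu hv) (key _), ?_,
    mul_ne_zero (mul_ne_zero hu0 hv0) (zpow_ne_zero _ (div_ne_zero h0' h0)), ?_⟩
  · rw [mul_inv, mul_inv, ← zpow_neg]
    exact w.V.mul_mem _ _ (w.V.mul_mem _ _ hu' hv') (key _)
  · rw [div_eq_mul_inv, hbe, sub_eq_add_neg, zpow_add₀ h0, div_zpow]
    have h2 : π ^ (-n) ≠ 0 := zpow_ne_zero _ h0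
    field_simp

end ord

section places

variable {K E Ω : Type} [Field K] [Field E] [Field Ω] [Algebra K E] [Algebra K Ω]
  {B : Type} [CommRing B] [IsDedekindDomain B] [Algebra K B] [Algebra B E] [IsScalarTower K B E]
  [IsFractionRing B E]

/-- The prime of a homomorphism. -/
noncomputable def pa_hv (χ : B →ₐ[K] K) (h : RingHom.ker χ ≠ ⊥) : HeightOneSpectrum B :=
  ⟨RingHom.ker χ, RingHom.ker_isPrime χ, h⟩

/-- Homomorphisms with the same kernel are equal. -/
theorem pa_hom_ext {B : Type} [CommRing B] [Algebra K B] {χ χ' : B →ₐ[K] K}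
    (h : RingHom.ker χ ≤ RingHom.ker χ') : χ = χ' := by
  ext b
  have h1 : b - algebraMap K B (χ b) ∈ RingHom.ker χ := by
    rw [RingHom.mem_ker, map_sub, χ.commutes]
    simp
  have h2 := h h1
  rw [RingHom.mem_ker, map_sub, χ'.commutes, sub_eq_zero] at h2
  exact h2.symm

omit [IsDedekindDomain B] [IsFractionRing B E] in
/-- The homomorphism of a real place. -/
theorem pa_hom_of_re {w : Place K E Ω} (hw : Re w) (hB : ∀ b : B, algebraMap B E b ∈ w.V) :
    ∃ χ : B →ₐ[K] K, ∀ b, w.res ⟨algebraMap B E b, hB b⟩ = algebraMap K Ω (χ b) := by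
  choose c hc using fun b : B => hw ⟨algebraMap B E b, hB b⟩
  have hinj := (algebraMap K Ω).injective
  refine ⟨{
    toFun := c
    map_one' := hinj (by
      rw [← hc, map_one (algebraMap K Ω), ← map_one w.res]
      congr 1
      ext
      simp)
    map_mul' := fun x y => hinj (by
      rw [← hc, map_mul (algebraMap K Ω), ← hc, ← hc, ← map_mul w.res]
      congr 1
      ext
      simp)
    map_zero' := hinj (by
      rw [← hc, map_zero (algebraMap K Ω), ← map_zero w.res]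
      congr 1
      ext
      simp)
    map_add' := fun x y => hinj (by
      rw [← hc, map_add (algebraMap K Ω), ← hc, ← hc, ← map_add w.res]
      congr 1
      ext
      simp)
    commutes' := fun a => hinj (by
      rw [← hc]
      change _ = algebraMap K Ω a
      rw [← w.res_k a]
      congr 1
      ext
      exact (IsScalarTower.algebraMap_apply K B E a).symm) }, fun b => hc b⟩

variable {w : Place K E Ω} {χ : B →ₐ[K] K} {hB : ∀ b : B, algebraMap B E b ∈ w.V}

omit [IsDedekindDomain B] [IsScalarTower K B E] [IsFractionRing B E] in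
/-- The centre of a place given by a homomorphism. -/
theorem pa_mem_ker_iff (hχ : ∀ b, w.res ⟨algebraMap B E b, hB b⟩ = algebraMap K Ω (χ b)) (b : B) :
    algebraMap B E b ∈ w.V.nonunits ↔ b ∈ RingHom.ker χ := by
  rw [← Fa.res_eq_zero_iff w ⟨algebraMap B E b, hB b⟩, hχ, RingHom.mem_ker]
  exact map_eq_zero (algebraMap K Ω)

omit [IsScalarTower K B E] in
/-- The kernel is not `0`. -/
theorem pa_ker_ne_bot (hχ : ∀ b, w.res ⟨algebraMap B E b, hB b⟩ = algebraMap K Ω (χ b)) :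
    RingHom.ker χ ≠ ⊥ := by
  intro h
  apply w.ne_top
  rw [eq_top_iff]
  rintro y -
  obtain ⟨a, b, hb, rfl⟩ := IsFractionRing.div_surjective (A := B) y
  have hb0 : b ≠ 0 := nonZeroDivisors.ne_zero hb
  have hb' : algebraMap B E b ∉ w.V.nonunits := by
    rw [pa_mem_ker_iff hχ, h, Ideal.mem_bot]
    exact hb0
  rw [div_eq_mul_inv]
  refine w.V.mul_mem _ _ (hB a) ?_
  by_contra h3
  exact hb' ((ValuationSubring.mem_nonunits_iff_or _).2 (Or.inr h3))

theorem pa_exists_plc (hχ : ∀ b, w.res ⟨algebraMap B E b, hB b⟩ = algebraMap K Ω (χ b))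
    (h0 : RingHom.ker χ ≠ ⊥) :
    ∃ φ : B ⧸ (pa_hv χ h0).asIdeal →ₐ[K] Ω, plc (pa_hv χ h0) φ E = w :=
  plc_surj (pa_hv χ h0) w hB fun b => pa_mem_ker_iff hχ b

/-- The order at the place of a homomorphism. -/
theorem pa_ord_hom (hχ : ∀ b, w.res ⟨algebraMap B E b, hB b⟩ = algebraMap K Ω (χ b)) {b : B}
    (hb : b ≠ 0) :
    w.IsOrd (algebraMap B E b) (multiplicity (RingHom.ker χ) (Ideal.span {b}) : ℤ) := by
  obtain ⟨φ, hφ⟩ := pa_exists_plc hχ (pa_ker_ne_bot hχ)
  exact ord_plc (pa_hv χ (pa_ker_ne_bot hχ)) w (congrArg Place.V hφ).symm hb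

/-- A real place is determined by its homomorphism. -/
theorem pa_place_unique {w' : Place K E Ω} {hB' : ∀ b : B, algebraMap B E b ∈ w'.V}
    (hχ : ∀ b, w.res ⟨algebraMap B E b, hB b⟩ = algebraMap K Ω (χ b))
    (hχ' : ∀ b, w'.res ⟨algebraMap B E b, hB' b⟩ = algebraMap K Ω (χ b)) : w = w' := by
  obtain ⟨φ, hφ⟩ := pa_exists_plc hχ (pa_ker_ne_bot hχ)
  obtain ⟨φ', hφ'⟩ := pa_exists_plc hχ' (pa_ker_ne_bot hχ)
  have h1 : φ = φ' := by
    ext b
    obtain ⟨b, rfl⟩ := Ideal.Quotient.mk_surjective b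
    rw [← rs_mk (E := E) _ φ b (mem_VV _ b), ← rs_mk (E := E) _ φ' b (mem_VV _ b)]
    have key : ∀ (w w' : Place K E Ω) (h : w = w') (y : E) (h1 : y ∈ w.V) (h2 : y ∈ w'.V),
        w.res ⟨y, h1⟩ = w'.res ⟨y, h2⟩ := by
      rintro w _ rfl y h1 h2
      rfl
    have e1 := key _ _ hφ (algebraMap B E b) (mem_VV _ b) (hB b)
    have e2 := key _ _ hφ' (algebraMap B E b) (mem_VV _ b) (hB' b)
    rw [hχ] at e1
    rw [hχ'] at e2
    exact e1.trans e2.symm
  rw [← hφ, ← hφ', h1]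

/-- The place of a homomorphism. -/
theorem pa_place_of_hom (χ : B →ₐ[K] K) (h0 : RingHom.ker χ ≠ ⊥) :
    ∃ w : Place K E Ω, Re w ∧ ∃ hB : ∀ b : B, algebraMap B E b ∈ w.V,
      ∀ b, w.res ⟨algebraMap B E b, hB b⟩ = algebraMap K Ω (χ b) := by
  let φ : B ⧸ (pa_hv χ h0).asIdeal →ₐ[K] Ω := (Algebra.ofId K Ω).comp
    (Ideal.Quotient.liftₐ (pa_hv χ h0).asIdeal χ fun b hb => hb)
  have hφ : ∀ b, φ (Ideal.Quotient.mk _ b) = algebraMap K Ω (χ b) := fun b => rfl
  have hres : ∀ b, (plc (pa_hv χ h0) φ E).res ⟨algebraMap B E b, mem_VV _ b⟩ =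
      algebraMap K Ω (χ b) := fun b => (rs_mk (E := E) _ φ b (mem_VV _ b)).trans (hφ b)
  refine ⟨plc (pa_hv χ h0) φ E, ?_, fun b => mem_VV _ b, hres⟩
  rintro ⟨y, hy⟩
  obtain ⟨n, d, hnd⟩ := (pa_hv χ h0).exists_primeCompl_mul_eq_of_integer y (by
    rw [plc_V, VV_eq, Valuation.mem_valuationSubring_iff] at hy
    exact hy)
  have hd : χ d ≠ 0 := fun h => d.2 h
  refine ⟨χ n / χ d, ?_⟩
  have h2 : (plc (pa_hv χ h0) φ E).res ⟨y, hy⟩ * algebraMap K Ω (χ d) = algebraMap K Ω (χ n) := by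
    rw [← hres, ← hres, ← map_mul]
    congr 1
    ext
    exact hnd
  have hd' : algebraMap K Ω (χ d) ≠ 0 := (_root_.map_ne_zero _).2 hd
  rw [map_div₀, eq_div_iff hd', h2]

end places

end Rl
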