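import Pool.Agent.Lib.MP_f80667_ag.Rl.Defs

/-! The Segre map and zero-cycles. -/

open scoped LinearAlgebra.Projectivization
open MvPolynomial

namespace Rl

open ZC

variable {K : Type} [Field K] {N n r : ℕ} {κ : Type} {h : κ → MvPolynomial (Fin N) K}
  {A : Fin r → Matrix (Fin n) (Fin n) (MvPolynomial (Fin N) K)}

theorem sgE_hom (hh : ∀ j, ∃ d, (h j).IsHomogeneous d)
    (hA : ∀ i, ∃ e, ∀ a b, (A i a b).IsHomogeneous e) :
    ∀ i, ∃ d, (sgE h A i).IsHomogeneous d := by
  rintro (p | p | p)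
  · exact ⟨1 + 1, ((isHomogeneous_X K _).mul (isHomogeneous_X K _)).sub
      ((isHomogeneous_X K _).mul (isHomogeneous_X K _))⟩
  · obtain ⟨d, hd⟩ := hh p.1
    exact ⟨d, hd.rename_isHomogeneous⟩
  · obtain ⟨e, he⟩ := hA p.1
    refine ⟨e + 1 + 1, ?_⟩
    simp only [sgE, Sum.elim_inr]
    exact IsHomogeneous.sum _ _ _ fun a _ => IsHomogeneous.sum _ _ _ fun b _ =>
      (((he a b).rename_isHomogeneous).mul (isHomogeneous_X K _)).mul (isHomogeneous_X K _)

theorem sg_apply {R : Type*} [Mul R] (w : Fin N → R) (x : Fin n → R) (i : Fin N) (a : Fin n) :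
    sg w x (finProdFinEquiv (i, a)) = w i * x a := by
  rw [sg, Equiv.symm_apply_apply]

theorem sg_ne {E : Type*} [Field E] {w : Fin N → E} {x : Fin n → E} (hw : w ≠ 0) (hx : x ≠ 0) :
    sg w x ≠ 0 := by
  obtain ⟨i, hi⟩ := Function.ne_iff.1 hw
  obtain ⟨a, ha⟩ := Function.ne_iff.1 hx
  intro h0
  have h1 := congrFun h0 (finProdFinEquiv (i, a))
  rw [sg_apply] at h1
  exact (mul_ne_zero hi ha) h1

theorem sg_smul {E : Type*} [Field E] (c d : E) (w : Fin N → E) (x : Fin n → E) :
    sg (c • w) (d • x) = (c * d) • sg w x := by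
  funext p
  simp only [sg, Pi.smul_apply, smul_eq_mul]
  ring

theorem aeval_mn {E : Type*} [Field E] [Algebra K E] (p : Fin (N * n) → E)
    (q : (Fin N × Fin n) × (Fin N × Fin n)) : aeval p (sgE h A (Sum.inl q)) =
      p (finProdFinEquiv (q.1.1, q.1.2)) * p (finProdFinEquiv (q.2.1, q.2.2)) -
      p (finProdFinEquiv (q.1.1, q.2.2)) * p (finProdFinEquiv (q.2.1, q.1.2)) := by
  simp only [sgE, Sum.elim_inl, map_sub, map_mul, aeval_X]

theorem aeval_h {E : Type*} [Field E] [Algebra K E] (p : Fin (N * n) → E)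
    (q : κ × Fin n) : aeval p (sgE h A (Sum.inr (Sum.inl q))) =
      aeval (fun i => p (finProdFinEquiv (i, q.2))) (h q.1) := by
  simp only [sgE, Sum.elim_inr, Sum.elim_inl, aeval_rename]
  rfl

theorem aeval_A {E : Type*} [Field E] [Algebra K E] (p : Fin (N * n) → E)
    (q : Fin r × (Fin N × Fin n)) : aeval p (sgE h A (Sum.inr (Sum.inr q))) =
      ∑ a, ∑ b, aeval (fun i => p (finProdFinEquiv (i, q.2.2))) (A q.1 a b) *
        p (finProdFinEquiv (q.2.1, a)) * p (finProdFinEquiv (q.2.1, b)) := by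
  simp only [sgE, Sum.elim_inr, map_sum, map_mul, aeval_rename, aeval_X]
  rfl

theorem dot_sum {E : Type*} [Field E] (M : Matrix (Fin n) (Fin n) E) (x : Fin n → E) :
    dotProduct x (M.mulVec x) = ∑ a, ∑ b, M a b * x a * x b := by
  simp only [dotProduct, Matrix.mulVec, Finset.mul_sum]
  refine Finset.sum_congr rfl fun a _ => Finset.sum_congr rfl fun b _ => ?_
  ring

/-- Zeros of the equations of the Segre image. -/
theorem zer_sg (hh : ∀ j, ∃ d, (h j).IsHomogeneous d)
    (hA : ∀ i, ∃ e, ∀ a b, (A i a b).IsHomogeneous e) {E : Type*} [Field E] [Algebra K E]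
    {w : Fin N → E} {x : Fin n → E} (hw : w ≠ 0) (hx : x ≠ 0) :
    Zer (sgE h A) E (sg w x) ↔ Zer2 h A E w x := by
  have e1 : ∀ c : Fin n, (fun i => sg w x (finProdFinEquiv (i, c))) = x c • w := by
    intro c
    funext i
    rw [sg_apply, Pi.smul_apply, smul_eq_mul, mul_comm]
  have e2 : ∀ (q : κ × Fin n) (d : ℕ), (h q.1).IsHomogeneous d →
      aeval (sg w x) (sgE h A (Sum.inr (Sum.inl q))) = x q.2 ^ d * aeval w (h q.1) := by
    intro q d hd
    rw [aeval_h, e1, aeval_smul_of_hom hd]
  have e3 : ∀ (q : Fin r × (Fin N × Fin n)) (d : ℕ), (∀ a b, (A q.1 a b).IsHomogeneous d) →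
      aeval (sg w x) (sgE h A (Sum.inr (Sum.inr q))) = x q.2.2 ^ d * w q.2.1 ^ 2 *
        dotProduct x (((A q.1).map (aeval w)).mulVec x) := by
    intro q d hd
    rw [aeval_A, dot_sum, Finset.mul_sum]
    refine Finset.sum_congr rfl fun a _ => ?_
    rw [Finset.mul_sum]
    refine Finset.sum_congr rfl fun b _ => ?_
    rw [e1, aeval_smul_of_hom (hd a b), sg_apply, sg_apply, Matrix.map_apply]
    ring
  obtain ⟨i, hi⟩ := Function.ne_iff.1 hw
  obtain ⟨c, hc⟩ := Function.ne_iff.1 hx
  have hi' : w i ≠ 0 := hi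
  have hc' : x c ≠ 0 := hc
  constructor
  · intro hz
    refine ⟨fun j => ?_, fun l => ?_⟩
    · obtain ⟨d, hd⟩ := hh j
      have h1 := hz (Sum.inr (Sum.inl (j, c)))
      rw [e2 (j, c) d hd] at h1
      exact (mul_eq_zero.1 h1).resolve_left (pow_ne_zero d hc')
    · obtain ⟨d, hd⟩ := hA l
      have h1 := hz (Sum.inr (Sum.inr (l, (i, c))))
      rw [e3 (l, (i, c)) d hd] at h1
      exact (mul_eq_zero.1 h1).resolve_left
        (mul_ne_zero (pow_ne_zero d hc') (pow_ne_zero 2 hi'))
  · rintro ⟨h1, h2⟩ (q | q | q)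
    · rw [aeval_mn, sg_apply, sg_apply, sg_apply, sg_apply]
      ring
    · obtain ⟨d, hd⟩ := hh q.1
      rw [e2 q d hd, h1 q.1, mul_zero]
    · obtain ⟨d, hd⟩ := hA q.1
      rw [e3 q d hd, h2 q.1, mul_zero]

/-- The zeros are in the image of the Segre map; `i`, `a` is any entry which is not `0`. -/
theorem exists_sg {E : Type*} [Field E] [Algebra K E] {p : Fin (N * n) → E}
    (hz : Zer (sgE h A) E p) {i : Fin N} {a : Fin n} (hia : p (finProdFinEquiv (i, a)) ≠ 0) :
    p = (p (finProdFinEquiv (i, a)))⁻¹ • sg (fun j => p (finProdFinEquiv (j, a)))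
      (fun b => p (finProdFinEquiv (i, b))) := by
  funext c
  obtain ⟨⟨j, b⟩, rfl⟩ := finProdFinEquiv.surjective c
  have h1 := hz (Sum.inl ((j, b), (i, a)))
  rw [aeval_mn] at h1
  rw [Pi.smul_apply, smul_eq_mul, sg_apply, ← sub_eq_zero.1 h1]
  field_simp

/-! ### The inverse of the Segre map -/

theorem exists_entry {E : Type*} [Field E] {p : Fin (N * n) → E} (hp : p ≠ 0) :
    ∃ q : Fin N × Fin n, p (finProdFinEquiv q) ≠ 0 := by
  obtain ⟨c, hc⟩ := Function.ne_iff.1 hp
  obtain ⟨q, rfl⟩ := finProdFinEquiv.surjective c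
  exact ⟨q, hc⟩

theorem col_ne {E : Type*} [Field E] {p : Fin (N * n) → E} {q : Fin N × Fin n}
    (h : p (finProdFinEquiv q) ≠ 0) : (fun j => p (finProdFinEquiv (j, q.2))) ≠ 0 := by
  intro h0
  exact h (congrFun h0 q.1)

theorem row_ne {E : Type*} [Field E] {p : Fin (N * n) → E} {q : Fin N × Fin n}
    (h : p (finProdFinEquiv q) ≠ 0) : (fun b => p (finProdFinEquiv (q.1, b))) ≠ 0 := by
  intro h0
  exact h (congrFun h0 q.2)

/-- The inverse of the Segre map. -/
noncomputable def inS {Ω : Type} [Field Ω] (y : ℙ Ω (Fin (N * n) → Ω)) : Pt2 Ω N n :=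
  (Projectivization.mk Ω _ (col_ne (exists_entry y.rep_nonzero).choose_spec),
    Projectivization.mk Ω _ (row_ne (exists_entry y.rep_nonzero).choose_spec))

theorem inS_mk {Ω : Type} [Field Ω] {w : Fin N → Ω} {x : Fin n → Ω} (hw : w ≠ 0) (hx : x ≠ 0)
    (hs : sg w x ≠ 0) : inS (Projectivization.mk Ω (sg w x) hs) =
      (Projectivization.mk Ω w hw, Projectivization.mk Ω x hx) := by
  obtain ⟨c, -, hr⟩ := exists_rep (sg w x) hs
  have key1 : ∀ a : Fin n, (c * x a) • w =
      fun j => (Projectivization.mk Ω (sg w x) hs).rep (finProdFinEquiv (j, a)) := by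
    intro a
    funext j
    rw [hr, Pi.smul_apply, Pi.smul_apply, smul_eq_mul, smul_eq_mul, sg_apply]
    ring
  have key2 : ∀ i : Fin N, (c * w i) • x =
      fun b => (Projectivization.mk Ω (sg w x) hs).rep (finProdFinEquiv (i, b)) := by
    intro i
    funext b
    rw [hr, Pi.smul_apply, Pi.smul_apply, smul_eq_mul, smul_eq_mul, sg_apply]
    ring
  refine Prod.ext ?_ ?_
  · change Projectivization.mk Ω _ _ = Projectivization.mk Ω w hw
    rw [Projectivization.mk_eq_mk_iff']
    exact ⟨_, key1 _⟩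
  · change Projectivization.mk Ω _ _ = Projectivization.mk Ω x hx
    rw [Projectivization.mk_eq_mk_iff']
    exact ⟨_, key2 _⟩

/-- The value of a multiple. -/
theorem isVal_mul {k E Ω : Type} [Field k] [Field E] [Field Ω] [Algebra k E] [Algebra k Ω] {m : ℕ}
    {v : Place k E Ω} {p : Fin m → E} {c : E} {x : ℙ Ω (Fin m → Ω)}
    (h : v.IsVal (c • p) x) : v.IsVal p x := by
  obtain ⟨d, hd, h0, rfl⟩ := h
  have e : ∀ i, d * c * p i = d * (c • p) i := by
    intro i
    rw [Pi.smul_apply, smul_eq_mul, mul_assoc]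
  have hm : ∀ i, d * c * p i ∈ v.V := fun i => by
    rw [e]
    exact hd i
  have hf : (fun i => v.res ⟨d * c * p i, hm i⟩) = fun i => v.res ⟨d * (c • p) i, hd i⟩ := by
    funext i
    congr 1
    exact Subtype.ext (e i)
  refine ⟨d * c, hm, by rw [hf]; exact h0, ?_⟩
  congr 1
  exact hf.symm

/-- The value of a point of the Segre image. -/
theorem val_sg {k E Ω : Type} [Field k] [Field E] [Field Ω] [Algebra k E] [Algebra k Ω]
    {v : Place k E Ω} {w : Fin N → E} {x : Fin n → E} (hw : w ≠ 0) (hx : x ≠ 0)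
    {y : ℙ Ω (Fin (N * n) → Ω)} (h : v.IsVal (sg w x) y) :
    v.IsVal w (inS y).1 ∧ v.IsVal x (inS y).2 := by
  obtain ⟨α, hα⟩ := v.exists_isVal hw
  obtain ⟨β, hβ⟩ := v.exists_isVal hx
  obtain ⟨c, hc, h0, rfl⟩ := id hα
  obtain ⟨d, hd, h0', rfl⟩ := id hβ
  have e : ∀ p, c * d * sg w x p = (c * w (finProdFinEquiv.symm p).1) *
      (d * x (finProdFinEquiv.symm p).2) := by
    intro p
    rw [sg]
    ring
  have hm : ∀ p, c * d * sg w x p ∈ v.V := fun p => by
    rw [e]
    exact v.V.mul_mem _ _ (hc _) (hd _)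
  have hf : (fun p => v.res ⟨c * d * sg w x p, hm p⟩) =
      sg (fun i => v.res ⟨c * w i, hc i⟩) (fun i => v.res ⟨d * x i, hd i⟩) := by
    funext p
    change v.res _ = v.res _ * v.res _
    rw [← map_mul]
    congr 1
    exact Subtype.ext (e p)
  have h1 : v.IsVal (sg w x) (Projectivization.mk Ω _ (sg_ne h0 h0')) := by
    refine ⟨c * d, hm, by rw [hf]; exact sg_ne h0 h0', ?_⟩
    congr 1
    exact hf.symm
  rw [h.unique h1, inS_mk h0 h0' (sg_ne h0 h0')]
  exact ⟨hα, hβ⟩

/-- Zero-cycles of the Segre image as zero-cycles of the family. -/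
theorem exists_Phi (hh : ∀ j, ∃ d, (h j).IsHomogeneous d)
    (hA : ∀ i, ∃ e, ∀ a b, (A i a b).IsHomogeneous e) :
    ∃ Φ : (ℙ (AlgebraicClosure K) (Fin (N * n) → AlgebraicClosure K) →₀ ℤ) →+
        (Pt2 (AlgebraicClosure K) N n →₀ ℤ),
      (∀ (w : Fin N → AlgebraicClosure K) (hw : w ≠ 0) (x : Fin n → AlgebraicClosure K)
        (hx : x ≠ 0) (m : ℤ), Φ (Finsupp.single (Projectivization.mk _ (sg w x) (sg_ne hw hx)) m) =
          Finsupp.single (Projectivization.mk _ w hw, Projectivization.mk _ x hx) m) ∧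
      (∀ z ∈ ratEq (AlgebraicClosure K) (sgE h A), Φ z ∈ ratEq2 (AlgebraicClosure K) h A) ∧
      ∀ z ∈ normCyc (AlgebraicClosure K) (sgE h A), Φ z ∈ nrm2 K h A := by
  have hsingle : ∀ (y : ℙ (AlgebraicClosure K) (Fin (N * n) → AlgebraicClosure K)) (m : ℤ),
      Finsupp.mapDomain.addMonoidHom inS (Finsupp.single y m) = Finsupp.single (inS y) m := by
    intro y m
    exact Finsupp.mapDomain_single
  refine ⟨Finsupp.mapDomain.addMonoidHom inS, ?_, ?_, ?_⟩
  · intro w hw x hx m
    rw [hsingle, inS_mk hw hx]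
  · intro z hz
    induction hz using AddSubgroup.closure_induction with
    | zero => rw [map_zero]; exact zero_mem _
    | add a b _ _ ha hb => rw [map_add]; exact add_mem ha hb
    | neg a _ ha => rw [map_neg]; exact neg_mem ha
    | mem z hz =>
      obtain ⟨E, i1, i2, hE, g, p, hg, hp, hZ, S, m, xx, h1, h2, rfl⟩ := hz
      obtain ⟨q, hq⟩ := exists_entry hp
      have hsg := exists_sg hZ (i := q.1) (a := q.2) hq
      have hw := col_ne hq
      have hx := row_ne hq
      obtain ⟨w, hwd⟩ : ∃ w : Fin N → E, w = fun j => p (finProdFinEquiv (j, q.2)) := ⟨_, rfl⟩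
      obtain ⟨x, hxd⟩ : ∃ x : Fin n → E, x = fun b => p (finProdFinEquiv (q.1, b)) := ⟨_, rfl⟩
      rw [← hwd] at hw hsg
      rw [← hxd] at hx hsg
      have hz2 : Zer2 h A E w x := by
        rw [← zer_sg hh hA hw hx]
        have h3 : sg w x = p (finProdFinEquiv (q.1, q.2)) • p := by
          conv_rhs => rw [hsg]
          rw [smul_smul, ← hsg, mul_inv_cancel₀ hq, one_smul]
        rw [h3]
        exact hZ.smul (sgE_hom hh hA) _
      rw [map_sum]
      simp only [hsingle]
      refine AddSubgroup.subset_closure ⟨E, i1, i2, hE, g, w, x, hg, hw, hx, hz2, S, m,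
        fun v => inS (xx v), h1, fun v hv => ⟨(h2 v hv).1, ?_⟩, rfl⟩
      have h4 := (h2 v hv).2
      rw [hsg] at h4
      exact val_sg hw hx (isVal_mul h4)
  · intro z hz
    induction hz using AddSubgroup.closure_induction with
    | zero => rw [map_zero]; exact zero_mem _
    | add a b _ _ ha hb => rw [map_add]; exact add_mem ha hb
    | neg a _ ha => rw [map_neg]; exact neg_mem ha
    | mem z hz =>
      obtain ⟨y, hy, rfl⟩ := hz
      obtain ⟨w, x, hw, hx, hyd⟩ : ∃ (w : Fin N → AlgebraicClosure K)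
          (x : Fin n → AlgebraicClosure K) (hw : w ≠ 0) (hx : x ≠ 0),
          y = Projectivization.mk _ (sg w x) (sg_ne hw hx) := by
        obtain ⟨q, hq⟩ := exists_entry y.rep_nonzero
        have hsg := exists_sg hy (i := q.1) (a := q.2) hq
        refine ⟨_, _, col_ne hq, row_ne hq, ?_⟩
        conv_lhs => rw [← y.mk_rep]
        rw [Projectivization.mk_eq_mk_iff']
        exact ⟨_, hsg.symm⟩
      have hin : inS y = (Projectivization.mk _ w hw, Projectivization.mk _ x hx) := by
        rw [hyd]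
        exact inS_mk hw hx _
      have hmap : ∀ σ : AlgebraicClosure K ≃ₐ[K] AlgebraicClosure K,
          inS (mapPt (σ : AlgebraicClosure K →+* AlgebraicClosure K) y) =
            mapPt2 (σ : AlgebraicClosure K →+* AlgebraicClosure K) (inS y) := by
        intro σ
        have e1 : (fun p => (σ : AlgebraicClosure K →+* AlgebraicClosure K) (sg w x p)) =
            sg (fun i => (σ : AlgebraicClosure K →+* AlgebraicClosure K) (w i))
              (fun i => (σ : AlgebraicClosure K →+* AlgebraicClosure K) (x i)) := by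
          funext p
          rw [sg, sg, map_mul]
        have hw' := comp_ne (σ : AlgebraicClosure K →+* AlgebraicClosure K) hw
        have hx' := comp_ne (σ : AlgebraicClosure K →+* AlgebraicClosure K) hx
        have e2 : mapPt (σ : AlgebraicClosure K →+* AlgebraicClosure K) y =
            Projectivization.mk _ _ (sg_ne hw' hx') := by
          rw [hyd, mapPt_mk]
          congr 1
        rw [e2, inS_mk hw' hx', hin, mapPt2]
        dsimp only
        rw [mapPt_mk, mapPt_mk]
      have hmem : Zer2 h A (AlgebraicClosure K) (inS y).1.rep (inS y).2.rep := by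
        rw [hin]
        dsimp only
        rw [zer2_mk_iff hh hA, ← zer_sg hh hA hw hx, ← zer_mk_iff (sgE_hom hh hA) _ (sg_ne hw hx),
          ← hyd]
        exact hy
      refine AddSubgroup.subset_closure ⟨inS y, hmem, ?_⟩
      rcases finite_or_infinite (AlgebraicClosure K ≃ₐ[K] AlgebraicClosure K) with hf | hf
      · rw [AddMonoidHom.map_finsum _ (Set.toFinite _)]
        refine finsum_congr fun σ => ?_
        rw [hsingle, hmap]
      · rw [finsum_of_infinite_support, finsum_of_infinite_support, map_zero]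
        · have : Function.support (fun σ : AlgebraicClosure K ≃ₐ[K] AlgebraicClosure K =>
              Finsupp.single (mapPt2 (σ : AlgebraicClosure K →+* AlgebraicClosure K) (inS y))
                (1 : ℤ)) = Set.univ := by
            rw [Set.eq_univ_iff_forall]
            intro σ h0
            exact one_ne_zero (Finsupp.single_eq_zero.1 h0)
          rw [this]
          exact Set.infinite_univ
        · have : Function.support (fun σ : AlgebraicClosure K ≃ₐ[K] AlgebraicClosure K =>
              Finsupp.single (mapPt (σ : AlgebraicClosure K →+* AlgebraicClosure K) y)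
                (1 : ℤ)) = Set.univ := by
            rw [Set.eq_univ_iff_forall]
            intro σ h0
            exact one_ne_zero (Finsupp.single_eq_zero.1 h0)
          rw [this]
          exact Set.infinite_univ

end Rl
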