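import Pool.Agent.Lib.MP_f80667_ag.Rl.Seg

/-!
First order calculus with dual numbers, and the scaling of bihomogeneous polynomials.
-/

open MvPolynomial

namespace Rl

open ZC

section dual

variable {K : Type} [Field K] {σ : Type} [Fintype σ]

/-- The point `P + ε v` over the dual numbers. -/
def dpt (P v : σ → K) : σ → TrivSqZeroExt K K :=
  fun j => TrivSqZeroExt.inl (P j) + TrivSqZeroExt.inr (v j)

omit [Fintype σ] in
theorem dpt_fst (P v : σ → K) (j : σ) : (dpt P v j).fst = P j := by
  simp [dpt]

omit [Fintype σ] in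
theorem dpt_snd (P v : σ → K) (j : σ) : (dpt P v j).snd = v j := by
  simp [dpt]

omit [Fintype σ] in
theorem fst_aeval (P v : σ → K) (f : MvPolynomial σ K) :
    (aeval (dpt P v) f).fst = aeval P f := by
  induction f using MvPolynomial.induction_on with
  | C a =>
    rw [aeval_C, aeval_C]
    rfl
  | add p q hp hq => rw [map_add, map_add, TrivSqZeroExt.fst_add, hp, hq]
  | mul_X p i hp =>
    rw [map_mul, map_mul, TrivSqZeroExt.fst_mul, hp, aeval_X, aeval_X]
    simp [dpt]

/-- The first order term. -/
theorem snd_aeval (P v : σ → K) (f : MvPolynomial σ K) :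
    (aeval (dpt P v) f).snd = ∑ j, v j * aeval P (pderiv j f) := by
  classical
  induction f using MvPolynomial.induction_on with
  | C a =>
    rw [aeval_C]
    simp only [pderiv_C, map_zero, mul_zero, Finset.sum_const_zero]
    rfl
  | add p q hp hq =>
    rw [map_add, TrivSqZeroExt.snd_add, hp, hq, ← Finset.sum_add_distrib]
    refine Finset.sum_congr rfl fun j _ => ?_
    rw [map_add, map_add]
    ring
  | mul_X p i hp =>
    rw [map_mul, TrivSqZeroExt.snd_mul, hp, fst_aeval, aeval_X, dpt_fst, dpt_snd]
    have e : ∀ j, v j * aeval P (pderiv j (p * X i)) =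
        P i * (v j * aeval P (pderiv j p)) + aeval P p * (if j = i then v j else 0) := by
      intro j
      rw [pderiv_mul, map_add, map_mul, map_mul, aeval_X]
      by_cases hj : j = i
      · subst hj
        rw [pderiv_X_self, map_one, if_pos rfl]
        ring
      · rw [pderiv_X_of_ne (fun h => hj h.symm), map_zero, if_neg hj]
        ring
    rw [Finset.sum_congr rfl fun j _ => e j, Finset.sum_add_distrib, ← Finset.mul_sum,
      ← Finset.mul_sum, Finset.sum_ite_eq' Finset.univ i, if_pos (Finset.mem_univ i)]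
    simp only [smul_eq_mul, MulOpposite.smul_eq_mul_unop, MulOpposite.unop_op]
    ring

/-- A relation between the gradients. -/
theorem grad_iff {ι : Type} [Fintype ι] (P : σ → K) (f : ι → MvPolynomial σ K) (b : ι → K) :
    (∀ j, ∑ i, b i * aeval P (pderiv j (f i)) = 0) ↔
      ∀ v : σ → K, ∑ i, b i * (aeval (dpt P v) (f i)).snd = 0 := by
  classical
  constructor
  · intro h v
    have e : ∀ i, b i * (aeval (dpt P v) (f i)).snd =
        ∑ j, v j * (b i * aeval P (pderiv j (f i))) := by
      intro i
      rw [snd_aeval, Finset.mul_sum]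
      refine Finset.sum_congr rfl fun j _ => ?_
      ring
    rw [Finset.sum_congr rfl fun i _ => e i, Finset.sum_comm]
    refine Finset.sum_eq_zero fun j _ => ?_
    rw [← Finset.mul_sum, h j, mul_zero]
  · intro h j
    rw [← h (Pi.single j 1)]
    refine Finset.sum_congr rfl fun i _ => ?_
    congr 1
    rw [snd_aeval, Finset.sum_eq_single j]
    · rw [Pi.single_eq_same, one_mul]
    · intro j' _ hj
      rw [Pi.single_eq_of_ne hj, zero_mul]
    · intro hj
      exact absurd (Finset.mem_univ j) hj

end dual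

section bihom

variable {K : Type} [Field K] {N n : ℕ}

/-- Scaling of bihomogeneous polynomials. -/
theorem bihom_smul {f : MvPolynomial (Fin N ⊕ Fin n) K} {a b : ℕ}
    (hf : ∀ m ∈ f.support, ∑ j, m (Sum.inl j) = a ∧ ∑ j, m (Sum.inr j) = b) {R : Type*}
    [CommRing R] [Algebra K R] (s t : R) (w : Fin N → R) (x : Fin n → R) :
    aeval (Sum.elim (s • w) (t • x)) f = s ^ a * t ^ b * aeval (Sum.elim w x) f := by
  rw [aeval_def, eval₂_eq', aeval_def, eval₂_eq', Finset.mul_sum]
  refine Finset.sum_congr rfl fun m hm => ?_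
  obtain ⟨h1, h2⟩ := hf m hm
  rw [Fintype.prod_sum_type, Fintype.prod_sum_type]
  simp only [Sum.elim_inl, Sum.elim_inr, Pi.smul_apply, smul_eq_mul, mul_pow,
    Finset.prod_mul_distrib, Finset.prod_pow_eq_pow_sum, h1, h2]
  ring

theorem bihom_hom {f : MvPolynomial (Fin N ⊕ Fin n) K} {a b : ℕ}
    (hf : ∀ m ∈ f.support, ∑ j, m (Sum.inl j) = a ∧ ∑ j, m (Sum.inr j) = b) :
    f.IsHomogeneous (a + b) := by
  intro m hm
  obtain ⟨h1, h2⟩ := hf m (mem_support_iff.2 hm)
  change Finsupp.weight (fun _ => 1) m = a + b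
  rw [← Finsupp.degree_eq_weight_one, Finsupp.degree_eq_sum, Fintype.sum_sum_type, h1, h2]

end bihom

/-- `SmAt` with any finite set of forms, and the dual numbers. -/
theorem smAt_of {K : Type} [Field K] {n : ℕ} {κ ι : Type} [Fintype ι]
    {g : κ → MvPolynomial (Fin n) K} {P : Fin n → K} (f : ι → MvPolynomial (Fin n) K)
    (s : MvPolynomial (Fin n) K) (hf : ∀ i, ∃ d, (f i).IsHomogeneous d) (hs : aeval P s ≠ 0)
    (hi : ∀ b : ι → K, (∀ v : Fin n → K, ∑ i, b i * (aeval (dpt P v) (f i)).snd = 0) → b = 0)
    (hl : ∀ x : Fin n → K, aeval x s ≠ 0 → ((∀ i, aeval x (f i) = 0) ↔ Zer g K x)) :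
    SmAt g P := by
  refine ⟨Fintype.card ι, fun i => f ((Fintype.equivFin ι).symm i), s, fun i => hf _, hs, ?_, ?_⟩
  · intro b hb
    have h1 := hi (fun i => b (Fintype.equivFin ι i)) (by
      rw [← grad_iff]
      intro j
      rw [← hb j]
      refine Fintype.sum_equiv (Fintype.equivFin ι) _ _ fun i => ?_
      beta_reduce
      rw [Equiv.symm_apply_apply])
    funext i
    have h2 := congrFun h1 ((Fintype.equivFin ι).symm i)
    rw [Equiv.apply_symm_apply] at h2
    exact h2
  · intro x hx
    rw [← hl x hx]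
    constructor
    · intro h i
      have := h (Fintype.equivFin ι i)
      beta_reduce at this
      rwa [Equiv.symm_apply_apply] at this
    · intro h i
      exact h _

end Rl
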