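import Pool.Agent.Lib.MP_f80667_ag.Rl.Cls

/-! The points of the base under the points of the family in given classes. -/

open scoped LinearAlgebra.Projectivization
open MvPolynomial Topology Filter

namespace Rl

open ZC

section sph

variable {K : Type} [Field K] {N n r : ℕ} {κ : Type} {h : κ → MvPolynomial (Fin N) K}
  {A : Fin r → Matrix (Fin n) (Fin n) (MvPolynomial (Fin N) K)}

theorem e_aeval' (e : K ≃+* ℝ) {σ : Type} (f : MvPolynomial σ K) (v : σ → ℝ) :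
    e (aeval (fun i => e.symm (v i)) f) = aeval v (f.map (e : K →+* ℝ)) := by
  have h1 := e_aeval e (fun i => e.symm (v i)) (f.map (e : K →+* ℝ))
  rw [MvPolynomial.map_map] at h1
  have h2 : (e.symm : ℝ →+* K).comp (e : K →+* ℝ) = RingHom.id K := by
    ext a
    simp
  rw [h2, MvPolynomial.map_id] at h1
  simpa using h1

theorem cont_aeval (e : K ≃+* ℝ) {σ : Type} (f : MvPolynomial σ K) :
    Continuous fun v : σ → ℝ => e (aeval (fun i => e.symm (v i)) f) := by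
  have h1 : (fun v : σ → ℝ => e (aeval (fun i => e.symm (v i)) f)) =
      fun v : σ → ℝ => MvPolynomial.eval v (f.map (e : K →+* ℝ)) := by
    funext v
    rw [e_aeval']
    rfl
  rw [h1]
  exact MvPolynomial.continuous_eval _

variable (h A) in
/-- The real points of the sphere bundle. -/
def SZ (e : K ≃+* ℝ) : Set ((Fin N → ℝ) × (Fin n → ℝ)) :=
  {p | ∑ i, p.1 i ^ 2 = 1 ∧ ∑ i, p.2 i ^ 2 = 1 ∧
    Zer2 h A K (fun i => e.symm (p.1 i)) (fun i => e.symm (p.2 i))}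

theorem closed_SZ (e : K ≃+* ℝ) : IsClosed (SZ h A e) := by
  have c1 : ∀ f : MvPolynomial (Fin N) K, Continuous fun p : (Fin N → ℝ) × (Fin n → ℝ) =>
      e (aeval (fun i => e.symm (p.1 i)) f) := fun f => (cont_aeval e f).comp continuous_fst
  have c2 : ∀ i, Continuous fun p : (Fin N → ℝ) × (Fin n → ℝ) => p.1 i := fun i =>
    (continuous_apply i).comp continuous_fst
  have c3 : ∀ i, Continuous fun p : (Fin N → ℝ) × (Fin n → ℝ) => p.2 i := fun i =>
    (continuous_apply i).comp continuous_snd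
  have h1 : SZ h A e = {p | ∑ i, p.1 i ^ 2 = 1} ∩ ({p | ∑ i, p.2 i ^ 2 = 1} ∩
      ((⋂ j, {p | e (aeval (fun i => e.symm (p.1 i)) (h j)) = 0}) ∩
        ⋂ i, {p | ∑ a, ∑ b, e (aeval (fun i => e.symm (p.1 i)) (A i a b)) * p.2 a * p.2 b = 0})) := by
    ext p
    simp only [SZ, Zer2, Zer, Set.mem_setOf_eq, Set.mem_inter_iff, Set.mem_iInter]
    refine and_congr Iff.rfl (and_congr Iff.rfl (and_congr ?_ ?_))
    · exact forall_congr' fun j => (map_eq_zero_iff e e.injective).symm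
    · refine forall_congr' fun i => ?_
      rw [← map_eq_zero_iff e e.injective, dot_sum, map_sum]
      simp only [map_sum, map_mul, Matrix.map_apply, RingEquiv.apply_symm_apply]
  rw [h1]
  refine IsClosed.inter ?_ (IsClosed.inter ?_ (IsClosed.inter ?_ ?_))
  · exact isClosed_eq (continuous_finsetSum _ fun i _ => (c2 i).pow 2) continuous_const
  · exact isClosed_eq (continuous_finsetSum _ fun i _ => (c3 i).pow 2) continuous_const
  · exact isClosed_iInter fun j => isClosed_eq (c1 _) continuous_const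
  · refine isClosed_iInter fun i => isClosed_eq ?_ continuous_const
    exact continuous_finsetSum _ fun a _ => continuous_finsetSum _ fun b _ =>
      ((c1 _).mul (c3 a)).mul (c3 b)

theorem symm_ne (e : K ≃+* ℝ) {m : ℕ} {v : Fin m → ℝ} (hv : ∑ i, v i ^ 2 = 1) :
    (fun i => e.symm (v i)) ≠ 0 := by
  intro h0
  have h1 : v = 0 := by
    funext i
    exact (map_eq_zero_iff e.symm e.symm.injective).1 (congrFun h0 i)
  rw [h1] at hv
  simp at hv

theorem cpt_SZ (e : K ≃+* ℝ) : IsCompact (SZ h A e) := by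
  refine IsCompact.of_isClosed_subset ((isCompact_univ_pi fun _ : Fin N => isCompact_Icc
    (a := (-1 : ℝ)) (b := 1)).prod (isCompact_univ_pi fun _ : Fin n => isCompact_Icc
    (a := (-1 : ℝ)) (b := 1))) (closed_SZ e) ?_
  rintro p ⟨h1, h2, -⟩
  have key : ∀ {m : ℕ} (v : Fin m → ℝ), ∑ i, v i ^ 2 = 1 → ∀ i, v i ∈ Set.Icc (-1 : ℝ) 1 := by
    intro m v hv i
    have h3 : v i ^ 2 ≤ 1 := by
      rw [← hv]
      exact Finset.single_le_sum (f := fun i => v i ^ 2) (fun j _ => sq_nonneg _)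
        (Finset.mem_univ i)
    exact abs_le.1 ((sq_le_one_iff_abs_le_one _).1 h3)
  exact ⟨fun i _ => key _ h1 i, fun i _ => key _ h2 i⟩

variable (h A) in
/-- The unit vectors over the points in the classes of `C`. -/
def UC (e : K ≃+* ℝ) (C : Set ((Pt2 (AlgebraicClosure K) N n →₀ ℤ) ⧸ HH h A)) :
    Set (Fin N → ℝ) :=
  Prod.fst '' {p | p ∈ SZ h A e ∧
    cl h A (fun i => e.symm (p.1 i)) (fun i => e.symm (p.2 i)) ∈ C}

theorem closed_UC (e : K ≃+* ℝ) (hh : ∀ j, ∃ d, (h j).IsHomogeneous d)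
    (hA : ∀ i, ∃ e, ∀ a b, (A i a b).IsHomogeneous e)
    (hsm : ∀ (w : Fin N → K) (x : Fin n → K), w ≠ 0 → x ≠ 0 → Zer2 h A K w x → SmAt2 h A w x)
    (C : Set ((Pt2 (AlgebraicClosure K) N n →₀ ℤ) ⧸ HH h A)) : IsClosed (UC h A e C) := by
  refine IsCompact.isClosed (IsCompact.image ?_ continuous_fst)
  refine (cpt_SZ (h := h) (A := A) e).of_isClosed_subset ?_ fun p hp => hp.1
  let _ : TopologicalSpace K := TopologicalSpace.induced e inferInstance
  have he : Continuous e := continuous_induced_dom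
  have hes : Continuous e.symm := cont_symm e
  refine isClosed_of_closure_subset fun p hp => ?_
  have hp1 : p ∈ SZ h A e := by
    refine closure_minimal ?_ (closed_SZ (h := h) (A := A) e) hp
    exact fun q hq => hq.1
  refine ⟨hp1, ?_⟩
  have hw := symm_ne e hp1.1
  have hx := symm_ne e hp1.2.1
  have hn := near_cl e he hh hA hw hx hp1.2.2 (hsm _ _ hw hx hp1.2.2)
  have hG : Continuous fun q : (Fin N → ℝ) × (Fin n → ℝ) =>
      sg (fun i => e.symm (q.1 i)) (fun i => e.symm (q.2 i)) := by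
    refine continuous_pi fun c => ?_
    have : (fun q : (Fin N → ℝ) × (Fin n → ℝ) =>
        sg (fun i => e.symm (q.1 i)) (fun i => e.symm (q.2 i)) c) = fun q =>
        e.symm (q.1 (finProdFinEquiv.symm c).1 * q.2 (finProdFinEquiv.symm c).2) := by
      funext q
      rw [sg, map_mul]
    rw [this]
    exact hes.comp (((continuous_apply _).comp continuous_fst).mul
      ((continuous_apply _).comp continuous_snd))
  have h1 := (hG.tendsto p).eventually hn
  obtain ⟨q, hq, hqC⟩ := ((mem_closure_iff_frequently.1 hp).and_eventually h1).exists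
  have h2 := hqC _ _ (symm_ne e hq.1.1) (symm_ne e hq.1.2.1) hq.1.2.2 rfl
  rw [h2]
  exact hq.2

theorem symm_nv (e : K ≃+* ℝ) {m : ℕ} {x : Fin m → K} (hx : x ≠ 0) :
    ∃ c : K, c ≠ 0 ∧ (fun i => e.symm (nv e x i)) = c • x := by
  refine ⟨e.symm (Real.sqrt (∑ i, e (x i) ^ 2))⁻¹, ?_, ?_⟩
  · rw [Ne, map_eq_zero_iff e.symm e.symm.injective, inv_eq_zero, Real.sqrt_eq_zero']
    exact not_le.2 (sq_ne e hx)
  · funext i
    rw [nv, div_eq_inv_mul, map_mul, e.symm_apply_apply]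
    rfl

theorem mem_UC (e : K ≃+* ℝ) (hh : ∀ j, ∃ d, (h j).IsHomogeneous d)
    (hA : ∀ i, ∃ e, ∀ a b, (A i a b).IsHomogeneous e)
    {C : Set ((Pt2 (AlgebraicClosure K) N n →₀ ℤ) ⧸ HH h A)} {w : Fin N → K} {x : Fin n → K}
    (hw : w ≠ 0) (hx : x ≠ 0) (hz : Zer2 h A K w x) (hC : cl h A w x ∈ C) :
    nv e w ∈ UC h A e C := by
  obtain ⟨c, hc, h1⟩ := symm_nv e hw
  obtain ⟨d, hd, h2⟩ := symm_nv e hx
  refine ⟨(nv e w, nv e x), ⟨⟨nv_unit e hw, nv_unit e hx, ?_⟩, ?_⟩, rfl⟩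
  · dsimp only
    rw [h1, h2]
    exact hz.smul hh hA c d
  · dsimp only
    rw [h1, h2, cl_smul hc hd]
    exact hC

theorem neg_UC (e : K ≃+* ℝ) (hh : ∀ j, ∃ d, (h j).IsHomogeneous d)
    (hA : ∀ i, ∃ e, ∀ a b, (A i a b).IsHomogeneous e)
    {C : Set ((Pt2 (AlgebraicClosure K) N n →₀ ℤ) ⧸ HH h A)} {v : Fin N → ℝ}
    (hv : v ∈ UC h A e C) : -v ∈ UC h A e C := by
  obtain ⟨⟨v', u⟩, ⟨⟨h1, h2, h3⟩, h4⟩, rfl⟩ := hv
  have h5 : (fun i => e.symm ((-v') i)) = (-1 : K) • fun i => e.symm (v' i) := by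
    funext i
    simp
  refine ⟨(-v', u), ⟨⟨?_, h2, ?_⟩, ?_⟩, rfl⟩
  · simpa using h1
  · dsimp only at h3 ⊢
    rw [h5]
    have := h3.smul hh hA (-1) 1
    rwa [one_smul] at this
  · dsimp only at h4 ⊢
    have h6 := cl_smul (h := h) (A := A) (neg_ne_zero.2 one_ne_zero) (one_ne_zero (α := K))
      (fun i => e.symm (v' i)) (fun i => e.symm (u i))
    rw [one_smul] at h6
    rw [h5, h6]
    exact h4

section conn

variable (hcn : ∀ w : Fin N → K, w ≠ 0 → Zer h K w → ∀ x x' : Fin n → K, x ≠ 0 → x' ≠ 0 →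
  Zer2 h A K w x → Zer2 h A K w x' → cl h A w x = cl h A w x')

include hcn

theorem of_mem_UC (e : K ≃+* ℝ) (hh : ∀ j, ∃ d, (h j).IsHomogeneous d)
    (hA : ∀ i, ∃ e, ∀ a b, (A i a b).IsHomogeneous e)
    {C : Set ((Pt2 (AlgebraicClosure K) N n →₀ ℤ) ⧸ HH h A)} {w : Fin N → K}
    {x : Fin n → K} (hw : w ≠ 0) (hx : x ≠ 0) (hz : Zer2 h A K w x)
    (hC : nv e w ∈ UC h A e C) : cl h A w x ∈ C := by
  obtain ⟨c, hc, h1⟩ := symm_nv e hw
  obtain ⟨⟨v, u⟩, ⟨⟨h2, h3, h4⟩, h5⟩, h6⟩ := hC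
  dsimp only at h2 h3 h4 h5 h6
  rw [h6] at h4 h5
  rw [h1] at h4 h5
  have hu := symm_ne e h3
  have h7 : Zer2 h A K w (fun i => e.symm (u i)) := by
    have := h4.smul hh hA c⁻¹ 1
    rwa [smul_smul, inv_mul_cancel₀ hc, one_smul, one_smul] at this
  have h8 := cl_smul (h := h) (A := A) hc (one_ne_zero (α := K)) w (fun i => e.symm (u i))
  rw [one_smul] at h8
  rw [hcn w hw hz.1 x _ hx hu hz h7, ← h8]
  exact h5

theorem disj_UC (e : K ≃+* ℝ) (C : Set ((Pt2 (AlgebraicClosure K) N n →₀ ℤ) ⧸ HH h A)) :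
    Disjoint (UC h A e C) (UC h A e Cᶜ) := by
  rw [Set.disjoint_left]
  rintro _ ⟨⟨v, u⟩, ⟨⟨h2, h3, h4⟩, h5⟩, rfl⟩ ⟨⟨v', u'⟩, ⟨⟨h2', h3', h4'⟩, h5'⟩, h6⟩
  dsimp only at h2 h3 h4 h5 h2' h3' h4' h5' h6
  subst h6
  apply h5'
  rw [hcn _ (symm_ne e h2) h4.1 _ _ (symm_ne e h3') (symm_ne e h3) h4' h4]
  exact h5

end conn

end sph

end Rl
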